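import Pool.Agent.H427R2.SD.St

set_option autoImplicit false

namespace Pool.Agent.H427R2.SD

open Finset

/-- the saturated vertices -/
noncomputable def CLEAN_U {ι : Type} [DecidableEq ι] (J : Finset ι) {r : ℕ} (z : Fin r → ι → ℝ) :
    Finset ι := J.filter (fun i => ∑ a, z a i ^ 2 = 1)

theorem CLEAN_smul {ι : Type} [Fintype ι] (A : ι → ι → ℝ) (x : ι → ℝ) (t : ℝ) :
    quad A (fun i => t * x i) = t ^ 2 * quad A x := by
  unfold quad
  rw [Finset.mul_sum]
  refine Finset.sum_congr rfl (fun i _ => ?_)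
  rw [Finset.mul_sum]
  refine Finset.sum_congr rfl (fun j _ => ?_)
  ring

theorem CLEAN_step {ι : Type} [Fintype ι] [DecidableEq ι] (A : ι → ι → ℝ) (J : Finset ι)
    (lam : ℝ) {r : ℕ} (z : Fin r → ι → ℝ) (h1 : ∀ a i, i ∉ J → z a i = 0)
    (h2 : ∀ i, ∑ a, z a i ^ 2 ≤ 1) (h3 : ∀ a, lam * ∑ i, z a i ^ 2 ≤ -quad A (z a))
    (h4 : ¬ MinEig A (J \ CLEAN_U J z) lam) :
    ∃ z' : Fin (r + 1) → ι → ℝ, (∀ a i, i ∉ J → z' a i = 0) ∧ (∀ i, ∑ a, z' a i ^ 2 ≤ 1) ∧
      (∀ a, lam * ∑ i, z' a i ^ 2 ≤ -quad A (z' a)) ∧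
      (CLEAN_U J z).card + 1 ≤ (CLEAN_U J z').card := by
  unfold MinEig at h4
  push Not at h4
  obtain ⟨x, hx1, hx2⟩ := h4
  have hne : (Finset.univ.filter (fun i => x i ≠ 0)).Nonempty := by
    by_contra hcon
    rw [Finset.not_nonempty_iff_eq_empty] at hcon
    have hz : ∀ i, x i = 0 := by
      intro i
      by_contra hi
      have : i ∈ Finset.univ.filter (fun i => x i ≠ 0) := by simp [hi]
      rw [hcon] at this
      simp at this
    have e1 : quad A x = 0 := by simp [quad, hz]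
    have e2 : ∑ i, x i ^ 2 = 0 := by simp [hz]
    rw [e1, e2] at hx2
    linarith
  obtain ⟨i₀, hi₀, hmin⟩ := Finset.exists_min_image _
    (fun i => (1 - ∑ a, z a i ^ 2) / x i ^ 2) hne
  simp only [Finset.mem_filter, Finset.mem_univ, true_and] at hi₀ hmin
  have hmem : ∀ i, x i ≠ 0 → i ∈ J ∧ ∑ a, z a i ^ 2 < 1 := by
    intro i hi
    have h5 : i ∈ J \ CLEAN_U J z := by
      by_contra hcon
      exact hi (hx1 i hcon)
    rw [Finset.mem_sdiff, CLEAN_U, Finset.mem_filter] at h5
    refine ⟨h5.1, lt_of_le_of_ne (h2 i) (fun h6 => h5.2 ⟨h5.1, h6⟩)⟩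
  set m := (1 - ∑ a, z a i₀ ^ 2) / x i₀ ^ 2 with hm
  have hm0 : 0 < m := by
    have := (hmem i₀ hi₀).2
    have h6 : 0 < x i₀ ^ 2 := by positivity
    exact div_pos (by linarith) h6
  set t := Real.sqrt m with ht
  have ht2 : t ^ 2 = m := Real.sq_sqrt hm0.le
  have hle : ∀ i, ∑ a, z a i ^ 2 + (t * x i) ^ 2 ≤ 1 := by
    intro i
    by_cases hi : x i = 0
    · rw [hi]; simpa using h2 i
    · have h6 := hmin i hi
      have h7 : 0 < x i ^ 2 := by positivity
      rw [le_div_iff₀ h7] at h6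
      rw [mul_pow, ht2]
      linarith
  refine ⟨Fin.cons (fun i => t * x i) z, ?_, ?_, ?_, ?_⟩
  · intro a i hi
    refine Fin.cases ?_ (fun b => ?_) a
    · rw [Fin.cons_zero]
      by_contra hcon
      have h5 : x i ≠ 0 := by
        intro h0; apply hcon; rw [h0, mul_zero]
      exact hi (hmem i h5).1
    · rw [Fin.cons_succ]
      exact h1 b i hi
  · intro i
    rw [Fin.sum_univ_succ]
    simp only [Fin.cons_zero, Fin.cons_succ]
    linarith [hle i]
  · intro a
    refine Fin.cases ?_ (fun b => ?_) a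
    · simp only [Fin.cons_zero]
      rw [CLEAN_smul]
      have e : ∑ i, (t * x i) ^ 2 = t ^ 2 * ∑ i, x i ^ 2 := by
        rw [Finset.mul_sum]
        refine Finset.sum_congr rfl (fun i _ => by ring)
      rw [e]
      nlinarith [sq_nonneg t]
    · simp only [Fin.cons_succ]
      exact h3 b
  · have hsub : insert i₀ (CLEAN_U J z) ⊆ CLEAN_U J (Fin.cons (fun i => t * x i) z) := by
      intro i hi
      rw [Finset.mem_insert] at hi
      rw [CLEAN_U, Finset.mem_filter, Fin.sum_univ_succ]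
      simp only [Fin.cons_zero, Fin.cons_succ]
      rcases hi with rfl | hi
      · refine ⟨(hmem i hi₀).1, ?_⟩
        have h7 : x i ^ 2 ≠ 0 := by positivity
        rw [mul_pow, ht2, hm, div_mul_cancel₀ _ h7]
        ring
      · rw [CLEAN_U, Finset.mem_filter] at hi
        refine ⟨hi.1, ?_⟩
        have h8 : x i = 0 := by
          by_contra h9
          have := (hmem i h9).2
          linarith [hi.2]
        rw [h8, hi.2]
        ring
    have hni : i₀ ∉ CLEAN_U J z := by
      intro h9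
      rw [CLEAN_U, Finset.mem_filter] at h9
      have := (hmem i₀ hi₀).2
      linarith [h9.2]
    calc (CLEAN_U J z).card + 1 = (insert i₀ (CLEAN_U J z)).card := by
          rw [Finset.card_insert_of_notMem hni]
      _ ≤ _ := Finset.card_le_card hsub

theorem t_CLEAN : S_CLEAN := by
  intro ι _ _ A _ J κ ρ hκ hρ hyp
  by_contra hcon
  push Not at hcon
  have hlam : 0 < κ / ρ := div_pos hκ hρ
  have key : ∀ m : ℕ, ∃ (r : ℕ) (z : Fin r → ι → ℝ), (∀ a i, i ∉ J → z a i = 0) ∧
      (∀ i, ∑ a, z a i ^ 2 ≤ 1) ∧ (∀ a, κ / ρ * ∑ i, z a i ^ 2 ≤ -quad A (z a)) ∧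
      m ≤ (CLEAN_U J z).card := by
    intro m
    induction m with
    | zero =>
      exact ⟨0, fun a => a.elim0, fun a => a.elim0, by simp, fun a => a.elim0, Nat.zero_le _⟩
    | succ m ih =>
      obtain ⟨r, z, h1, h2, h3, h4⟩ := ih
      have hU : ((CLEAN_U J z).card : ℝ) ≤ ρ := by
        by_contra hU
        push Not at hU
        have h5 := hyp r z h1 h2
        have h6 : κ / ρ * ∑ a, ∑ i, z a i ^ 2 ≤ -∑ a, quad A (z a) := by
          rw [Finset.mul_sum, ← Finset.sum_neg_distrib]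
          exact Finset.sum_le_sum (fun a _ => h3 a)
        rw [Finset.sum_comm] at h6
        have h7 : ((CLEAN_U J z).card : ℝ) ≤ ∑ i, ∑ a, z a i ^ 2 := by
          calc ((CLEAN_U J z).card : ℝ) = ∑ i ∈ CLEAN_U J z, (1 : ℝ) := by simp
            _ = ∑ i ∈ CLEAN_U J z, ∑ a, z a i ^ 2 := by
                refine Finset.sum_congr rfl (fun i hi => ?_)
                rw [CLEAN_U, Finset.mem_filter] at hi
                exact hi.2.symm
            _ ≤ ∑ i, ∑ a, z a i ^ 2 := by
                refine Finset.sum_le_sum_of_subset_of_nonneg (Finset.subset_univ _) ?_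
                intro i _ _
                exact Finset.sum_nonneg (fun a _ => sq_nonneg _)
        have h8 : κ < κ / ρ * ∑ i, ∑ a, z a i ^ 2 := by
          calc κ = κ / ρ * ρ := by field_simp
            _ < κ / ρ * ∑ i, ∑ a, z a i ^ 2 :=
                mul_lt_mul_of_pos_left (lt_of_lt_of_le hU h7) hlam
        linarith
      have hsubJ : CLEAN_U J z ⊆ J := Finset.filter_subset _ _
      obtain ⟨z', g1, g2, g3, g4⟩ := CLEAN_step A J (κ / ρ) z h1 h2 h3
        (hcon (CLEAN_U J z) hsubJ hU)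
      exact ⟨r + 1, z', g1, g2, g3, by omega⟩
  obtain ⟨r, z, -, -, -, h⟩ := key (J.card + 1)
  have : (CLEAN_U J z).card ≤ J.card := Finset.card_le_card (Finset.filter_subset _ _)
  omega

end Pool.Agent.H427R2.SD
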