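import Pool.Agent.H427R2.SD.St

set_option autoImplicit false

namespace Pool.Agent.H427R2.SD

open Finset

theorem t_EXT : S_EXT := by
  intro ι _ _ A hA V p hV hp hpV
  have h01 : ∀ i j, 0 ≤ A i j ∧ A i j ≤ 1 := by
    intro i j
    rcases hA.2.2 i j with h | h <;> rw [h] <;> norm_num
  have he0 : ∀ X : Finset ι, 0 ≤ e2 A X := fun X =>
    Finset.sum_nonneg fun i _ => Finset.sum_nonneg fun j _ => (h01 i j).1
  have he2 : ∀ X : Finset ι, e2 A X ≤ (X.card : ℝ) ^ 2 := by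
    intro X
    unfold e2
    calc ∑ i ∈ X, ∑ j ∈ X, A i j ≤ ∑ i ∈ X, ∑ j ∈ X, (1 : ℝ) :=
          Finset.sum_le_sum fun i _ => Finset.sum_le_sum fun j _ => (h01 i j).2
      _ = (X.card : ℝ) ^ 2 := by
          simp
          ring
  obtain ⟨S, hS, hmax⟩ := Finset.exists_max_image (V.powerset.filter Finset.Nonempty)
    (fun X => e2 A X ^ 100 / (X.card : ℝ) ^ 199) ⟨V, by simp [hV]⟩
  rw [Finset.mem_filter, Finset.mem_powerset] at hS
  obtain ⟨hSV, hSn⟩ := hS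
  have hSc : (0 : ℝ) < S.card := by exact_mod_cast hSn.card_pos
  have hVc : (0 : ℝ) < V.card := by exact_mod_cast hV.card_pos
  have hmax' : ∀ X ⊆ V, X.Nonempty →
      e2 A X ^ 100 * (S.card : ℝ) ^ 199 ≤ e2 A S ^ 100 * (X.card : ℝ) ^ 199 := by
    intro X hX hXn
    have hXc : (0 : ℝ) < X.card := by exact_mod_cast hXn.card_pos
    have := hmax X (by rw [Finset.mem_filter, Finset.mem_powerset]; exact ⟨hX, hXn⟩)
    rwa [div_le_div_iff₀ (pow_pos hXc _) (pow_pos hSc _)] at this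
  have h1 : p ^ 100 * (V.card : ℝ) ^ 200 ≤ e2 A V ^ 100 := by
    have h2 : (p * (V.card : ℝ) ^ 2) ^ 100 ≤ e2 A V ^ 100 :=
      pow_le_pow_left₀ (by positivity) hpV 100
    calc p ^ 100 * (V.card : ℝ) ^ 200 = (p * (V.card : ℝ) ^ 2) ^ 100 := by
          rw [mul_pow, ← pow_mul]
      _ ≤ _ := h2
  have h3 : p ^ 100 * (V.card : ℝ) * (S.card : ℝ) ^ 199 ≤ e2 A S ^ 100 := by
    have h4 := hmax' V Finset.Subset.rfl hV
    have h5 : p ^ 100 * (V.card : ℝ) ^ 200 * (S.card : ℝ) ^ 199 ≤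
        e2 A S ^ 100 * (V.card : ℝ) ^ 199 :=
      (mul_le_mul_of_nonneg_right h1 (by positivity)).trans h4
    have h6 : (p ^ 100 * (V.card : ℝ) * (S.card : ℝ) ^ 199) * (V.card : ℝ) ^ 199 ≤
        e2 A S ^ 100 * (V.card : ℝ) ^ 199 := by
      calc (p ^ 100 * (V.card : ℝ) * (S.card : ℝ) ^ 199) * (V.card : ℝ) ^ 199 =
          p ^ 100 * ((V.card : ℝ) * (V.card : ℝ) ^ 199) * (S.card : ℝ) ^ 199 := by ring
        _ = p ^ 100 * (V.card : ℝ) ^ 200 * (S.card : ℝ) ^ 199 := by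
          rw [← pow_succ' (V.card : ℝ) 199]
        _ ≤ _ := h5
    exact le_of_mul_le_mul_right h6 (pow_pos hVc _)
  refine ⟨S, hSV, hSn, hmax', ?_, ?_⟩
  · have hSVc : (S.card : ℝ) ≤ V.card := by exact_mod_cast Finset.card_le_card hSV
    have h4 : (p * (S.card : ℝ) ^ 2) ^ 100 ≤ e2 A S ^ 100 := by
      calc (p * (S.card : ℝ) ^ 2) ^ 100 = p ^ 100 * (S.card : ℝ) ^ 200 := by
            rw [mul_pow, ← pow_mul]
        _ = p ^ 100 * ((S.card : ℝ) * (S.card : ℝ) ^ 199) := by rw [← pow_succ' (S.card : ℝ) 199]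
        _ ≤ p ^ 100 * ((V.card : ℝ) * (S.card : ℝ) ^ 199) :=
            mul_le_mul_of_nonneg_left (mul_le_mul_of_nonneg_right hSVc (by positivity))
              (by positivity)
        _ = p ^ 100 * (V.card : ℝ) * (S.card : ℝ) ^ 199 := by ring
        _ ≤ _ := h3
    exact le_of_pow_le_pow_left₀ (by norm_num) (he0 S) h4
  · have h4 : e2 A S ^ 100 ≤ (S.card : ℝ) * (S.card : ℝ) ^ 199 := by
      calc e2 A S ^ 100 ≤ ((S.card : ℝ) ^ 2) ^ 100 := pow_le_pow_left₀ (he0 S) (he2 S) 100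
        _ = (S.card : ℝ) ^ 200 := by rw [← pow_mul]
        _ = (S.card : ℝ) * (S.card : ℝ) ^ 199 := by rw [← pow_succ' (S.card : ℝ) 199]
    exact le_of_mul_le_mul_right (h3.trans h4) (pow_pos hSc _)

end Pool.Agent.H427R2.SD
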