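import Pool.Agent.H427R2.SD.St

set_option autoImplicit false

/-! F1: the number of vertices. -/

namespace Pool.Agent.H427R2.SD

open Finset

section F1

variable {n : ℕ}

/-- the slope at `v` -/
def F1_s (a : Fin n → Fin n → ℤ) (b : Fin n → ℤ) (y : Fin n → ℤ) (v : Fin n) : ℤ :=
  b v - ∑ u, (if u < v then a v u * y u else 0)

/-- the parity of the slope -/
def F1_t (a : Fin n → Fin n → ℤ) (b : Fin n → ℤ) (X : Finset (Fin n)) (v : Fin n) : ℤ :=
  b v + ∑ u, (if u < v then a v u * (if u ∈ X then 1 else 0) else 0)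

theorem F1_greedy (a : Fin n → Fin n → ℤ) (b : Fin n → ℤ) (X : Finset (Fin n)) :
    ∃ y : Fin n → ℤ, ∀ v, (v ∈ X → (y v = 1 ∨ y v = -1) ∧
      y v * F1_s a b y v = |F1_s a b y v|) ∧ (v ∉ X → y v = 0) := by
  have key : ∀ k : ℕ, k ≤ n → ∃ y : Fin n → ℤ, ∀ v : Fin n, v.val < k →
      (v ∈ X → (y v = 1 ∨ y v = -1) ∧
      y v * F1_s a b y v = |F1_s a b y v|) ∧ (v ∉ X → y v = 0) := by
    intro k
    induction k with
    | zero => intro _; exact ⟨0, fun v hv => absurd hv (Nat.not_lt_zero _)⟩
    | succ k ih =>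
      intro hk
      obtain ⟨y, hy⟩ := ih (by omega)
      obtain ⟨w, hw⟩ : ∃ w : Fin n, w.val = k := ⟨⟨k, hk⟩, rfl⟩
      obtain ⟨c, hc⟩ : ∃ c : ℤ, c = if w ∈ X then (if 0 ≤ F1_s a b y w then 1 else -1) else 0 :=
        ⟨_, rfl⟩
      have hs : ∀ v : Fin n, v ≤ w →
          F1_s a b (Function.update y w c) v = F1_s a b y v := by
        intro v hv
        unfold F1_s
        congr 1
        refine sum_congr rfl fun u _ => ?_
        split_ifs with h
        · rw [Function.update_of_ne (ne_of_lt (lt_of_lt_of_le h hv))]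
        · rfl
      refine ⟨Function.update y w c, fun v hv => ?_⟩
      rcases Nat.lt_succ_iff_lt_or_eq.1 hv with h | h
      · have hvw : v < w := by rw [Fin.lt_def, hw]; exact h
        rw [hs v hvw.le, Function.update_of_ne hvw.ne]
        exact hy v h
      · have hvw : v = w := Fin.ext (h.trans hw.symm)
        rw [hvw, hs w le_rfl, Function.update_self]
        constructor
        · intro hX
          rw [hc, if_pos hX]
          split_ifs with h0
          · exact ⟨Or.inl rfl, by rw [abs_of_nonneg h0, one_mul]⟩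
          · refine ⟨Or.inr rfl, ?_⟩
            rw [abs_of_neg (not_le.1 h0)]
            ring
        · intro hX
          rw [hc, if_neg hX]
  obtain ⟨y, hy⟩ := key n le_rfl
  exact ⟨y, fun v => hy v v.2⟩

theorem F1_parity (a : Fin n → Fin n → ℤ) (b : Fin n → ℤ) (X : Finset (Fin n)) (y : Fin n → ℤ)
    (h1 : ∀ v, v ∈ X → y v = 1 ∨ y v = -1) (h2 : ∀ v, v ∉ X → y v = 0) (v : Fin n) :
    Odd (F1_s a b y v) ↔ Odd (F1_t a b X v) := by
  have h3 : Even (F1_s a b y v + F1_t a b X v) := by
    have h4 : F1_s a b y v + F1_t a b X v = 2 * b v +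
        ∑ u, (if u < v then a v u * ((if u ∈ X then 1 else 0) - y u) else 0) := by
      unfold F1_s F1_t
      rw [show (∑ u, (if u < v then a v u * ((if u ∈ X then 1 else 0) - y u) else 0)) =
        (∑ u, (if u < v then a v u * (if u ∈ X then 1 else 0) else 0)) -
          ∑ u, (if u < v then a v u * y u else 0) by
        rw [← sum_sub_distrib]
        refine sum_congr rfl fun u _ => ?_
        by_cases h : u < v
        · simp only [if_pos h]; ring
        · simp only [if_neg h]; ring]
      ring
    rw [h4]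
    refine Even.add (even_two_mul _) ?_
    refine sum_induction _ Even (fun _ _ => Even.add) ⟨0, rfl⟩ fun u _ => ?_
    split_ifs with h5 h6
    · rcases h1 u h6 with h7 | h7 <;> rw [h7]
      · simp
      · exact ⟨a v u, by ring⟩
    · rw [h2 u h6]; simp
    · exact ⟨0, rfl⟩
  rw [Int.even_add] at h3
  rw [← Int.not_even_iff_odd, ← Int.not_even_iff_odd, h3]

open Classical in
theorem F1_count (a : Fin n → Fin n → ℤ) (b : Fin n → ℤ) (v u₀ : Fin n) (hu : u₀ < v)
    (ha : a v u₀ = 1) :
    4 * (univ.filter (fun X : Finset (Fin n) => v ∈ X ∧ Odd (F1_t a b X v))).card = 2 ^ n := by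
  have hne : v ≠ u₀ := hu.ne'
  have hflip : ∀ X : Finset (Fin n), Odd (F1_t a b (symmDiff X {u₀}) v) ↔
      ¬ Odd (F1_t a b X v) := by
    intro X
    have h3 : Odd (F1_t a b (symmDiff X {u₀}) v + F1_t a b X v) := by
      have h4 : F1_t a b (symmDiff X {u₀}) v + F1_t a b X v = 2 * b v +
          ∑ u, (if u < v then a v u * ((if u ∈ symmDiff X {u₀} then 1 else 0) +
            (if u ∈ X then 1 else 0)) else 0) := by
        unfold F1_t
        rw [show (∑ u, (if u < v then a v u * ((if u ∈ symmDiff X {u₀} then 1 else 0) +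
            (if u ∈ X then 1 else 0)) else 0)) =
          (∑ u, (if u < v then a v u * (if u ∈ symmDiff X {u₀} then 1 else 0) else 0)) +
            ∑ u, (if u < v then a v u * (if u ∈ X then 1 else 0) else 0) by
          rw [← sum_add_distrib]
          refine sum_congr rfl fun u _ => ?_
          by_cases h : u < v
          · simp only [if_pos h]; ring
          · simp only [if_neg h]; ring]
        ring
      rw [h4, ← add_sum_erase univ _ (mem_univ u₀)]
      have h5 : Even (∑ u ∈ univ.erase u₀, (if u < v then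
          a v u * ((if u ∈ symmDiff X {u₀} then 1 else 0) +
            (if u ∈ X then 1 else 0)) else 0)) := by
        refine sum_induction _ Even (fun _ _ => Even.add) ⟨0, rfl⟩ fun u hu' => ?_
        have h6 : u ≠ u₀ := ne_of_mem_erase hu'
        have h7 : u ∈ symmDiff X {u₀} ↔ u ∈ X := by
          simp [mem_symmDiff, h6]
        by_cases h8 : u < v
        · by_cases h9 : u ∈ X
          · simp only [if_pos h8, if_pos h9, if_pos (h7.2 h9)]
            exact ⟨a v u, by ring⟩
          · simp only [if_pos h8, if_neg h9, if_neg (fun h => h9 (h7.1 h))]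
            exact ⟨0, by ring⟩
        · rw [if_neg h8]; exact ⟨0, rfl⟩
      have h6 : (if u₀ < v then a v u₀ * ((if u₀ ∈ symmDiff X {u₀} then (1 : ℤ) else 0) +
            (if u₀ ∈ X then 1 else 0)) else 0) = 1 := by
        rw [if_pos hu, ha]
        by_cases h9 : u₀ ∈ X
        · simp [mem_symmDiff, h9]
        · simp [mem_symmDiff, h9]
      rw [h6]
      obtain ⟨r, hr⟩ := h5
      rw [hr]
      exact ⟨b v + r, by ring⟩
    rw [Int.odd_add] at h3
    rw [h3, Int.not_odd_iff_even]
  have hinv : ∀ (u : Fin n) (X : Finset (Fin n)), symmDiff (symmDiff X {u}) {u} = X := by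
    intro u X
    exact symmDiff_symmDiff_cancel_right _ _
  have hv1 : ∀ X : Finset (Fin n), v ∈ symmDiff X {u₀} ↔ v ∈ X := by
    intro X
    simp [mem_symmDiff, hne]
  have hv2 : ∀ X : Finset (Fin n), v ∈ symmDiff X {v} ↔ v ∉ X := by
    intro X
    simp [mem_symmDiff]
  have e1 : (univ.filter (fun X : Finset (Fin n) => v ∈ X ∧ Odd (F1_t a b X v))).card =
      (univ.filter (fun X : Finset (Fin n) => v ∈ X ∧ ¬ Odd (F1_t a b X v))).card := by
    refine card_nbij' (fun X => symmDiff X {u₀}) (fun X => symmDiff X {u₀}) ?_ ?_ ?_ ?_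
    · intro X hX
      simp only [coe_filter, mem_univ, true_and, Set.mem_ofPred_eq] at hX ⊢
      exact ⟨(hv1 X).2 hX.1, fun h => (hflip X).1 h hX.2⟩
    · intro X hX
      simp only [coe_filter, mem_univ, true_and, Set.mem_ofPred_eq] at hX ⊢
      exact ⟨(hv1 X).2 hX.1, (hflip X).2 hX.2⟩
    · intro X _; exact hinv u₀ X
    · intro X _; exact hinv u₀ X
  have e2 : (univ.filter (fun X : Finset (Fin n) => v ∈ X)).card =
      (univ.filter (fun X : Finset (Fin n) => v ∉ X)).card := by
    refine card_nbij' (fun X => symmDiff X {v}) (fun X => symmDiff X {v}) ?_ ?_ ?_ ?_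
    · intro X hX
      simp only [coe_filter, mem_univ, true_and, Set.mem_ofPred_eq] at hX ⊢
      exact fun h => (hv2 X).1 h hX
    · intro X hX
      simp only [coe_filter, mem_univ, true_and, Set.mem_ofPred_eq] at hX ⊢
      exact (hv2 X).2 hX
    · intro X _; exact hinv v X
    · intro X _; exact hinv v X
  have e3 : (univ.filter (fun X : Finset (Fin n) => v ∈ X)).card +
      (univ.filter (fun X : Finset (Fin n) => v ∉ X)).card = 2 ^ n := by
    rw [card_filter_add_card_filter_not, card_univ, Fintype.card_finset, Fintype.card_fin]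
  have e4 : (univ.filter (fun X : Finset (Fin n) => v ∈ X ∧ Odd (F1_t a b X v))).card +
      (univ.filter (fun X : Finset (Fin n) => v ∈ X ∧ ¬ Odd (F1_t a b X v))).card =
      (univ.filter (fun X : Finset (Fin n) => v ∈ X)).card := by
    rw [← filter_filter, ← filter_filter, card_filter_add_card_filter_not]
  omega

theorem F1_quad (A : Fin n → Fin n → ℝ) (hA : IsAdj A) (x : Fin n → ℝ) :
    quad A x / 2 = ∑ v, ∑ u, (if u < v then A v u * x u * x v else 0) := by
  have h1 : quad A x = (∑ v, ∑ u, (if u < v then A v u * x u * x v else 0)) +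
      ∑ v, ∑ u, (if v < u then A v u * x u * x v else 0) := by
    unfold quad
    rw [← sum_add_distrib]
    refine sum_congr rfl fun v _ => ?_
    rw [← sum_add_distrib]
    refine sum_congr rfl fun u _ => ?_
    rcases lt_trichotomy u v with h | h | h
    · rw [if_pos h, if_neg (not_lt.2 h.le)]; ring
    · subst h; rw [hA.1 u]; simp
    · rw [if_pos h, if_neg (not_lt.2 h.le)]; ring
  have h2 : (∑ v, ∑ u, (if v < u then A v u * x u * x v else 0)) =
      ∑ v, ∑ u, (if u < v then A v u * x u * x v else 0) := by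
    rw [sum_comm]
    refine sum_congr rfl fun v _ => sum_congr rfl fun u _ => ?_
    split_ifs
    · rw [hA.2.1 u v]; ring
    · rfl
  rw [h1, h2]
  ring

open Classical in
/-- the vertices with an earlier neighbour -/
theorem F1_half (A : Fin n → Fin n → ℝ) (H : ℝ) (hA : IsAdj A) (hF : FI A H) :
    ((univ.filter (fun v : Fin n => ∃ u, u < v ∧ A v u = 1)).card : ℝ) ≤ 4 * H := by
  obtain ⟨a, ha⟩ : ∃ a : Fin n → Fin n → ℤ, ∀ i j, A i j = (a i j : ℝ) := by
    refine ⟨fun i j => if A i j = 1 then 1 else 0, fun i j => ?_⟩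
    change A i j = (((if A i j = 1 then 1 else 0 : ℤ)) : ℝ)
    rcases hA.2.2 i j with h | h
    · rw [if_neg (by rw [h]; norm_num : ¬ A i j = 1), h]; simp
    · rw [if_pos h, h]; simp
  obtain ⟨b, hb⟩ : ∃ b : Fin n → ℤ, ∀ v, bal A v = (b v : ℝ) := by
    refine ⟨fun v => ∑ u, (if v < u then a v u else 0) - ∑ u, (if u < v then a v u else 0),
      fun v => ?_⟩
    unfold bal
    push_cast
    simp only [ha]
  have hX : ∀ X : Finset (Fin n), ((univ.filter (fun v : Fin n => v ∈ X ∧
      Odd (F1_t a b X v))).card : ℝ) ≤ H := by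
    intro X
    obtain ⟨y, hy⟩ := F1_greedy a b X
    have hF' := hF (fun v => (y v : ℝ)) (fun v => by
      by_cases hv : v ∈ X
      · rcases ((hy v).1 hv).1 with h | h <;> rw [h] <;> simp
      · rw [(hy v).2 hv]; simp)
    refine le_trans ?_ hF'
    have h1 : ∑ v, bal A v * (y v : ℝ) - quad A (fun v => (y v : ℝ)) / 2 =
        ((∑ v, y v * F1_s a b y v : ℤ) : ℝ) := by
      rw [F1_quad A hA]
      push_cast
      rw [← sum_sub_distrib]
      refine sum_congr rfl fun v _ => ?_
      unfold F1_s
      push_cast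
      rw [hb v, mul_sub, mul_sum, mul_comm (b v : ℝ)]
      congr 1
      refine sum_congr rfl fun u _ => ?_
      split_ifs
      · rw [ha]; ring
      · ring
    rw [h1]
    have h2 : ((univ.filter (fun v : Fin n => v ∈ X ∧ Odd (F1_t a b X v))).card : ℤ) ≤
        ∑ v, y v * F1_s a b y v := by
      rw [card_filter]
      push_cast
      refine sum_le_sum fun v _ => ?_
      by_cases hv : v ∈ X
      · rw [((hy v).1 hv).2]
        split_ifs with h3
        · have h4 := (F1_parity a b X y (fun v hv => ((hy v).1 hv).1)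
            (fun v hv => (hy v).2 hv) v).2 h3.2
          have h5 : F1_s a b y v ≠ 0 := by
            intro h6
            rw [h6] at h4
            exact (by decide : ¬ Odd (0 : ℤ)) h4
          exact Int.one_le_abs h5
        · exact abs_nonneg _
      · rw [if_neg (fun h => hv h.1), (hy v).2 hv]
        simp
    exact_mod_cast h2
  -- average
  have hsum : ∑ X : Finset (Fin n), ((univ.filter (fun v : Fin n => v ∈ X ∧
      Odd (F1_t a b X v))).card : ℝ) ≤ 2 ^ n * H := by
    refine (sum_le_sum fun X _ => hX X).trans ?_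
    rw [sum_const, card_univ, Fintype.card_finset, Fintype.card_fin, nsmul_eq_mul]
    push_cast
    exact le_rfl
  have hswap : ∑ X : Finset (Fin n), ((univ.filter (fun v : Fin n => v ∈ X ∧
      Odd (F1_t a b X v))).card : ℝ) = ∑ v : Fin n,
        ((univ.filter (fun X : Finset (Fin n) => v ∈ X ∧ Odd (F1_t a b X v))).card : ℝ) := by
    simp only [card_filter]
    push_cast
    rw [sum_comm]
  rw [hswap] at hsum
  have hlow : ((univ.filter (fun v : Fin n => ∃ u, u < v ∧ A v u = 1)).card : ℝ) * (2 ^ n / 4) ≤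
      ∑ v : Fin n,
        ((univ.filter (fun X : Finset (Fin n) => v ∈ X ∧ Odd (F1_t a b X v))).card : ℝ) := by
    rw [card_filter]
    push_cast
    rw [sum_mul]
    refine sum_le_sum fun v _ => ?_
    split_ifs with h
    · obtain ⟨u, hu, hu'⟩ := h
      have h3 := F1_count a b v u hu (by rw [ha] at hu'; exact_mod_cast hu')
      have h4 : (4 : ℝ) * ((univ.filter (fun X : Finset (Fin n) => v ∈ X ∧
          Odd (F1_t a b X v))).card : ℝ) = 2 ^ n := by exact_mod_cast h3
      linarith
    · rw [zero_mul]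
      exact Nat.cast_nonneg _
  have hpos : (0 : ℝ) < 2 ^ n := by positivity
  have h5 := hlow.trans hsum
  by_contra hcon
  push Not at hcon
  nlinarith

end F1

open Classical in
theorem t_F1 : S_F1 := by
  intro n A H hA hex hF
  have h1 := F1_half A H hA hF
  -- the reversed graph
  have hA' : IsAdj (fun i j : Fin n => A (Fin.rev i) (Fin.rev j)) :=
    ⟨fun i => hA.1 _, fun i j => hA.2.1 _ _, fun i j => hA.2.2 _ _⟩
  have hbal : ∀ v : Fin n, bal (fun i j : Fin n => A (Fin.rev i) (Fin.rev j)) v =
      - bal A (Fin.rev v) := by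
    intro v
    unfold bal
    rw [neg_sub]
    congr 1
    · refine Fintype.sum_equiv Fin.revPerm _ _ fun u => ?_
      simp only [Fin.revPerm_apply, Fin.rev_lt_rev]
    · refine Fintype.sum_equiv Fin.revPerm _ _ fun u => ?_
      simp only [Fin.revPerm_apply, Fin.rev_lt_rev]
  have hF' : FI (fun i j : Fin n => A (Fin.rev i) (Fin.rev j)) H := by
    intro x hx
    have h2 := hF (fun i => - x (Fin.rev i)) (fun i => by rw [abs_neg]; exact hx _)
    refine le_trans (le_of_eq ?_) h2
    congr 1
    · refine Fintype.sum_equiv Fin.revPerm _ _ fun u => ?_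
      simp only [Fin.revPerm_apply, Fin.rev_rev, hbal]
      ring
    · congr 1
      unfold quad
      refine Fintype.sum_equiv Fin.revPerm _ _ fun u => ?_
      refine Fintype.sum_equiv Fin.revPerm _ _ fun w => ?_
      simp only [Fin.revPerm_apply, Fin.rev_rev]
      ring
  have h3 := F1_half _ H hA' hF'
  have h4 : (univ.filter (fun v : Fin n => ∃ u, u < v ∧ A (Fin.rev v) (Fin.rev u) = 1)).card =
      (univ.filter (fun v : Fin n => ∃ u, v < u ∧ A v u = 1)).card := by
    refine card_nbij' Fin.rev Fin.rev ?_ ?_ ?_ ?_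
    · intro v hv
      simp only [coe_filter, mem_univ, true_and, Set.mem_ofPred_eq] at hv ⊢
      obtain ⟨u, hu, hu'⟩ := hv
      exact ⟨Fin.rev u, Fin.rev_lt_rev.2 hu, hu'⟩
    · intro v hv
      simp only [coe_filter, mem_univ, true_and, Set.mem_ofPred_eq] at hv ⊢
      obtain ⟨u, hu, hu'⟩ := hv
      exact ⟨Fin.rev u, Fin.rev_lt_rev.2 hu, by rw [Fin.rev_rev, Fin.rev_rev]; exact hu'⟩
    · intro v _; exact Fin.rev_rev v
    · intro v _; exact Fin.rev_rev v
  rw [h4] at h3
  have h5 : (univ : Finset (Fin n)).card ≤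
      (univ.filter (fun v : Fin n => ∃ u, u < v ∧ A v u = 1)).card +
      (univ.filter (fun v : Fin n => ∃ u, v < u ∧ A v u = 1)).card := by
    refine (card_le_card ?_).trans (card_union_le _ _)
    intro v _
    rw [mem_union, mem_filter, mem_filter]
    obtain ⟨u, hu⟩ := hex v
    rcases lt_trichotomy u v with h | h | h
    · exact Or.inl ⟨mem_univ _, u, h, hu⟩
    · subst h
      rw [hA.1] at hu
      norm_num at hu
    · exact Or.inr ⟨mem_univ _, u, h, hu⟩
  rw [card_univ, Fintype.card_fin] at h5
  have h6 : (n : ℝ) ≤ ((univ.filter (fun v : Fin n => ∃ u, u < v ∧ A v u = 1)).card : ℝ) +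
      ((univ.filter (fun v : Fin n => ∃ u, v < u ∧ A v u = 1)).card : ℝ) := by
    exact_mod_cast h5
  linarith

end Pool.Agent.H427R2.SD
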