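import Pool.Agent.H427R2.SD.Defs
import Pool.Agent.Helper883.Dicut.HDefs

set_option autoImplicit false

/-! Statements of all lemmas. -/

namespace Pool.Agent.H427R2.SD

open Finset

/-- SPEC: spectral theorem. -/
def S_SPEC : Prop := ∀ (ι : Type) [Fintype ι] [DecidableEq ι] (M : ι → ι → ℝ), PSD M →
  ∃ (μ : ι → ℝ) (v : ι → ι → ℝ), Decomp M μ v

/-- SCHUR: Schur product theorem. -/
def S_SCHUR : Prop := ∀ (ι : Type) [Fintype ι] [DecidableEq ι] (M P : ι → ι → ℝ), PSD M → PSD P →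
  PSD (fun i j => M i j * P i j)

/-- TR: trace inequality. -/
def S_TR : Prop := ∀ (ι : Type) [Fintype ι] [DecidableEq ι] (M : ι → ι → ℝ) (μ : ι → ℝ) (v : ι → ι → ℝ),
  Decomp M μ v → ∀ (η c : ℝ), 0 < η → 0 ≤ c → ∀ (r : ℕ) (w : Fin r → ι → ℝ),
  PSD (fun i j => shift M c i j - sq w i j) → ∑ i, sq w i i ≤ F μ η + (η + c) * r

/-- GL: growth lemma. -/
def S_GL : Prop := ∀ (ι : Type) [Fintype ι] [DecidableEq ι] (A : ι → ι → ℝ) (lam : ℝ), IsAdj A → 1 ≤ lam →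
  PSD (shift A lam) → ∀ (K : ℕ) (u : Fin K → ι → ℝ), PSD (fun i j => shift A lam i j - sq u i j) →
  ∀ (τ x : ℝ) (j : ℕ), 1 < τ → (∀ i, τ ≤ sq u i i) → x * (τ - 1) = 4 * K → 1 ≤ x →
  lam ^ 2 * x ^ (j + 1) ≤ (Fintype.card ι : ℝ) → ((τ + 1) / 2) ^ j ≤ lam

/-- LARGE. -/
def S_LARGE : Prop := ∀ (ι : Type) [Fintype ι] [DecidableEq ι] (A : ι → ι → ℝ) (lam : ℝ), IsAdj A → 1 ≤ lam →
  ∀ (μ : ι → ℝ) (v : ι → ι → ℝ), Decomp (shift A lam) μ v → ∀ (η f : ℝ), 0 < η →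
  f * (Fintype.card ι : ℝ) = F μ η → 32 ≤ f → cnt μ η ≤ f ^ 9 → (Fintype.card ι : ℝ) < lam ^ 57

/-- PEAK: low rank approximation. -/
def S_PEAK : Prop := ∀ (ι : Type) [Fintype ι] [DecidableEq ι] (A : ι → ι → ℝ) (lam : ℝ), IsAdj A → 1 ≤ lam →
  PSD (shift A lam) → ∀ (p w : ℝ), 0 < p → p ≤ 1 → 32 ≤ w → 1 ≤ p * w →
  p * (Fintype.card ι : ℝ) ^ 2 ≤ ∑ i, ∑ j, A i j → lam ^ 57 ≤ (Fintype.card ι : ℝ) →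
  ∃ (K : ℕ) (u : Fin K → ι → ℝ), PSD (fun i j => shift A lam i j - sq u i j) ∧ (K : ℝ) ≤ w ^ 5 ∧
    ∑ i, ∑ j, (shift A lam i j - sq u i j) ^ 2 ≤ 2 * (Fintype.card ι : ℝ) ^ 2 / w

/-- EXT: extremal subset. -/
def S_EXT : Prop := ∀ (ι : Type) [Fintype ι] [DecidableEq ι] (A : ι → ι → ℝ), IsAdj A →
  ∀ (V : Finset ι) (p : ℝ), V.Nonempty → 0 < p → p * (V.card : ℝ) ^ 2 ≤ e2 A V →
  ∃ S ⊆ V, S.Nonempty ∧ (∀ X ⊆ V, X.Nonempty → e2 A X ^ 100 * (S.card : ℝ) ^ 199 ≤ e2 A S ^ 100 * (X.card : ℝ) ^ 199) ∧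
    p * (S.card : ℝ) ^ 2 ≤ e2 A S ∧ p ^ 100 * (V.card : ℝ) ≤ (S.card : ℝ)

/-- MD: minimum degree of an extremal set. -/
def S_MD : Prop := ∀ (ι : Type) [Fintype ι] [DecidableEq ι] (A : ι → ι → ℝ), IsAdj A →
  ∀ (S : Finset ι), 100 ≤ S.card → 0 < e2 A S →
  (∀ X ⊆ S, X.Nonempty → e2 A X ^ 100 * (S.card : ℝ) ^ 199 ≤ e2 A S ^ 100 * (X.card : ℝ) ^ 199) →
  ∀ v ∈ S, 0.95 * e2 A S ≤ (S.card : ℝ) * deg A S v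

/-- the lower bound for the diagonal -/
noncomputable def tau (p : ℝ) : ℝ := if 1 / 5 ≤ p then 1.03 else 1 / Real.sqrt p

/-- PT: pointwise bound for the diagonal of a low rank approximation. Here `ι` itself is the extremal set. -/
def S_PT : Prop := ∀ (ι : Type) [Fintype ι] [DecidableEq ι] (A : ι → ι → ℝ) (lam : ℝ), IsAdj A → 1 ≤ lam →
  PSD (shift A lam) → ∀ (p : ℝ), 0 < p → p < 0.95 → e2 A univ = p * (Fintype.card ι : ℝ) ^ 2 →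
  (∀ X : Finset ι, X.Nonempty → e2 A X ^ 100 * (Fintype.card ι : ℝ) ^ 199 ≤ e2 A univ ^ 100 * (X.card : ℝ) ^ 199) →
  (∀ v, 0.95 * e2 A univ ≤ (Fintype.card ι : ℝ) * deg A univ v) →
  2000 * lam ≤ p ^ 2 * (Fintype.card ι : ℝ) →
  ∀ (K : ℕ) (u : Fin K → ι → ℝ), PSD (fun i j => shift A lam i j - sq u i j) →
  ∑ i, ∑ j, (shift A lam i j - sq u i j) ^ 2 ≤ 1 / 10 ^ 5 * p * (Fintype.card ι : ℝ) ^ 2 →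
  (Fintype.card ι : ℝ) / 2 ≤ ((univ.filter (fun i => tau p ≤ sq u i i)).card : ℝ)

/-- NUM: numerical lemma. -/
def S_NUM : Prop := ∀ (p x : ℝ) (K : ℕ), 0 < p → p < 0.95 → (2 * 10 ^ 5 / p) ^ 5 ≤ (K : ℝ) →
  (K : ℝ) ≤ (2 * 10 ^ 5 / p) ^ 5 + 1 → x * (tau p - 1) = 4 * K →
  1.03 ≤ tau p ∧ 1 ≤ x ∧ x ≤ ((tau p + 1) / 2) ^ 5100

/-- ST: dense spot with large minimum degree. -/
def S_ST : Prop := ∀ (ι : Type) [Fintype ι] [DecidableEq ι] (A : ι → ι → ℝ) (lam : ℝ), IsAdj A → 2 ≤ lam →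
  ∀ (V : Finset ι), MinEig A V lam → ∀ (p : ℝ), 0 < p → p ≤ 1 → p * (V.card : ℝ) ^ 2 ≤ e2 A V →
  2000 * lam ^ 15302 ≤ p ^ 102 * (V.card : ℝ) →
  ∃ S ⊆ V, p ^ 100 * (V.card : ℝ) ≤ (S.card : ℝ) ∧ ∀ v ∈ S, 0.9 * (S.card : ℝ) ≤ deg A S v

/-- L1: near-complete sets miss few pairs. -/
def S_L1 : Prop := ∀ (ι : Type) [Fintype ι] [DecidableEq ι] (A : ι → ι → ℝ) (lam : ℝ), IsAdj A → 2 ≤ lam →
  ∀ (Q : Finset ι), MinEig A Q lam → 200 * lam ≤ (Q.card : ℝ) → (∀ v ∈ Q, 0.9 * (Q.card : ℝ) ≤ deg A Q v) →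
  ∑ v ∈ Q, miss A Q v ≤ 3 * lam ^ 3 * (Q.card : ℝ)

/-- L2: few or almost all neighbours in a near-clique. -/
def S_L2 : Prop := ∀ (ι : Type) [Fintype ι] [DecidableEq ι] (A : ι → ι → ℝ) (lam L : ℝ), IsAdj A → 1 ≤ lam → 0 ≤ L →
  ∀ (C : Finset ι) (x : ι), x ∉ C → MinEig A (insert x C) lam → (∀ v ∈ C, miss A C v ≤ L) →
  8 * lam * L ≤ (C.card : ℝ) → deg A C x ≤ 4 * lam ^ 2 ∨ (C.card : ℝ) - deg A C x ≤ 4 * lam ^ 2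

/-- L3: closure of a near-clique. -/
def S_L3 : Prop := ∀ (ι : Type) [Fintype ι] [DecidableEq ι] (A : ι → ι → ℝ) (lam L : ℝ), IsAdj A → 1 ≤ lam → 0 ≤ L →
  ∀ (V G C : Finset ι), MinEig A V lam → G ⊆ V → C ⊆ V → (∀ x ∈ C, (G.card : ℝ) - deg A G x ≤ L) →
  8 * lam * (2 * L + lam) + 2 * lam ^ 2 + 2 ≤ (G.card : ℝ) → ∀ x ∈ C, miss A C x ≤ 2 * lam ^ 2

/-- L4: combination of L1, L2, L3. -/
def S_L4 : Prop := ∀ (ι : Type) [Fintype ι] [DecidableEq ι] (A : ι → ι → ℝ) (lam : ℝ), IsAdj A → 2 ≤ lam →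
  ∀ (V Q : Finset ι), MinEig A V lam → Q ⊆ V → (∀ v ∈ Q, 0.9 * (Q.card : ℝ) ≤ deg A Q v) →
  600 * lam ^ 4 ≤ (Q.card : ℝ) →
  ∃ G C : Finset ι, G ⊆ Q ∧ G ⊆ C ∧ C ⊆ V ∧ 0.9 * (Q.card : ℝ) ≤ (G.card : ℝ) ∧
    (∀ x ∈ C, miss A C x ≤ 2 * lam ^ 2) ∧ (∀ x ∈ V \ C, deg A C x ≤ 4 * lam ^ 2) ∧
    (∀ x ∈ C, (G.card : ℝ) / 2 ≤ deg A G x)

/-- ROUND: rounding a vector solution. -/
def S_ROUND : Prop := ∃ C0 : ℝ, 0 < C0 ∧ ∀ (ι : Type) [Fintype ι] [DecidableEq ι] (A : ι → ι → ℝ), IsAdj A →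
  ∀ (J : Finset ι) (s : ℝ), 0 ≤ s →
  (∀ x : ι → ℝ, (∀ i, |x i| ≤ 1) → (∀ i, i ∉ J → x i = 0) → -quad A x ≤ s) →
  ∀ (r : ℕ) (z : Fin r → ι → ℝ), (∀ a i, i ∉ J → z a i = 0) → (∀ i, ∑ a, z a i ^ 2 ≤ 1) →
  -(∑ a, quad A (z a)) ≤ C0 * (s + 1) * (1 + Real.log ((Fintype.card ι : ℝ) + 1))

/-- CLEAN: removing few vertices makes the least eigenvalue small in absolute value. -/
def S_CLEAN : Prop := ∀ (ι : Type) [Fintype ι] [DecidableEq ι] (A : ι → ι → ℝ), IsAdj A →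
  ∀ (J : Finset ι) (κ ρ : ℝ), 0 < κ → 0 < ρ →
  (∀ (r : ℕ) (z : Fin r → ι → ℝ), (∀ a i, i ∉ J → z a i = 0) → (∀ i, ∑ a, z a i ^ 2 ≤ 1) →
    -(∑ a, quad A (z a)) ≤ κ) →
  ∃ U ⊆ J, (U.card : ℝ) ≤ ρ ∧ MinEig A (J \ U) (κ / ρ)

/-- F1: number of vertices. -/
def S_F1 : Prop := ∀ (n : ℕ) (A : Fin n → Fin n → ℝ) (H : ℝ), IsAdj A → (∀ v, ∃ u, A v u = 1) → FI A H → (n : ℝ) ≤ 8 * H

/-- F2: total length of the arcs. -/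
def S_F2 : Prop := ∀ (n : ℕ) (A : Fin n → Fin n → ℝ) (H : ℝ), IsAdj A → FI A H → 0 ≤ H →
  ∑ i, ∑ j, A i j * |((i.val : ℝ) - (j.val : ℝ))| ≤ 2 * n * Real.sqrt (H * arcs A)

/-- F3: balances. -/
def S_F3 : Prop := ∀ (n : ℕ) (A : Fin n → Fin n → ℝ) (H : ℝ), IsAdj A → (∀ v, ∃ u, A v u = 1) → FI A H →
  ∑ v, bal A v ^ 2 / dg A v ≤ 2 * H

/-- F4: superadditivity of the surplus. -/
def S_F4 : Prop := ∀ (n : ℕ) (A : Fin n → Fin n → ℝ) (H : ℝ), IsAdj A → FI A H →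
  ∀ (T : Finset ℕ) (J : ℕ → Finset (Fin n)) (x : ℕ → Fin n → ℝ),
  (∀ k ∈ T, ∀ l ∈ T, k ≠ l → Disjoint (J k) (J l)) → (∀ k i, |x k i| ≤ 1) → (∀ k i, i ∉ J k → x k i = 0) →
  ∑ k ∈ T, -quad A (x k) ≤ 2 * H

/-- WIN: a good window. -/
def S_WIN : Prop := ∀ (n : ℕ) (A : Fin n → Fin n → ℝ) (H : ℝ), IsAdj A → (∀ v, ∃ u, A v u = 1) → FI A H → 0 < H →
  ∀ (ℓ a c : ℕ) (q r D s : ℝ), 1 ≤ ℓ → 1 ≤ a → 1 ≤ c → 0 < q → 0 < r → 0 < D → 0 < s → 0 < arcs A →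
  ∑ i, ∑ j, A i j * |((i.val : ℝ) - (j.val : ℝ))| ≤ ℓ * arcs A →
  2 * 10 ^ 4 * H * D / q ^ 2 ≤ q / 200 →
  4 * (ℓ : ℝ) ^ 2 * (200 * arcs A / (a * q * r) + 10 ^ 4 * (2 * a + 3) * arcs A / (c * q ^ 2) +
    400 * (2 * a + 3) * arcs A / (D * q) + 2 * H * (2 * a + 2 * c + 4) / s) ≤ arcs A / 2 →
  ∃ k : ℕ, arcs A / (2 * ((n : ℝ) / ℓ + 1)) ≤ e2 A (win n ℓ k 0) ∧
    (((win n ℓ k 0).filter (fun v => q / 100 < long A (a * ℓ) v)).card : ℝ) ≤ r ∧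
    (((win n ℓ k a).filter (fun v => q / 100 < long A (c * ℓ) v)).card : ℝ) ≤ q / 100 ∧
    (((win n ℓ k a).filter (fun v => q / 100 < |bal A v|)).card : ℝ) ≤ q / 100 ∧
    (∀ x : Fin n → ℝ, (∀ i, |x i| ≤ 1) → (∀ i, i ∉ win n ℓ k (a + c) → x i = 0) → -quad A x ≤ s)

/-- LOC: the local contradiction. -/
def S_LOC : Prop := ∀ (n : ℕ) (A : Fin n → Fin n → ℝ) (lam q : ℝ), IsAdj A → 2 ≤ lam → 6000 * lam ^ 4 ≤ q →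
  ∀ (J1 J2 U Q : Finset (Fin n)), J1 ⊆ J2 → U ⊆ J2 → Q ⊆ J1 \ U → MinEig A (J2 \ U) lam →
  q ≤ (Q.card : ℝ) → (∀ v ∈ Q, 0.9 * (Q.card : ℝ) ≤ deg A Q v) → (U.card : ℝ) ≤ q / 100 →
  (∀ v ∈ Q, deg A J1ᶜ v ≤ q / 100) →
  ((J1.filter (fun v => q / 100 < deg A J2ᶜ v)).card : ℝ) ≤ q / 100 →
  ((J1.filter (fun v => q / 100 < |bal A v|)).card : ℝ) ≤ q / 100 →
  q ^ 2 ≤ 100 * lam ^ 2 * (J2.card : ℝ)

/-- ASM: assembly for one graph, all parameters explicit. -/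
def S_ASM : Prop := ∃ C0 : ℝ, 0 < C0 ∧ ∀ (n : ℕ) (A : Fin n → Fin n → ℝ) (H B Λ : ℝ), IsAdj A →
  (∀ v, ∃ u, A v u = 1) → FI A H → 0 < H → 1 ≤ B → arcs A = B ^ 5 → H ≤ B ^ 3 * Λ ^ 2 →
  10 ^ 6 ≤ Λ → C0 ≤ Λ → 1 + Real.log ((n : ℝ) + 1) ≤ Λ → Λ ^ 62100000 ≤ B ^ 2 → False

/-- MAIN: the lower bound for ordered graphs. -/
def S_MAIN : Prop := ∃ c : ℝ, 0 < c ∧ ∀ (n : ℕ) (A : Fin n → Fin n → ℝ) (H : ℝ), IsAdj A →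
  (∀ v, ∃ u, A v u = 1) → FI A H → 1 ≤ arcs A → c * arcs A ^ ((3 : ℝ) / 5 + 1 / 10 ^ 8) ≤ H

open Pool.Agent.Helper883.Dicut in
/-- RED: from acyclic simple digraphs to ordered graphs. -/
def S_RED : Prop := ∀ (n : ℕ) (w : WDigraph n), ClassS n w →
  ∃ (n' : ℕ) (A : Fin n' → Fin n' → ℝ), IsAdj A ∧ (∀ v, ∃ u, A v u = 1) ∧ arcs A = totalWeight w ∧
    FI A (4 * mac w - totalWeight w)

open Pool.Agent.Helper883.Dicut in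
/-- FIN. -/
def S_FIN : Prop :=
  (3 / 5 + 1 / 10 ^ 8 ≤ alpha0 ClassS) ∧
  ∃ c : ℝ, 0 < c ∧ ∀ m : ℕ, 1 ≤ m → (m : ℝ) / 4 + c * (m : ℝ) ^ ((3 : ℝ) / 5 + 1 / 10 ^ 8) ≤ hSimple m

end Pool.Agent.H427R2.SD
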