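import Mathlib
import Pool.Agent.H427R2.SD.St

set_option autoImplicit false

namespace Pool.Agent.H427R2.SD

open Finset

/-- arcs crossing the cut at `t` -/
noncomputable def F2_X {n : ℕ} (A : Fin n → Fin n → ℝ) (t : ℕ) : ℝ :=
  ∑ i : Fin n, ∑ j : Fin n, if i.val < t ∧ t ≤ j.val then A i j else 0

theorem F2_cnt (n i j : ℕ) (hj : j < n) :
    ∑ t ∈ range n, (if i < t ∧ t ≤ j then (1 : ℝ) else 0) = ((j - i : ℕ) : ℝ) := by
  have h1 : (range n).filter (fun t => i < t ∧ t ≤ j) = Ioc i j := by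
    ext t
    simp only [mem_filter, mem_range, mem_Ioc]
    omega
  rw [← Finset.sum_filter, h1]
  simp

theorem F2_abs (i j : ℕ) : |((i : ℝ) - (j : ℝ))| = ((j - i : ℕ) : ℝ) + ((i - j : ℕ) : ℝ) := by
  rcases le_total i j with h | h
  · have h1 : i - j = 0 := by omega
    have h2 : (i : ℝ) ≤ j := by exact_mod_cast h
    rw [h1, Nat.cast_sub h, abs_of_nonpos (by linarith)]
    push_cast
    ring
  · have h1 : j - i = 0 := by omega
    have h2 : (j : ℝ) ≤ i := by exact_mod_cast h
    rw [h1, Nat.cast_sub h, abs_of_nonneg (by linarith)]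
    push_cast
    ring

theorem F2_bal {n : ℕ} (A : Fin n → Fin n → ℝ) (hA : ∀ i j, A i j = A j i) (x : Fin n → ℝ) :
    ∑ v, bal A v * x v = ∑ v : Fin n, ∑ u : Fin n, if v < u then A v u * (x v - x u) else 0 := by
  unfold bal
  have h1 : ∑ v : Fin n, ∑ u : Fin n, (if u < v then A v u * x v else 0) =
      ∑ v : Fin n, ∑ u : Fin n, (if v < u then A v u * x u else 0) := by
    rw [Finset.sum_comm]
    refine Finset.sum_congr rfl fun v _ => Finset.sum_congr rfl fun u _ => ?_
    rw [hA u v]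
  have h2 : ∀ v : Fin n, (∑ u, (if v < u then A v u else 0) - ∑ u, (if u < v then A v u else 0)) * x v =
      ∑ u, (if v < u then A v u * x v else 0) - ∑ u, (if u < v then A v u * x v else 0) := by
    intro v
    rw [sub_mul, Finset.sum_mul, Finset.sum_mul]
    congr 1
    · exact Finset.sum_congr rfl fun u _ => by split_ifs <;> simp
    · exact Finset.sum_congr rfl fun u _ => by split_ifs <;> simp
  rw [Finset.sum_congr rfl fun v _ => h2 v, Finset.sum_sub_distrib, h1, ← Finset.sum_sub_distrib]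
  refine Finset.sum_congr rfl fun v _ => ?_
  rw [← Finset.sum_sub_distrib]
  refine Finset.sum_congr rfl fun u _ => ?_
  split_ifs <;> ring

theorem F2_symm {n : ℕ} (A : Fin n → Fin n → ℝ) (hA : ∀ i j, A i j = A j i) (t : ℕ) :
    (∑ i : Fin n, ∑ j : Fin n, if j.val < t ∧ t ≤ i.val then A i j else 0) = F2_X A t := by
  unfold F2_X
  rw [Finset.sum_comm]
  exact Finset.sum_congr rfl fun i _ => Finset.sum_congr rfl fun j _ => by rw [hA j i]

theorem F2_bound {n : ℕ} (A : Fin n → Fin n → ℝ) (H : ℝ) (hA : IsAdj A) (hF : FI A H) (hH : 0 ≤ H)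
    (t : ℕ) : F2_X A t ≤ Real.sqrt (H * arcs A) := by
  obtain ⟨-, hAs, hA1⟩ := hA
  have hge0 : ∀ i j, 0 ≤ A i j := fun i j => by rcases hA1 i j with h | h <;> rw [h] <;> norm_num
  have hX0 : 0 ≤ F2_X A t := by
    unfold F2_X
    refine Finset.sum_nonneg fun i _ => Finset.sum_nonneg fun j _ => ?_
    split_ifs
    · exact hge0 i j
    · exact le_refl _
  have hXm : F2_X A t ≤ arcs A := by
    have h1 : F2_X A t + F2_X A t ≤ ∑ i, ∑ j, A i j := by
      conv_lhs => rw [← F2_symm A hAs t]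
      rw [F2_symm A hAs t]
      nth_rewrite 2 [← F2_symm A hAs t]
      unfold F2_X
      rw [← Finset.sum_add_distrib]
      refine Finset.sum_le_sum fun i _ => ?_
      rw [← Finset.sum_add_distrib]
      refine Finset.sum_le_sum fun j _ => ?_
      have := hge0 i j
      split_ifs with h2 h3 h3
      · omega
      · linarith
      · linarith
      · linarith
    unfold arcs
    linarith
  obtain ⟨X, hX⟩ : ∃ X, X = F2_X A t := ⟨_, rfl⟩
  obtain ⟨m, hm⟩ : ∃ m, m = arcs A := ⟨_, rfl⟩
  rw [← hX, ← hm] at hXm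
  rw [← hX] at hX0
  rw [← hX, ← hm]
  refine Real.le_sqrt_of_sq_le ?_
  rcases eq_or_lt_of_le (hX0.trans hXm) with h0 | h0
  · have hXz : X = 0 := le_antisymm (by rw [h0]; exact hXm) hX0
    rw [hXz, ← h0]
    simp
  obtain ⟨θ, hθ⟩ : ∃ θ, θ = X / m := ⟨_, rfl⟩
  have hθ0 : 0 ≤ θ := by rw [hθ]; positivity
  have hθ1 : θ ≤ 1 := by rw [hθ, div_le_one h0]; exact hXm
  have hθm : θ * m = X := by rw [hθ]; field_simp
  obtain ⟨x, hx⟩ : ∃ x : Fin n → ℝ, x = fun i => if i.val < t then θ else -θ := ⟨_, rfl⟩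
  have hx1 : ∀ i, |x i| ≤ 1 := by
    intro i
    rw [hx]
    show |if i.val < t then θ else -θ| ≤ 1
    split_ifs
    · rw [abs_of_nonneg hθ0]; exact hθ1
    · rw [abs_neg, abs_of_nonneg hθ0]; exact hθ1
  have h1 := hF x hx1
  have h2 : ∑ v, bal A v * x v = 2 * θ * X := by
    rw [F2_bal A hAs, hX]
    unfold F2_X
    rw [Finset.mul_sum]
    refine Finset.sum_congr rfl fun v _ => ?_
    rw [Finset.mul_sum]
    refine Finset.sum_congr rfl fun u _ => ?_
    rw [hx]
    show (if v < u then A v u * ((if v.val < t then θ else -θ) - (if u.val < t then θ else -θ)) else 0) = _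
    by_cases hvu : v.val < u.val
    · have hvu' : v < u := hvu
      rw [if_pos hvu']
      by_cases h3 : v.val < t
      · by_cases h4 : u.val < t
        · rw [if_pos h3, if_pos h4, if_neg (by omega)]; ring
        · rw [if_pos h3, if_neg h4, if_pos ⟨h3, by omega⟩]; ring
      · have h4 : ¬ u.val < t := by omega
        rw [if_neg h3, if_neg h4, if_neg (by omega)]; ring
    · have hvu' : ¬ v < u := hvu
      rw [if_neg hvu', if_neg (by omega), mul_zero]
  have h3 : quad A x ≤ 2 * (θ ^ 2 * m) := by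
    have e1 : 2 * (θ ^ 2 * m) = ∑ i, ∑ j, A i j * θ ^ 2 := by
      rw [hm]
      unfold arcs
      simp only [← Finset.sum_mul]
      ring
    rw [e1]
    unfold quad
    refine Finset.sum_le_sum fun i _ => Finset.sum_le_sum fun j _ => ?_
    rw [mul_assoc]
    refine mul_le_mul_of_nonneg_left ?_ (hge0 i j)
    rw [hx]
    show (if i.val < t then θ else -θ) * (if j.val < t then θ else -θ) ≤ θ ^ 2
    have := sq_nonneg θ
    split_ifs
    · exact le_of_eq (by ring)
    · nlinarith
    · nlinarith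
    · exact le_of_eq (by ring)
  rw [h2] at h1
  have h4 : 2 * θ * X - θ ^ 2 * m ≤ H := by linarith
  have h5 : θ ^ 2 * m = θ * X := by rw [← hθm]; ring
  have h6 : θ * X ≤ H := by linarith
  calc X ^ 2 = θ * X * m := by
        calc X ^ 2 = X * X := by ring
          _ = (θ * m) * X := by rw [hθm]
          _ = _ := by ring
    _ ≤ H * m := mul_le_mul_of_nonneg_right h6 h0.le

theorem t_F2 : S_F2 := by
  intro n A H hA hF hH
  have hb := F2_bound A H hA hF hH
  obtain ⟨-, hAs, -⟩ := hA
  have h1 : ∑ i : Fin n, ∑ j : Fin n, A i j * |((i.val : ℝ) - (j.val : ℝ))| =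
      ∑ t ∈ range n, (F2_X A t + F2_X A t) := by
    have e1 : ∀ i j : Fin n, A i j * |((i.val : ℝ) - (j.val : ℝ))| =
        ∑ t ∈ range n, ((if i.val < t ∧ t ≤ j.val then A i j else 0) +
          (if j.val < t ∧ t ≤ i.val then A i j else 0)) := by
      intro i j
      rw [F2_abs, ← F2_cnt n i.val j.val j.2, ← F2_cnt n j.val i.val i.2, mul_add, Finset.mul_sum,
        Finset.mul_sum, ← Finset.sum_add_distrib]
      refine Finset.sum_congr rfl fun t _ => ?_
      congr 1 <;> split_ifs <;> simp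
    simp only [e1]
    rw [Finset.sum_congr rfl fun i _ => Finset.sum_comm, Finset.sum_comm]
    refine Finset.sum_congr rfl fun t _ => ?_
    nth_rewrite 2 [← F2_symm A hAs t]
    unfold F2_X
    rw [← Finset.sum_add_distrib]
    refine Finset.sum_congr rfl fun i _ => ?_
    rw [← Finset.sum_add_distrib]
  rw [h1]
  calc ∑ t ∈ range n, (F2_X A t + F2_X A t) ≤
      ∑ _t ∈ range n, (Real.sqrt (H * arcs A) + Real.sqrt (H * arcs A)) :=
        Finset.sum_le_sum fun t _ => add_le_add (hb t) (hb t)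
    _ = 2 * n * Real.sqrt (H * arcs A) := by
        rw [Finset.sum_const, card_range, nsmul_eq_mul]
        ring

end Pool.Agent.H427R2.SD
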