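import Pool.Agent.H427R2.SD.St

set_option autoImplicit false

namespace Pool.Agent.H427R2.SD

open Finset

theorem t_F3 : S_F3 := by
  intro n A H hA hdeg hFI
  obtain ⟨h0, hsym, h01⟩ := hA
  have hAnn : ∀ i j, 0 ≤ A i j := by
    intro i j
    rcases h01 i j with h | h <;> rw [h] <;> norm_num
  have hdg : ∀ v, 0 < dg A v := by
    intro v
    obtain ⟨u, hu⟩ := hdeg v
    unfold dg
    have h1 : A v u ≤ ∑ u, A v u := Finset.single_le_sum (fun i _ => hAnn v i) (Finset.mem_univ u)
    rw [hu] at h1
    linarith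
  have hbal : ∀ v, |bal A v| ≤ dg A v := by
    intro v
    unfold bal dg
    rw [abs_le]
    have h1 : ∑ u, (if v < u then A v u else 0) ≤ ∑ u, A v u :=
      Finset.sum_le_sum (fun u _ => by split_ifs; exact le_rfl; exact hAnn v u)
    have h2 : ∑ u, (if u < v then A v u else 0) ≤ ∑ u, A v u :=
      Finset.sum_le_sum (fun u _ => by split_ifs; exact le_rfl; exact hAnn v u)
    have h3 : 0 ≤ ∑ u, (if v < u then A v u else 0) :=
      Finset.sum_nonneg (fun u _ => by split_ifs; exact hAnn v u; exact le_rfl)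
    have h4 : 0 ≤ ∑ u, (if u < v then A v u else 0) :=
      Finset.sum_nonneg (fun u _ => by split_ifs; exact hAnn v u; exact le_rfl)
    constructor <;> linarith
  have hF := hFI (fun v => bal A v / dg A v) (fun v => by
    rw [abs_div, abs_of_pos (hdg v)]
    exact (div_le_one (hdg v)).2 (hbal v))
  have h1 : ∑ v, bal A v * (bal A v / dg A v) = ∑ v, bal A v ^ 2 / dg A v :=
    Finset.sum_congr rfl (fun v _ => by ring)
  have h2 : quad A (fun v => bal A v / dg A v) ≤ ∑ v, bal A v ^ 2 / dg A v := by
    have h3 : quad A (fun v => bal A v / dg A v) ≤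
        ∑ i, ∑ j, (A i j * ((bal A i / dg A i) ^ 2) / 2 + A i j * ((bal A j / dg A j) ^ 2) / 2) := by
      unfold quad
      refine Finset.sum_le_sum (fun i _ => Finset.sum_le_sum (fun j _ => ?_))
      have h4 := mul_le_mul_of_nonneg_left
        (two_mul_le_add_sq (bal A i / dg A i) (bal A j / dg A j)) (hAnn i j)
      nlinarith
    have h5 : ∑ i, ∑ j, (A i j * ((bal A i / dg A i) ^ 2) / 2 +
        A i j * ((bal A j / dg A j) ^ 2) / 2) = ∑ i, dg A i * (bal A i / dg A i) ^ 2 := by
      simp only [Finset.sum_add_distrib]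
      have h6 : ∑ i, ∑ j, A i j * ((bal A j / dg A j) ^ 2) / 2 =
          ∑ i, ∑ j, A i j * ((bal A i / dg A i) ^ 2) / 2 := by
        rw [Finset.sum_comm]
        refine Finset.sum_congr rfl (fun i _ => Finset.sum_congr rfl (fun j _ => ?_))
        rw [hsym j i]
      rw [h6, ← Finset.sum_add_distrib]
      refine Finset.sum_congr rfl (fun i _ => ?_)
      rw [← Finset.sum_add_distrib]
      unfold dg
      rw [Finset.sum_mul]
      refine Finset.sum_congr rfl (fun j _ => ?_)
      ring
    rw [h5] at h3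
    refine h3.trans (le_of_eq ?_)
    refine Finset.sum_congr rfl (fun i _ => ?_)
    have := (hdg i).ne'
    field_simp
  have h3 : ∑ v, bal A v * (fun v => bal A v / dg A v) v = ∑ v, bal A v ^ 2 / dg A v := h1
  rw [h3] at hF
  linarith

end Pool.Agent.H427R2.SD
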