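import Pool.Agent.H427R2.SD.St

set_option autoImplicit false

namespace Pool.Agent.H427R2.SD

open Finset

theorem F4_expand {ι : Type} [Fintype ι] (A : ι → ι → ℝ) (y x : ι → ℝ) (ε : ℝ) :
    quad A (fun i => y i + ε * x i) =
      quad A y + ε * (∑ i, ∑ j, (A i j * y i * x j + A i j * x i * y j)) + ε ^ 2 * quad A x := by
  unfold quad
  rw [Finset.mul_sum, Finset.mul_sum, ← Finset.sum_add_distrib, ← Finset.sum_add_distrib]
  refine Finset.sum_congr rfl (fun i _ => ?_)
  rw [Finset.mul_sum, Finset.mul_sum, ← Finset.sum_add_distrib, ← Finset.sum_add_distrib]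
  refine Finset.sum_congr rfl (fun j _ => ?_)
  ring

theorem F4_neg {n : ℕ} {A : Fin n → Fin n → ℝ} {H : ℝ} (h : FI A H) (x : Fin n → ℝ)
    (hx : ∀ i, |x i| ≤ 1) : -quad A x ≤ 2 * H := by
  have h1 := h x hx
  have h2 := h (fun i => -x i) (fun i => by rw [abs_neg]; exact hx i)
  have e1 : quad A (fun i => -x i) = quad A x := by
    unfold quad
    refine Finset.sum_congr rfl (fun i _ => Finset.sum_congr rfl (fun j _ => ?_))
    ring
  have e2 : ∑ v, bal A v * (fun i => -x i) v = -∑ v, bal A v * x v := by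
    rw [← Finset.sum_neg_distrib]
    refine Finset.sum_congr rfl (fun i _ => ?_)
    ring
  rw [e1, e2] at h2
  linarith

theorem F4_signs {n : ℕ} (A : Fin n → Fin n → ℝ) (J : ℕ → Finset (Fin n)) (x : ℕ → Fin n → ℝ)
    (hx : ∀ k i, |x k i| ≤ 1) (hs : ∀ k i, i ∉ J k → x k i = 0) (T : Finset ℕ) :
    (∀ k ∈ T, ∀ l ∈ T, k ≠ l → Disjoint (J k) (J l)) →
    ∃ y : Fin n → ℝ, (∀ i, |y i| ≤ 1) ∧ (∀ i, (∀ k ∈ T, i ∉ J k) → y i = 0) ∧
      quad A y ≤ ∑ k ∈ T, quad A (x k) := by
  induction T using Finset.induction_on with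
  | empty =>
    intro _
    refine ⟨fun _ => 0, by simp, by simp, ?_⟩
    simp [quad]
  | insert k T hk ih =>
    intro hd
    obtain ⟨y, hy1, hy2, hy3⟩ := ih (fun a ha b hb hab =>
      hd a (Finset.mem_insert_of_mem ha) b (Finset.mem_insert_of_mem hb) hab)
    have key : ∀ ε : ℝ, |ε| = 1 → ε * (∑ i, ∑ j, (A i j * y i * x k j + A i j * x k i * y j)) ≤ 0 →
        ∃ y : Fin n → ℝ, (∀ i, |y i| ≤ 1) ∧ (∀ i, (∀ k' ∈ insert k T, i ∉ J k') → y i = 0) ∧
          quad A y ≤ ∑ k' ∈ insert k T, quad A (x k') := by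
      intro ε he hc
      refine ⟨fun i => y i + ε * x k i, ?_, ?_, ?_⟩
      · intro i
        show |y i + ε * x k i| ≤ 1
        by_cases hi : i ∈ J k
        · have h0 : y i = 0 := by
            apply hy2
            intro l hl hil
            have hkl : k ≠ l := by rintro rfl; exact hk hl
            have := hd k (Finset.mem_insert_self _ _) l (Finset.mem_insert_of_mem hl) hkl
            exact Finset.disjoint_left.mp this hi hil
          rw [h0, zero_add, abs_mul, he, one_mul]
          exact hx k i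
        · rw [hs k i hi, mul_zero, add_zero]
          exact hy1 i
      · intro i hi
        simp only
        rw [hs k i (hi k (Finset.mem_insert_self _ _)),
          hy2 i (fun l hl => hi l (Finset.mem_insert_of_mem hl))]
        ring
      · rw [F4_expand, Finset.sum_insert hk]
        have h2 : ε ^ 2 = 1 := by rw [← sq_abs, he]; norm_num
        rw [h2]
        linarith
    by_cases hc : 0 ≤ ∑ i, ∑ j, (A i j * y i * x k j + A i j * x k i * y j)
    · exact key (-1) (by simp) (by linarith)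
    · exact key 1 (by simp) (by linarith)

theorem t_F4 : S_F4 := by
  intro n A H _ hFI T J x hd hx hs
  obtain ⟨y, hy1, -, hy3⟩ := F4_signs A J x hx hs T hd
  have h1 := F4_neg hFI y hy1
  rw [Finset.sum_neg_distrib]
  linarith

end Pool.Agent.H427R2.SD
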