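import Pool.Agent.H427R2.SD.St
import Pool.Agent.Helper883.Dicut.Expo
import Pool.Agent.Helper883.Dicut.HMain

set_option autoImplicit false

namespace Pool.Agent.H427R2.SD

open Finset Pool.Agent.Helper883.Dicut

theorem FIN_nat {n : ℕ} (w : WDigraph n) (h : ClassS n w) : ∀ i j, ∃ k : ℕ, w i j = k := by
  intro i j
  rcases h.2 i j with h0 | h1
  · exact ⟨0, by rw [h0]; simp⟩
  · exact ⟨1, by rw [h1]; simp⟩

/-- the bound for all acyclic simple digraphs -/
theorem FIN_adm (h1 : S_MAIN) (h2 : S_RED) : ∃ c : ℝ, 0 < c ∧ ∀ (n : ℕ) (w : WDigraph n), ClassS n w →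
    totalWeight w / 4 + c * totalWeight w ^ ((3 : ℝ) / 5 + 1 / 10 ^ 8) ≤ mac w := by
  obtain ⟨c, hc, hmain⟩ := h1
  refine ⟨c / 4, by positivity, ?_⟩
  intro n w hw
  obtain ⟨m, hm⟩ := total_nat w (FIN_nat w hw)
  rcases Nat.eq_zero_or_pos m with h0 | hpos
  · rw [hm, h0]
    have hz : ((0 : ℕ) : ℝ) ^ ((3 : ℝ) / 5 + 1 / 10 ^ 8) = 0 := by
      rw [Nat.cast_zero]
      exact Real.zero_rpow (by norm_num)
    rw [hz]
    have := mac_nonneg' w
    simpa using this
  · obtain ⟨n', A, hA, hdeg, harcs, hFI⟩ := h2 n w hw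
    have h1m : (1 : ℝ) ≤ arcs A := by
      rw [harcs, hm]
      exact_mod_cast hpos
    have h3 := hmain n' A (4 * mac w - totalWeight w) hA hdeg hFI h1m
    rw [harcs] at h3
    linarith

theorem t_FIN (h1 : S_MAIN) (h2 : S_RED) : S_FIN := by
  obtain ⟨c, hc, hall⟩ := FIN_adm h1 h2
  refine ⟨?_, c, hc, ?_⟩
  · unfold alpha0
    apply le_csSup
    · refine ⟨5 / 7, ?_⟩
      rintro α ⟨h0, hadm⟩
      exact admissible_S α h0 hadm
    · exact ⟨by norm_num, c, hc, hall⟩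
  · intro m _
    apply le_hSimple
    intro n w hw ht
    have := hall n w hw
    rw [ht] at this
    exact this

end Pool.Agent.H427R2.SD
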