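import Pool.Agent.H427R2.SD.St

set_option autoImplicit false

namespace Pool.Agent.H427R2.SD

open Finset

section
variable {ι : Type} [Fintype ι] [DecidableEq ι]

theorem GL_gram {κ : Type} [Fintype κ] (w : κ → ℝ) (hw : ∀ k, 0 ≤ w k) (v : κ → ι → ℝ) :
    PSD (fun i j => ∑ k, w k * v k i * v k j) := by
  refine ⟨fun i j => Finset.sum_congr rfl fun k _ => by ring, fun x => ?_⟩
  have h : quad (fun i j => ∑ k, w k * v k i * v k j) x = ∑ k, w k * (∑ i, v k i * x i) ^ 2 := by
    unfold quad
    have h1 : ∀ k, w k * (∑ i, v k i * x i) ^ 2 =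
        ∑ i, ∑ j, w k * v k i * v k j * x i * x j := by
      intro k
      rw [pow_two, Finset.sum_mul_sum, Finset.mul_sum]
      refine Finset.sum_congr rfl fun i _ => ?_
      rw [Finset.mul_sum]
      exact Finset.sum_congr rfl fun j _ => by ring
    simp_rw [h1]
    symm
    rw [Finset.sum_comm]
    refine Finset.sum_congr rfl fun i _ => ?_
    rw [Finset.sum_comm]
    refine Finset.sum_congr rfl fun j _ => ?_
    rw [Finset.sum_mul, Finset.sum_mul]
  rw [h]
  exact Finset.sum_nonneg fun k _ => mul_nonneg (hw k) (sq_nonneg _)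

theorem GL_add {M P : ι → ι → ℝ} (hM : PSD M) (hP : PSD P) : PSD (fun i j => M i j + P i j) := by
  refine ⟨fun i j => by
    show M i j + P i j = M j i + P j i
    rw [hM.1 i j, hP.1 i j], fun x => ?_⟩
  have h : quad (fun i j => M i j + P i j) x = quad M x + quad P x := by
    unfold quad
    rw [← Finset.sum_add_distrib]
    refine Finset.sum_congr rfl fun i _ => ?_
    rw [← Finset.sum_add_distrib]
    exact Finset.sum_congr rfl fun j _ => by ring
  rw [h]
  exact add_nonneg (hM.2 x) (hP.2 x)

theorem GL_sq {r : ℕ} (u : Fin r → ι → ℝ) : PSD (SD.sq u) := by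
  have h := GL_gram (fun _ : Fin r => (1 : ℝ)) (fun _ => zero_le_one) u
  have e : (fun i j => ∑ k, (fun _ : Fin r => (1 : ℝ)) k * u k i * u k j) = SD.sq u := by
    funext i j
    unfold SD.sq
    exact Finset.sum_congr rfl fun k _ => by ring
  rw [e] at h
  exact h

/-- the part of the matrix with the large eigenvalues -/
noncomputable def GL_P (μ : ι → ℝ) (v : ι → ι → ℝ) (η : ℝ) : ι → ι → ℝ :=
  fun i j => ∑ k, (if η ≤ μ k then μ k else 0) * v k i * v k j

theorem GL_Ptr {M : ι → ι → ℝ} {μ : ι → ℝ} {v : ι → ι → ℝ} (h : Decomp M μ v) (η : ℝ) :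
    ∑ i, GL_P μ v η i i = F μ η := by
  unfold GL_P F
  rw [Finset.sum_comm]
  refine Finset.sum_congr rfl fun k _ => ?_
  have h1 := h.2.1 k k
  rw [if_pos rfl] at h1
  calc ∑ i, (if η ≤ μ k then μ k else 0) * v k i * v k i =
      (if η ≤ μ k then μ k else 0) * ∑ i, v k i * v k i := by
        rw [Finset.mul_sum]
        exact Finset.sum_congr rfl fun i _ => by ring
    _ = _ := by rw [h1, mul_one]

theorem GL_tr {M : ι → ι → ℝ} {μ : ι → ℝ} {v : ι → ι → ℝ} (h : Decomp M μ v) :
    ∑ i, M i i = ∑ k, μ k := by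
  calc ∑ i, M i i = ∑ i, ∑ k, μ k * v k i * v k i := Finset.sum_congr rfl fun i _ => h.2.2.2 i i
    _ = ∑ k, ∑ i, μ k * v k i * v k i := Finset.sum_comm
    _ = ∑ k, μ k := by
      refine Finset.sum_congr rfl fun k _ => ?_
      have h1 := h.2.1 k k
      rw [if_pos rfl] at h1
      calc ∑ i, μ k * v k i * v k i = μ k * ∑ i, v k i * v k i := by
            rw [Finset.mul_sum]
            exact Finset.sum_congr rfl fun i _ => by ring
        _ = _ := by rw [h1, mul_one]

theorem GL_Fle {M : ι → ι → ℝ} {μ : ι → ℝ} {v : ι → ι → ℝ} (h : Decomp M μ v) (η : ℝ) :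
    F μ η ≤ ∑ k, μ k := by
  unfold F
  refine Finset.sum_le_sum fun k _ => ?_
  split_ifs
  · exact le_refl _
  · exact h.1 k

theorem GL_Pnn {M : ι → ι → ℝ} {μ : ι → ℝ} {v : ι → ι → ℝ} (h : Decomp M μ v) (η : ℝ) (i : ι) :
    0 ≤ GL_P μ v η i i := by
  unfold GL_P
  refine Finset.sum_nonneg fun k _ => ?_
  have h1 : 0 ≤ (if η ≤ μ k then μ k else 0) := by
    split_ifs
    · exact h.1 k
    · exact le_refl _
  have h2 : 0 ≤ v k i * v k i := mul_self_nonneg _
  calc 0 ≤ (if η ≤ μ k then μ k else 0) * (v k i * v k i) := mul_nonneg h1 h2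
    _ = _ := by ring

theorem GL_MP {M : ι → ι → ℝ} {μ : ι → ℝ} {v : ι → ι → ℝ} (h : Decomp M μ v) (η : ℝ) :
    PSD (fun i j => M i j - GL_P μ v η i j) := by
  have h1 := GL_gram (fun k => if η ≤ μ k then 0 else μ k) (fun k => by
    split_ifs
    · exact le_refl _
    · exact h.1 k) v
  have e : (fun i j => ∑ k, (fun k => if η ≤ μ k then 0 else μ k) k * v k i * v k j) =
      fun i j => M i j - GL_P μ v η i j := by
    funext i j
    rw [h.2.2.2 i j]
    unfold GL_P
    rw [← Finset.sum_sub_distrib]
    refine Finset.sum_congr rfl fun k _ => ?_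
    show (if η ≤ μ k then 0 else μ k) * v k i * v k j = _
    split_ifs <;> ring
  rw [e] at h1
  exact h1

/-- the product as a sum of squares -/
theorem GL_Z {M : ι → ι → ℝ} {μ : ι → ℝ} {v : ι → ι → ℝ} (h : Decomp M μ v) (η : ℝ)
    (K : ℕ) (u : Fin K → ι → ℝ) : ∃ (r : ℕ) (w : Fin r → ι → ℝ),
      (∀ i j, SD.sq w i j = SD.sq u i j * GL_P μ v η i j) ∧ (r : ℝ) = K * cnt μ η := by
  classical
  let S : Finset ι := Finset.univ.filter fun k => η ≤ μ k
  let T : Type := Fin K × S
  let e : Fin (Fintype.card T) ≃ T := (Fintype.equivFin T).symm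
  refine ⟨Fintype.card T, fun a i => u (e a).1 i * (Real.sqrt (μ (e a).2) * v (e a).2 i), ?_, ?_⟩
  · intro i j
    unfold SD.sq
    have h1 : (∑ a, (u (e a).1 i * (Real.sqrt (μ (e a).2) * v (e a).2 i)) *
        (u (e a).1 j * (Real.sqrt (μ (e a).2) * v (e a).2 j))) =
        ∑ t : T, (u t.1 i * (Real.sqrt (μ t.2) * v t.2 i)) *
          (u t.1 j * (Real.sqrt (μ t.2) * v t.2 j)) :=
      Equiv.sum_comp e fun t => (u t.1 i * (Real.sqrt (μ t.2) * v t.2 i)) *
          (u t.1 j * (Real.sqrt (μ t.2) * v t.2 j))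
    rw [h1, Fintype.sum_prod_type, Finset.sum_mul]
    refine Finset.sum_congr rfl fun a _ => ?_
    unfold GL_P
    rw [Finset.mul_sum]
    have h2 : ∀ k : ι, u a i * u a j * ((if η ≤ μ k then μ k else 0) * v k i * v k j) =
        if η ≤ μ k then u a i * u a j * (μ k * v k i * v k j) else 0 := by
      intro k
      split_ifs <;> ring
    simp_rw [h2]
    rw [← Finset.sum_filter]
    refine Eq.trans ?_ (Finset.sum_coe_sort S
      (fun k : ι => u a i * u a j * (μ k * v k i * v k j)))
    refine Finset.sum_congr rfl fun k _ => ?_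
    have h3 : Real.sqrt (μ k) * Real.sqrt (μ k) = μ k := Real.mul_self_sqrt (h.1 k)
    calc u a i * (Real.sqrt (μ k) * v k i) * (u a j * (Real.sqrt (μ k) * v k j)) =
        u a i * u a j * ((Real.sqrt (μ k) * Real.sqrt (μ k)) * v k i * v k j) := by ring
      _ = _ := by rw [h3]
  · have h1 : Fintype.card T = K * S.card := by
      show Fintype.card (Fin K × S) = _
      rw [Fintype.card_prod, Fintype.card_fin, Fintype.card_coe]
    rw [h1]
    push_cast
    congr 1
    unfold cnt
    rw [← Finset.sum_filter, Finset.sum_const, nsmul_eq_mul, mul_one]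

theorem GL_cnt (μ : ι → ℝ) (η : ℝ) : η * cnt μ η ≤ F μ η := by
  unfold cnt F
  rw [Finset.mul_sum]
  refine Finset.sum_le_sum fun k _ => ?_
  split_ifs with h
  · rw [mul_one]
    exact h
  · rw [mul_zero]

theorem GL_cnt0 (μ : ι → ℝ) (η : ℝ) : 0 ≤ cnt μ η := by
  unfold cnt
  refine Finset.sum_nonneg fun k _ => ?_
  split_ifs
  · exact zero_le_one
  · exact le_refl _

end

theorem t_GL (h1 : S_SPEC) (h2 : S_SCHUR) (h3 : S_TR) : S_GL := by
  intro ι _ _ A lam hA hlam hM K u hu τ x j hτ hτu hxK hx hN
  obtain ⟨μ, v, hD⟩ := h1 ι (shift A lam) hM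
  set N : ℝ := (Fintype.card ι : ℝ) with hNdef
  have hx0 : 0 < x := by linarith
  have hK0 : (0 : ℝ) < K := by nlinarith
  have hN0 : 0 < N := by
    have : 0 < lam ^ 2 * x ^ (j + 1) := by positivity
    linarith
  -- trace
  have htr : ∑ k, μ k = lam * N := by
    rw [← GL_tr hD]
    have : ∀ i, shift A lam i i = lam := by
      intro i
      unfold shift
      rw [hA.1 i, if_pos rfl, zero_add]
    simp_rw [this]
    rw [Finset.sum_const, Finset.card_univ, nsmul_eq_mul, mul_comm]
  have hstart : N ≤ F μ (N / x ^ (0 + 1)) := by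
    rw [zero_add, pow_one]
    have h4 := h3 ι (shift A lam) μ v hD (N / x) 0 (by positivity) (le_refl _) K u (by
      have e : (fun i j => shift (shift A lam) 0 i j - SD.sq u i j) =
          fun i j => shift A lam i j - SD.sq u i j := by
        funext i j
        have : shift (shift A lam) 0 i j = shift A lam i j := by
          unfold shift
          split_ifs <;> ring
        rw [this]
      rw [e]
      exact hu)
    have h5 : N * τ ≤ ∑ i, SD.sq u i i := by
      calc N * τ = ∑ _i : ι, τ := by
            rw [Finset.sum_const, Finset.card_univ, nsmul_eq_mul]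
        _ ≤ _ := Finset.sum_le_sum fun i _ => hτu i
    have h6 : (N / x + 0) * K = N * (τ - 1) / 4 := by
      have : (K : ℝ) = x * (τ - 1) / 4 := by linarith
      rw [this]
      field_simp
      ring
    rw [h6] at h4
    nlinarith
  have hstep : ∀ i, i ≤ j → ((τ + 1) / 2) ^ i * N ≤ F μ (N / x ^ (i + 1)) := by
    intro i
    induction i with
    | zero =>
      intro _
      rw [pow_zero, one_mul]
      exact hstart
    | succ i ih =>
      intro hij
      have ih' := ih (by omega)
      set η : ℝ := N / x ^ (i + 1) with hη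
      have hη0 : 0 < η := by positivity
      have hη' : N / x ^ (i + 1 + 1) = η / x := by
        rw [hη, pow_succ x (i + 1)]
        field_simp
      rw [hη']
      obtain ⟨r, w, hw, hr⟩ := GL_Z hD η K u
      have hc : 0 ≤ lam ^ 2 - lam := by nlinarith
      have hpsd : PSD (fun i j => shift (shift A lam) (lam ^ 2 - lam) i j - SD.sq w i j) := by
        have p1 := h2 ι _ _ hu hM
        have p2 := h2 ι _ _ (GL_sq u) (GL_MP hD η)
        have p3 := GL_add p1 p2
        have e : (fun i j => (fun i j => (shift A lam i j - SD.sq u i j) * shift A lam i j) i j +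
            (fun i j => SD.sq u i j * (shift A lam i j - GL_P μ v η i j)) i j) =
            fun i j => shift (shift A lam) (lam ^ 2 - lam) i j - SD.sq w i j := by
          funext i j
          rw [hw i j]
          have e1 : shift A lam i j * shift A lam i j =
              shift (shift A lam) (lam ^ 2 - lam) i j := by
            unfold shift
            by_cases hij : i = j
            · subst hij
              simp only [if_true, hA.1 i]
              ring
            · simp only [if_neg hij, add_zero]
              rcases hA.2.2 i j with h | h <;> rw [h] <;> norm_num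
          rw [← e1]
          ring
        rw [e] at p3
        exact p3
      have h4 := h3 ι (shift A lam) μ v hD (η / x) (lam ^ 2 - lam) (by positivity) hc r w hpsd
      have h5 : τ * F μ η ≤ ∑ i, SD.sq w i i := by
        rw [← GL_Ptr hD η, Finset.mul_sum]
        refine Finset.sum_le_sum fun i _ => ?_
        rw [hw i i]
        exact mul_le_mul_of_nonneg_right (hτu i) (GL_Pnn hD η i)
      have hF0 : 0 < F μ η := by
        have : 0 < ((τ + 1) / 2) ^ i * N := by positivity
        linarith
      -- the error term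
      have hcnt := GL_cnt μ η
      have hcnt0 := GL_cnt0 μ η
      have hη2 : lam ^ 2 * x ≤ η := by
        rw [hη, le_div_iff₀ (by positivity)]
        calc lam ^ 2 * x * x ^ (i + 1) = lam ^ 2 * x ^ (i + 1 + 1) := by ring
          _ ≤ lam ^ 2 * x ^ (j + 1) := by
            apply mul_le_mul_of_nonneg_left _ (sq_nonneg _)
            exact pow_le_pow_right₀ hx (by omega)
          _ ≤ N := hN
      have h6 : (η / x + (lam ^ 2 - lam)) * r ≤ (τ - 1) / 2 * F μ η := by
        have h7 : η / x + (lam ^ 2 - lam) ≤ 2 * (η / x) := by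
          have : lam ^ 2 ≤ η / x := by
            rw [le_div_iff₀ hx0]
            exact hη2
          linarith
        have hr0 : (0 : ℝ) ≤ r := Nat.cast_nonneg r
        calc (η / x + (lam ^ 2 - lam)) * r ≤ 2 * (η / x) * r :=
              mul_le_mul_of_nonneg_right h7 hr0
          _ = 2 * K / x * (η * cnt μ η) := by
            rw [hr]
            field_simp
          _ ≤ 2 * K / x * F μ η := mul_le_mul_of_nonneg_left hcnt (by positivity)
          _ = (τ - 1) / 2 * F μ η := by
            have : (K : ℝ) = x * (τ - 1) / 4 := by linarith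
            rw [this]
            field_simp
            ring
      have h7 : (τ + 1) / 2 * F μ η ≤ F μ (η / x) := by nlinarith
      calc ((τ + 1) / 2) ^ (i + 1) * N = (τ + 1) / 2 * (((τ + 1) / 2) ^ i * N) := by ring
        _ ≤ (τ + 1) / 2 * F μ η := mul_le_mul_of_nonneg_left ih' (by linarith)
        _ ≤ _ := h7
  have hfin := (hstep j (le_refl _)).trans (GL_Fle hD _)
  rw [htr] at hfin
  exact le_of_mul_le_mul_right hfin hN0

end Pool.Agent.H427R2.SD
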