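import Pool.Agent.H427R2.SD.St

set_option autoImplicit false

/-! L1: near-complete sets miss few pairs. -/

namespace Pool.Agent.H427R2.SD

open Finset

theorem L1_quad_shift {κ : Type} [Fintype κ] (A : κ → κ → ℝ) (hs : ∀ i j, A i j = A j i)
    (x : κ → ℝ) (t : ℝ) : quad A (fun i => x i - t) =
      quad A x - 2 * t * ∑ i, (∑ j, A i j) * x i + t ^ 2 * ∑ i, ∑ j, A i j := by
  have h1 : ∑ i, ∑ j, A i j * x j = ∑ i, (∑ j, A i j) * x i := by
    rw [Finset.sum_comm]
    refine Finset.sum_congr rfl fun j _ => ?_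
    rw [Finset.sum_mul]
    exact Finset.sum_congr rfl fun i _ => by rw [hs i j]
  have h2 : ∑ i, ∑ j, A i j * x i = ∑ i, (∑ j, A i j) * x i := by
    refine Finset.sum_congr rfl fun j _ => ?_
    rw [Finset.sum_mul]
  have h3 : quad A (fun i => x i - t) = quad A x - t * ∑ i, ∑ j, A i j * x i -
      t * ∑ i, ∑ j, A i j * x j + t ^ 2 * ∑ i, ∑ j, A i j := by
    unfold quad
    simp only [Finset.mul_sum, ← Finset.sum_sub_distrib, ← Finset.sum_add_distrib]
    exact Finset.sum_congr rfl fun i _ => Finset.sum_congr rfl fun j _ => by ring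
  rw [h3, h1, h2]
  ring

theorem L1_psd {κ : Type} [Fintype κ] [DecidableEq κ] (A : κ → κ → ℝ) (lam : ℝ)
    (hs : ∀ i j, A i j = A j i) (hM : ∀ x : κ → ℝ, 0 ≤ quad A x + lam * ∑ i, x i ^ 2)
    (r : κ → ℝ) (hr : ∀ i, r i = (∑ j, A i j) + lam) (T : ℝ) (hT : T = ∑ i, r i) (hT0 : 0 < T) :
    PSD (fun i j => A i j + (if i = j then lam else 0) - r i * r j / T) := by
  refine ⟨fun i j => ?_, fun x => ?_⟩
  · have e1 : (if i = j then lam else 0) = (if j = i then lam else 0) := by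
      by_cases h : i = j
      · subst h; rfl
      · rw [if_neg h, if_neg (fun h' => h h'.symm)]
    have e2 : r i * r j / T = r j * r i / T := by ring
    simp only
    rw [hs i j, e1, e2]
  · set R := ∑ i, r i * x i with hR
    have h1 := hM (fun i => x i - R / T)
    rw [L1_quad_shift A hs] at h1
    have h2 : ∑ i, (x i - R / T) ^ 2 = ∑ i, x i ^ 2 - 2 * (R / T) * ∑ i, x i +
        (R / T) ^ 2 * (Fintype.card κ : ℝ) := by
      have h3 : (Fintype.card κ : ℝ) = ∑ _i : κ, (1 : ℝ) := by simp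
      rw [h3]
      simp only [Finset.mul_sum, ← Finset.sum_sub_distrib, ← Finset.sum_add_distrib]
      exact Finset.sum_congr rfl fun i _ => by ring
    have h4 : R = ∑ i, (∑ j, A i j) * x i + lam * ∑ i, x i := by
      rw [hR, Finset.mul_sum, ← Finset.sum_add_distrib]
      exact Finset.sum_congr rfl fun i _ => by rw [hr]; ring
    have h5 : T = ∑ i, ∑ j, A i j + lam * (Fintype.card κ : ℝ) := by
      rw [hT]
      simp only [hr, Finset.sum_add_distrib, Finset.sum_const, Finset.card_univ, nsmul_eq_mul]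
      ring
    have h6 : quad (fun i j => A i j + (if i = j then lam else 0) - r i * r j / T) x =
        quad A x + lam * ∑ i, x i ^ 2 - R ^ 2 / T := by
      unfold quad
      have e1 : ∀ i, ∑ j, (if i = j then lam else 0) * x i * x j = lam * x i ^ 2 := by
        intro i
        rw [Finset.sum_eq_single i]
        · rw [if_pos rfl]; ring
        · intro j _ hj
          rw [if_neg (fun h => hj h.symm)]
          ring
        · intro h
          exact absurd (Finset.mem_univ i) h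
      have e2 : ∑ i, ∑ j, r i * r j / T * x i * x j = R ^ 2 / T := by
        rw [hR, pow_two, Finset.sum_mul_sum, Finset.sum_div]
        refine Finset.sum_congr rfl fun i _ => ?_
        rw [Finset.sum_div]
        exact Finset.sum_congr rfl fun j _ => by ring
      rw [← e2, Finset.mul_sum, ← Finset.sum_add_distrib, ← Finset.sum_sub_distrib]
      refine Finset.sum_congr rfl fun i _ => ?_
      rw [← e1 i, ← Finset.sum_add_distrib, ← Finset.sum_sub_distrib]
      exact Finset.sum_congr rfl fun j _ => by ring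
    rw [h6]
    rw [h2] at h1
    have h7 : quad A x - 2 * (R / T) * ∑ i, (∑ j, A i j) * x i + (R / T) ^ 2 * ∑ i, ∑ j, A i j +
        lam * (∑ i, x i ^ 2 - 2 * (R / T) * ∑ i, x i + (R / T) ^ 2 * (Fintype.card κ : ℝ)) =
        quad A x + lam * ∑ i, x i ^ 2 - 2 * (R / T) * (∑ i, (∑ j, A i j) * x i +
          lam * ∑ i, x i) + (R / T) ^ 2 * (∑ i, ∑ j, A i j + lam * (Fintype.card κ : ℝ)) := by
      ring
    rw [h7, ← h4, ← h5] at h1
    have h8 : quad A x + lam * ∑ i, x i ^ 2 - 2 * (R / T) * R + (R / T) ^ 2 * T =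
        quad A x + lam * ∑ i, x i ^ 2 - R ^ 2 / T := by
      field_simp
      ring
    rwa [h8] at h1

/-- off-diagonal, adjacent -/
theorem L1_adj (x δ : ℝ) (h1 : 4 / 5 ≤ x) (h2 : x - 1 ≤ δ) (hδ : 0 ≤ δ) :
    (1 - x) ^ 3 ≤ 1 / 25 * (1 - x) + 1 / 25 * δ := by
  rcases le_or_gt x 1 with h | h
  · have h3 : (1 - x) ^ 2 ≤ 1 / 25 := by nlinarith
    have h4 : (1 - x) * (1 - x) ^ 2 ≤ (1 - x) * (1 / 25) :=
      mul_le_mul_of_nonneg_left h3 (by linarith)
    nlinarith
  · have h3 : (1 - x) ^ 3 ≤ 0 := by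
      have : (1 - x) ^ 3 = -((x - 1) ^ 3) := by ring
      rw [this]
      have : 0 ≤ (x - 1) ^ 3 := pow_nonneg (by linarith) 3
      linarith
    linarith

/-- off-diagonal, not adjacent -/
theorem L1_non (x δ : ℝ) (h1 : 4 / 5 ≤ x) (hδ : 0 ≤ δ) :
    (-x) ^ 3 ≤ 1 / 25 * (-x) + 1 / 25 * δ - 47 / 100 := by
  have h2 : (4 / 5) ^ 2 ≤ x ^ 2 := pow_le_pow_left₀ (by norm_num) h1 2
  have h3 : 4 / 5 * (x ^ 2 - 1 / 25) ≤ x * (x ^ 2 - 1 / 25) :=
    mul_le_mul_of_nonneg_right h1 (by nlinarith)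
  nlinarith

/-- diagonal -/
theorem L1_dia (x δ lam : ℝ) (hx0 : 0 ≤ x) (hx2 : x ≤ 2) (hlam : 2 ≤ lam) (hδ : 0 ≤ δ) :
    (lam - x) ^ 3 ≤ 1 / 25 * (lam - x) + 1 / 25 * δ + lam ^ 3 := by
  have h1 : (lam - x) ^ 3 ≤ lam ^ 3 := pow_le_pow_left₀ (by linarith) (by linarith) 3
  linarith

/-- the final computation -/
theorem L1_num (q lam mb T δ : ℝ) (hlam : 2 ≤ lam) (hq : 200 * lam ≤ q) (hmb : 0 ≤ mb)
    (hT : T = q * (q - 1 + lam) - mb) (hT9 : 9 / 10 * q ^ 2 ≤ T)
    (hδ : δ = ((q - 1 + lam) ^ 2 - T) / T)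
    (h : 0 ≤ 1 / 25 * δ * q ^ 2 - 47 / 100 * mb + lam ^ 3 * q) : mb ≤ 3 * lam ^ 3 * q := by
  have hq0 : 0 < q := by linarith
  have hq2 : 0 < q ^ 2 := by positivity
  have hT0 : 0 < T := by nlinarith
  have h1 : δ * q ^ 2 ≤ (q * lam * (201 / 200) + mb) / (9 / 10) := by
    have h2 : (q - 1 + lam) ^ 2 - T = (q - 1 + lam) * (lam - 1) + mb := by rw [hT]; ring
    rw [hδ, h2, div_mul_eq_mul_div, div_le_div_iff₀ hT0 (by norm_num)]
    have h3 : (q - 1 + lam) * (lam - 1) ≤ q * lam * (201 / 200) := by nlinarith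
    have h4 : 0 ≤ q * lam * (201 / 200) + mb := by positivity
    calc ((q - 1 + lam) * (lam - 1) + mb) * q ^ 2 * (9 / 10)
        ≤ (q * lam * (201 / 200) + mb) * (9 / 10 * q ^ 2) := by
          have : ((q - 1 + lam) * (lam - 1) + mb) * (9 / 10 * q ^ 2) ≤
            (q * lam * (201 / 200) + mb) * (9 / 10 * q ^ 2) :=
            mul_le_mul_of_nonneg_right (by linarith) (by positivity)
          linarith
      _ ≤ (q * lam * (201 / 200) + mb) * T := mul_le_mul_of_nonneg_left hT9 h4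
  have h5 : lam * 4 ≤ lam ^ 3 := by
    have h51 : (2 : ℝ) ^ 2 ≤ lam ^ 2 := pow_le_pow_left₀ (by norm_num) hlam 2
    have h52 : lam * 2 ^ 2 ≤ lam * lam ^ 2 := mul_le_mul_of_nonneg_left h51 (by linarith)
    nlinarith
  have h6 : q * lam * 4 ≤ lam ^ 3 * q := by nlinarith
  have h7 : (q * lam * (201 / 200) + mb) / (9 / 10) = q * lam * (201 / 180) + mb * (10 / 9) := by
    ring
  rw [h7] at h1
  nlinarith

theorem L1_core {κ : Type} [Fintype κ] [DecidableEq κ] (hS : S_SCHUR) (A : κ → κ → ℝ) (lam : ℝ)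
    (hA : IsAdj A) (hlam : 2 ≤ lam) (hM : ∀ x : κ → ℝ, 0 ≤ quad A x + lam * ∑ i, x i ^ 2)
    (hq : 200 * lam ≤ (Fintype.card κ : ℝ))
    (hd : ∀ v, 9 / 10 * (Fintype.card κ : ℝ) ≤ ∑ u, A v u) :
    ∑ v, ∑ u, (if v = u then 0 else 1 - A v u) ≤ 3 * lam ^ 3 * (Fintype.card κ : ℝ) := by
  obtain ⟨hA0, hAs, hA1⟩ := hA
  set q : ℝ := (Fintype.card κ : ℝ) with hqd
  have hq0 : 0 < q := by linarith
  have hA01 : ∀ i j, 0 ≤ A i j ∧ A i j ≤ 1 := by
    intro i j
    rcases hA1 i j with h | h <;> rw [h] <;> norm_num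
  obtain ⟨r, hr⟩ : ∃ r : κ → ℝ, ∀ i, r i = (∑ j, A i j) + lam := ⟨_, fun _ => rfl⟩
  obtain ⟨T, hT⟩ : ∃ T : ℝ, T = ∑ i, r i := ⟨_, rfl⟩
  -- degrees
  have hdeg : ∀ v, ∑ u, A v u = q - 1 - ∑ u, (if v = u then 0 else 1 - A v u) := by
    intro v
    have h1 : ∑ u, (A v u + (if v = u then 0 else 1 - A v u)) = ∑ u, ((1 : ℝ) -
        (if v = u then 1 else 0)) := by
      refine Finset.sum_congr rfl fun u _ => ?_
      by_cases h : v = u
      · subst h; simp [hA0]
      · simp [h]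
    rw [Finset.sum_add_distrib, Finset.sum_sub_distrib] at h1
    simp only [Finset.sum_const, Finset.card_univ, nsmul_eq_mul, mul_one, Finset.sum_ite_eq,
      Finset.mem_univ, if_true] at h1
    linarith
  have hm0 : ∀ v, 0 ≤ ∑ u, (if v = u then 0 else 1 - A v u) := by
    intro v
    refine Finset.sum_nonneg fun u _ => ?_
    split_ifs
    · exact le_rfl
    · linarith [(hA01 v u).2]
  obtain ⟨mb, hmb⟩ : ∃ mb : ℝ, mb = ∑ v, ∑ u, (if v = u then 0 else 1 - A v u) := ⟨_, rfl⟩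
  have hmb0 : 0 ≤ mb := by
    rw [hmb]
    exact Finset.sum_nonneg fun v _ => hm0 v
  have hrub : ∀ v, r v ≤ q - 1 + lam := by
    intro v
    rw [hr, hdeg]
    linarith [hm0 v]
  have hrlb : ∀ v, 9 / 10 * q ≤ r v := by
    intro v
    rw [hr]
    linarith [hd v]
  have hTeq : T = q * (q - 1 + lam) - mb := by
    rw [hT, hmb]
    simp only [hr, hdeg, Finset.sum_add_distrib, Finset.sum_sub_distrib, Finset.sum_const,
      Finset.card_univ, nsmul_eq_mul]
    rw [← hqd]
    ring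
  have hT9 : 9 / 10 * q ^ 2 ≤ T := by
    have h1 : ∑ _i : κ, 9 / 10 * q ≤ ∑ i, r i := Finset.sum_le_sum fun i _ => hrlb i
    rw [Finset.sum_const, Finset.card_univ, nsmul_eq_mul, ← hqd, ← hT] at h1
    nlinarith
  have hT0 : 0 < T := by nlinarith [mul_pos hq0 hq0]
  have hTub : T ≤ q * (q - 1 + lam) := by linarith
  have hql : q - 1 + lam ≤ 201 / 200 * q := by linarith
  obtain ⟨δ, hδ⟩ : ∃ δ : ℝ, δ = ((q - 1 + lam) ^ 2 - T) / T := ⟨_, rfl⟩
  have hδ0 : 0 ≤ δ := by
    rw [hδ]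
    apply div_nonneg _ hT0.le
    nlinarith
  have hx1 : ∀ i j, 4 / 5 ≤ r i * r j / T := by
    intro i j
    rw [le_div_iff₀ hT0]
    have h1 : (9 / 10 * q) * (9 / 10 * q) ≤ r i * r j :=
      mul_le_mul (hrlb i) (hrlb j) (by positivity) ((by positivity : (0:ℝ) ≤ 9 / 10 * q).trans (hrlb i))
    have h2 : T ≤ q * (201 / 200 * q) := hTub.trans (mul_le_mul_of_nonneg_left hql hq0.le)
    nlinarith
  have hx2 : ∀ i j, r i * r j / T - 1 ≤ δ := by
    intro i j
    rw [hδ, div_sub_one hT0.ne']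
    apply div_le_div_of_nonneg_right _ hT0.le
    have h1 : r i * r j ≤ (q - 1 + lam) * (q - 1 + lam) :=
      mul_le_mul (hrub i) (hrub j) ((by positivity : (0:ℝ) ≤ 9 / 10 * q).trans (hrlb j))
        (by linarith)
    nlinarith
  have hx3 : ∀ i j, r i * r j / T ≤ 2 := by
    intro i j
    rw [div_le_iff₀ hT0]
    have h1 : r i * r j ≤ (201 / 200 * q) * (201 / 200 * q) :=
      mul_le_mul ((hrub i).trans hql) ((hrub j).trans hql)
        ((by positivity : (0:ℝ) ≤ 9 / 10 * q).trans (hrlb j)) (by positivity)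
    nlinarith
  have hPSD := L1_psd A lam hAs hM r hr T hT hT0
  obtain ⟨N, hN⟩ : ∃ N : κ → κ → ℝ, N = fun i j => A i j + (if i = j then lam else 0) -
    r i * r j / T := ⟨_, rfl⟩
  rw [← hN] at hPSD
  have hP3 := hS κ _ _ (hS κ _ _ hPSD hPSD) hPSD
  have h1 := hP3.2 (fun _ => 1)
  unfold quad at h1
  simp only [mul_one] at h1
  have hsum : ∑ i, ∑ j, N i j = 0 := by
    rw [hN]
    simp only [Finset.sum_sub_distrib, Finset.sum_add_distrib, Finset.sum_ite_eq, Finset.mem_univ,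
      if_true, Finset.sum_const, Finset.card_univ, nsmul_eq_mul]
    have h2 : ∑ i, ∑ j, r i * r j / T = T ^ 2 / T := by
      rw [pow_two, hT, Finset.sum_mul_sum, Finset.sum_div]
      refine Finset.sum_congr rfl fun i _ => ?_
      rw [Finset.sum_div]
    have h3 : T = ∑ i, ∑ j, A i j + q * lam := by
      rw [hT]
      simp only [hr, Finset.sum_add_distrib, Finset.sum_const, Finset.card_univ, nsmul_eq_mul]
      rw [← hqd]
    rw [h2, ← hqd, ← h3]
    field_simp
    ring
  have hpt : ∀ i j, N i j * N i j * N i j ≤ 1 / 25 * N i j + 1 / 25 * δ -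
      47 / 100 * (if i = j then 0 else 1 - A i j) + (if i = j then lam ^ 3 else 0) := by
    intro i j
    have e : N i j * N i j * N i j = N i j ^ 3 := by ring
    rw [e]
    have hNij : N i j = A i j + (if i = j then lam else 0) - r i * r j / T := by rw [hN]
    by_cases h : i = j
    · simp only [h, if_true] at hNij ⊢
      rw [hNij, hA0]
      have := L1_dia (r j * r j / T) δ lam (by linarith [hx1 j j]) (hx3 j j) hlam hδ0
      have e2 : 0 + lam - r j * r j / T = lam - r j * r j / T := by ring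
      rw [e2]
      linarith
    · simp only [h, if_false] at hNij ⊢
      rw [hNij]
      rcases hA1 i j with h2 | h2
      · rw [h2]
        have := L1_non (r i * r j / T) δ (hx1 i j) hδ0
        have e2 : 0 + 0 - r i * r j / T = -(r i * r j / T) := by ring
        rw [e2]
        linarith
      · rw [h2]
        have := L1_adj (r i * r j / T) δ (hx1 i j) (hx2 i j) hδ0
        have e2 : 1 + 0 - r i * r j / T = 1 - r i * r j / T := by ring
        rw [e2]
        linarith
  have h2 : ∑ i, ∑ j, N i j * N i j * N i j ≤ ∑ i, ∑ j, (1 / 25 * N i j + 1 / 25 * δ -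
      47 / 100 * (if i = j then 0 else 1 - A i j) + (if i = j then lam ^ 3 else 0)) :=
    Finset.sum_le_sum fun i _ => Finset.sum_le_sum fun j _ => hpt i j
  have h3 : ∑ i, ∑ j, (1 / 25 * N i j + 1 / 25 * δ -
      47 / 100 * (if i = j then 0 else 1 - A i j) + (if i = j then lam ^ 3 else 0)) =
      1 / 25 * δ * q ^ 2 - 47 / 100 * mb + lam ^ 3 * q := by
    simp only [Finset.sum_sub_distrib, Finset.sum_add_distrib, ← Finset.mul_sum, Finset.sum_ite_eq,
      Finset.mem_univ, if_true, Finset.sum_const, Finset.card_univ, nsmul_eq_mul]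
    rw [hsum, ← hmb, ← hqd]
    ring
  rw [h3] at h2
  rw [← hmb]
  exact L1_num q lam mb T δ hlam hq hmb0 hTeq hT9 hδ (h1.trans h2)

theorem L1_ext {ι : Type} [Fintype ι] [DecidableEq ι] (Q : Finset ι) (f : ι → ℝ)
    (hf : ∀ i, i ∉ Q → f i = 0) : ∑ i, f i = ∑ i : Q, f i := by
  rw [Finset.sum_coe_sort Q f]
  symm
  exact Finset.sum_subset (Finset.subset_univ Q) (fun i _ hi => hf i hi)

theorem t_L1 (h1 : S_SCHUR) : S_L1 := by
  intro ι _ _ A lam hA hlam Q hmin hq hd
  have hcard : (Fintype.card Q : ℝ) = (Q.card : ℝ) := by rw [Fintype.card_coe]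
  have h2 := L1_core (κ := Q) h1 (fun i j => A i j) lam
    ⟨fun i => hA.1 i, fun i j => hA.2.1 i j, fun i j => hA.2.2 i j⟩ hlam (by
      intro x
      have h3 := hmin (fun i => if h : i ∈ Q then x ⟨i, h⟩ else 0) (fun i hi => by simp [hi])
      have e1 : quad A (fun i => if h : i ∈ Q then x ⟨i, h⟩ else 0) =
          quad (fun i j : Q => A i j) x := by
        unfold quad
        rw [L1_ext Q _ (fun i hi => by simp [hi])]
        refine Finset.sum_congr rfl fun i _ => ?_
        rw [L1_ext Q _ (fun j hj => by simp [hj])]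
        refine Finset.sum_congr rfl fun j _ => ?_
        simp
      have e2 : ∑ i, (if h : i ∈ Q then x ⟨i, h⟩ else 0) ^ 2 = ∑ i : Q, x i ^ 2 := by
        rw [L1_ext Q _ (fun i hi => by simp [hi])]
        refine Finset.sum_congr rfl fun i _ => ?_
        simp
      rw [e1, e2] at h3
      exact h3) (by rw [hcard]; exact hq) (by
      intro v
      have h3 := hd v v.2
      unfold deg at h3
      rw [hcard, Finset.sum_coe_sort Q (fun u => A v u)]
      norm_num at h3 ⊢
      exact h3)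
  rw [hcard] at h2
  refine le_trans (le_of_eq ?_) h2
  have h4 : ∀ v ∈ Q, miss A Q v = ∑ u : Q, (if v = u then 0 else 1 - A v u) := by
    intro v hv
    rw [Finset.sum_coe_sort Q (fun u => if v = u then 0 else 1 - A v u)]
    unfold miss
    rw [← Finset.add_sum_erase Q (fun u => if v = u then 0 else 1 - A v u) hv]
    simp only [if_true, zero_add]
    refine Finset.sum_congr rfl fun u hu => ?_
    rw [if_neg (fun h => (Finset.ne_of_mem_erase hu) h.symm)]
  rw [Finset.sum_congr rfl h4, ← Finset.sum_coe_sort Q]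
  refine Finset.sum_congr rfl fun v _ => Finset.sum_congr rfl fun u _ => ?_
  by_cases h : v = u
  · subst h; simp
  · have h' : (v : ι) ≠ u := fun h'' => h (Subtype.ext h'')
    rw [if_neg h, if_neg h']

end Pool.Agent.H427R2.SD
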