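import Pool.Agent.H427R2.SD.St

set_option autoImplicit false

namespace Pool.Agent.H427R2.SD

open Finset

/-- the main inequality for a test vector with values `α` on the neighbours of `x` and `-β` on
the other elements of `C` -/
theorem L2_main {ι : Type} [Fintype ι] [DecidableEq ι] (A : ι → ι → ℝ) (lam L : ℝ) (hA : IsAdj A)
    (hlam : 1 ≤ lam) (hL : 0 ≤ L) (C : Finset ι) (x : ι) (hx : x ∉ C)
    (hE : MinEig A (insert x C) lam) (hmiss : ∀ v ∈ C, miss A C v ≤ L)
    (N1 N0 : Finset ι) (hN1 : N1 = C.filter (fun v => A x v = 1))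
    (hN0 : N0 = C.filter (fun v => ¬ A x v = 1))
    (α β t : ℝ) (hα : 0 ≤ α) (hβ : 0 ≤ β) (hα1 : α ≤ 1) (hβ1 : β ≤ 1)
    (h1 : α * N1.card = t) (h2 : β * N0.card = t) (m : ℝ)
    (hm : m = N1.card ∨ m = N0.card) :
    0 ≤ - t ^ 2 / lam + (lam - 1) * (2 * t) + 2 * (α * β) * (m * L) := by
  obtain ⟨h0, hsym, h01⟩ := hA
  have hlam0 : 0 < lam := by linarith
  have hAle : ∀ i j, 0 ≤ 1 - A i j := by
    intro i j
    rcases h01 i j with h | h <;> rw [h] <;> norm_num
  let z : ι → ℝ := fun v => if A x v = 1 then α else -β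
  let zz : ι → ℝ := fun i => if i = x then -t / lam else if i ∈ C then z i else 0
  have hzzx : zz x = -t / lam := by simp [zz]
  have hzzC : ∀ v ∈ C, zz v = z v := by
    intro v hv
    have hne : v ≠ x := fun h => hx (h ▸ hv)
    simp [zz, hne, hv]
  have hzz0 : ∀ v, v ∉ insert x C → zz v = 0 := by
    intro v hv
    rw [Finset.mem_insert, not_or] at hv
    simp [zz, hv.1, hv.2]
  -- splitting sums over C
  have hsplit : ∀ f : ι → ℝ, ∑ v ∈ C, f v = ∑ v ∈ N1, f v + ∑ v ∈ N0, f v := by
    intro f
    rw [hN1, hN0, Finset.sum_filter_add_sum_filter_not]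
  have hz1 : ∀ v ∈ N1, z v = α := by
    intro v hv
    rw [hN1, Finset.mem_filter] at hv
    simp [z, hv.2]
  have hz0 : ∀ v ∈ N0, z v = -β := by
    intro v hv
    rw [hN0, Finset.mem_filter] at hv
    simp [z, hv.2]
  have hN1C : N1 ⊆ C := by rw [hN1]; exact Finset.filter_subset _ _
  have hN0C : N0 ⊆ C := by rw [hN0]; exact Finset.filter_subset _ _
  have hsumz : ∑ v ∈ C, z v = 0 := by
    rw [hsplit, Finset.sum_congr rfl hz1, Finset.sum_congr rfl hz0, Finset.sum_const,
      Finset.sum_const, nsmul_eq_mul, nsmul_eq_mul]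
    linarith
  have hsumz2 : ∑ v ∈ C, z v ^ 2 = α * t + β * t := by
    rw [hsplit, Finset.sum_congr rfl (fun v hv => by rw [hz1 v hv]),
      Finset.sum_congr rfl (fun v (hv : v ∈ N0) => by rw [hz0 v hv]), Finset.sum_const,
      Finset.sum_const, nsmul_eq_mul, nsmul_eq_mul]
    linear_combination α * h1 + β * h2
  have hAz : ∑ v ∈ C, A x v * z v = t := by
    rw [hsplit]
    have e1 : ∑ v ∈ N1, A x v * z v = t := by
      rw [← h1, Finset.sum_congr rfl (g := fun _ => α), Finset.sum_const, nsmul_eq_mul]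
      · ring
      · intro v hv
        rw [hz1 v hv]
        rw [hN1, Finset.mem_filter] at hv
        rw [hv.2, one_mul]
    have e2 : ∑ v ∈ N0, A x v * z v = 0 := by
      refine Finset.sum_eq_zero (fun v hv => ?_)
      rw [hN0, Finset.mem_filter] at hv
      rcases h01 x v with h | h
      · rw [h, zero_mul]
      · exact absurd h hv.2
    rw [e1, e2, add_zero]
  -- the cross sum
  obtain ⟨X, hX⟩ : ∃ X : ℝ, X = ∑ i ∈ N1, ∑ j ∈ N0, (1 - A i j) := ⟨_, rfl⟩
  have hX' : X = ∑ i ∈ N0, ∑ j ∈ N1, (1 - A i j) := by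
    rw [hX, Finset.sum_comm]
    exact Finset.sum_congr rfl (fun i _ => Finset.sum_congr rfl (fun j _ => by rw [hsym]))
  have hdisj : ∀ i ∈ N1, i ∉ N0 := by
    intro i hi hi'
    rw [hN1, Finset.mem_filter] at hi
    rw [hN0, Finset.mem_filter] at hi'
    exact hi'.2 hi.2
  have hX1 : X ≤ N1.card * L := by
    rw [hX, ← nsmul_eq_mul, ← Finset.sum_const]
    refine Finset.sum_le_sum (fun i hi => ?_)
    refine le_trans ?_ (hmiss i (hN1C hi))
    unfold miss
    refine Finset.sum_le_sum_of_subset_of_nonneg (fun j hj => ?_) (fun j _ _ => hAle i j)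
    exact Finset.mem_erase.2 ⟨fun h => hdisj i hi (h ▸ hj), hN0C hj⟩
  have hX0 : X ≤ N0.card * L := by
    rw [hX', ← nsmul_eq_mul, ← Finset.sum_const]
    refine Finset.sum_le_sum (fun i hi => ?_)
    refine le_trans ?_ (hmiss i (hN0C hi))
    unfold miss
    refine Finset.sum_le_sum_of_subset_of_nonneg (fun j hj => ?_) (fun j _ _ => hAle i j)
    exact Finset.mem_erase.2 ⟨fun h => hdisj j hj (h ▸ hi), hN1C hj⟩
  have hXm : X ≤ m * L := by
    rcases hm with h | h <;> rw [h] <;> assumption
  -- the quadratic form on C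
  have hquadC : ∑ i ∈ C, ∑ j ∈ C, A i j * z i * z j ≤ -(∑ v ∈ C, z v ^ 2) + 2 * (α * β) * X := by
    have hrow : ∀ i ∈ C, ∑ j ∈ C, A i j * z i * z j =
        - z i ^ 2 + ∑ j ∈ C.erase i, (1 - A i j) * (-(z i * z j)) := by
      intro i hi
      have e1 : ∑ j ∈ C, A i j * z i * z j = ∑ j ∈ C.erase i, A i j * z i * z j := by
        rw [← Finset.add_sum_erase C _ hi, h0 i]
        ring
      have e2 : ∑ j ∈ C.erase i, z j = - z i := by
        have := Finset.add_sum_erase C z hi
        linarith
      rw [e1]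
      have e3 : ∑ j ∈ C.erase i, A i j * z i * z j = z i * ∑ j ∈ C.erase i, z j +
          ∑ j ∈ C.erase i, (1 - A i j) * (-(z i * z j)) := by
        rw [Finset.mul_sum, ← Finset.sum_add_distrib]
        exact Finset.sum_congr rfl (fun j _ => by ring)
      rw [e3, e2]
      ring
    have hr1 : ∀ i ∈ N1, ∑ j ∈ C.erase i, (1 - A i j) * (-(z i * z j)) ≤
        ∑ j ∈ N0, (α * β) * (1 - A i j) := by
      intro i hi
      have e1 : ∀ j ∈ C.erase i, (1 - A i j) * (-(z i * z j)) ≤
          if j ∈ N0 then (α * β) * (1 - A i j) else 0 := by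
        intro j hj
        rw [hz1 i hi]
        by_cases hj0 : j ∈ N0
        · rw [if_pos hj0, hz0 j hj0]
          exact le_of_eq (by ring)
        · rw [if_neg hj0]
          have hj1 : j ∈ N1 := by
            have hjC := (Finset.mem_erase.1 hj).2
            rw [hN0, Finset.mem_filter] at hj0
            rw [hN1, Finset.mem_filter]
            refine ⟨hjC, ?_⟩
            by_contra h
            exact hj0 ⟨hjC, h⟩
          rw [hz1 j hj1]
          have := mul_nonneg (hAle i j) (mul_nonneg hα hα)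
          linarith
      refine (Finset.sum_le_sum e1).trans ?_
      rw [← Finset.sum_filter]
      refine Finset.sum_le_sum_of_subset_of_nonneg (fun j hj => (Finset.mem_filter.1 hj).2) ?_
      intro j _ _
      exact mul_nonneg (mul_nonneg hα hβ) (hAle i j)
    have hr0 : ∀ i ∈ N0, ∑ j ∈ C.erase i, (1 - A i j) * (-(z i * z j)) ≤
        ∑ j ∈ N1, (α * β) * (1 - A i j) := by
      intro i hi
      have e1 : ∀ j ∈ C.erase i, (1 - A i j) * (-(z i * z j)) ≤
          if j ∈ N1 then (α * β) * (1 - A i j) else 0 := by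
        intro j hj
        rw [hz0 i hi]
        by_cases hj1 : j ∈ N1
        · rw [if_pos hj1, hz1 j hj1]
          exact le_of_eq (by ring)
        · rw [if_neg hj1]
          have hj0 : j ∈ N0 := by
            have hjC := (Finset.mem_erase.1 hj).2
            rw [hN1, Finset.mem_filter] at hj1
            rw [hN0, Finset.mem_filter]
            exact ⟨hjC, fun h => hj1 ⟨hjC, h⟩⟩
          rw [hz0 j hj0]
          have := mul_nonneg (hAle i j) (mul_nonneg hβ hβ)
          linarith
      refine (Finset.sum_le_sum e1).trans ?_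
      rw [← Finset.sum_filter]
      refine Finset.sum_le_sum_of_subset_of_nonneg (fun j hj => (Finset.mem_filter.1 hj).2) ?_
      intro j _ _
      exact mul_nonneg (mul_nonneg hα hβ) (hAle i j)
    rw [Finset.sum_congr rfl hrow, Finset.sum_add_distrib, Finset.sum_neg_distrib]
    have hc : ∑ i ∈ C, ∑ j ∈ C.erase i, (1 - A i j) * (-(z i * z j)) ≤ 2 * (α * β) * X := by
      rw [hsplit]
      have e1 := Finset.sum_le_sum hr1
      have e0 := Finset.sum_le_sum hr0
      simp only [← Finset.mul_sum] at e1 e0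
      rw [← hX] at e1
      rw [← hX'] at e0
      linarith
    linarith
  -- the full form
  have hquad : quad A zz = 2 * (-t / lam) * t + ∑ i ∈ C, ∑ j ∈ C, A i j * z i * z j := by
    have hrow : ∀ i, ∑ j, A i j * zz i * zz j = ∑ j ∈ insert x C, A i j * zz i * zz j := by
      intro i
      refine (Finset.sum_subset (Finset.subset_univ _) (fun j _ hj => ?_)).symm
      rw [hzz0 j hj, mul_zero]
    unfold quad
    simp only [hrow]
    rw [← Finset.sum_subset (Finset.subset_univ (insert x C)) (fun i _ hi => by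
      refine Finset.sum_eq_zero (fun j _ => ?_)
      rw [hzz0 i hi, mul_zero, zero_mul])]
    rw [Finset.sum_insert hx]
    simp only [Finset.sum_insert hx, hzzx, h0 x]
    rw [Finset.sum_add_distrib]
    have e1 : ∑ j ∈ C, A x j * (-t / lam) * zz j = (-t / lam) * t := by
      rw [← hAz, Finset.mul_sum]
      refine Finset.sum_congr rfl (fun j hj => ?_)
      rw [hzzC j hj]
      ring
    have e2 : ∑ i ∈ C, A i x * zz i * (-t / lam) = (-t / lam) * t := by
      rw [← hAz, Finset.mul_sum]
      refine Finset.sum_congr rfl (fun j hj => ?_)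
      rw [hzzC j hj, hsym j x]
      ring
    have e3 : ∑ i ∈ C, ∑ j ∈ C, A i j * zz i * zz j = ∑ i ∈ C, ∑ j ∈ C, A i j * z i * z j := by
      refine Finset.sum_congr rfl (fun i hi => Finset.sum_congr rfl (fun j hj => ?_))
      rw [hzzC i hi, hzzC j hj]
    rw [e1, e2, e3]
    ring
  have hsq : ∑ i, zz i ^ 2 = (-t / lam) ^ 2 + (α * t + β * t) := by
    rw [← Finset.sum_subset (Finset.subset_univ (insert x C)) (fun i _ hi => by
      rw [hzz0 i hi]; norm_num), Finset.sum_insert hx, hzzx, ← hsumz2]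
    congr 1
    refine Finset.sum_congr rfl (fun i hi => ?_)
    rw [hzzC i hi]
  have hmain := hE zz hzz0
  rw [hquad, hsq] at hmain
  have ht0 : 0 ≤ t := by rw [← h1]; exact mul_nonneg hα (Nat.cast_nonneg _)
  have hαβ : 0 ≤ α * β := mul_nonneg hα hβ
  have hXX : 2 * (α * β) * X ≤ 2 * (α * β) * (m * L) :=
    mul_le_mul_of_nonneg_left hXm (mul_nonneg (by norm_num) hαβ)
  have e4 : 2 * (-t / lam) * t + lam * (-t / lam) ^ 2 = - t ^ 2 / lam := by
    field_simp
    ring
  have e5 : (lam - 1) * (α * t + β * t) ≤ (lam - 1) * (2 * t) := by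
    refine mul_le_mul_of_nonneg_left ?_ (by linarith)
    nlinarith
  rw [hsumz2] at hquadC
  linarith

theorem t_L2 : S_L2 := by
  intro ι _ _ A lam L hA hlam hL C x hx hE hmiss hCL
  classical
  have hlam0 : 0 < lam := by linarith
  set N1 := C.filter (fun v => A x v = 1) with hN1
  set N0 := C.filter (fun v => ¬ A x v = 1) with hN0
  have hdeg : deg A C x = N1.card := by
    unfold deg
    rw [← Finset.sum_filter_add_sum_filter_not C (fun v => A x v = 1),
      Finset.sum_congr rfl (g := fun _ => (1 : ℝ)) (fun v hv => (Finset.mem_filter.1 hv).2),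
      Finset.sum_eq_zero (s := C.filter (fun v => ¬ A x v = 1)), Finset.sum_const, nsmul_eq_mul,
      mul_one, add_zero]
    intro v hv
    rcases hA.2.2 x v with h | h
    · exact h
    · exact absurd h (Finset.mem_filter.1 hv).2
  have hcard : (C.card : ℝ) = N1.card + N0.card := by
    have := Finset.card_filter_add_card_filter_not (s := C) (fun v => A x v = 1)
    rw [← this]
    push_cast
    rfl
  set s : ℝ := (N1.card : ℝ) with hs
  set r : ℝ := (N0.card : ℝ) with hr
  have hs0 : 0 ≤ s := Nat.cast_nonneg _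
  have hr0 : 0 ≤ r := Nat.cast_nonneg _
  rw [hdeg, hcard]
  have hfin : ∀ t T : ℝ, 0 < t → t ≤ T → s + r = t + T →
      0 ≤ - t ^ 2 / lam + (lam - 1) * (2 * t) + 2 * (t / T) * (t * L) → t ≤ 4 * lam ^ 2 := by
    intro t T ht htT hsum hmain
    have hT : 0 < T := by linarith
    have e1 : 2 * (t / T) * (t * L) ≤ t ^ 2 / (2 * lam) := by
      have hTL : 4 * lam * L ≤ T := by
        have : 8 * lam * L ≤ s + r := by rw [← hcard]; exact hCL
        rw [hsum] at this
        linarith
      have e2 : 2 * (t / T) * (t * L) = t ^ 2 * (2 * L / T) := by field_simp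
      rw [e2, div_eq_mul_one_div (t ^ 2)]
      refine mul_le_mul_of_nonneg_left ?_ (by positivity)
      rw [div_le_div_iff₀ hT (by positivity)]
      linarith
    have e3 : - t ^ 2 / lam + t ^ 2 / (2 * lam) = - (t ^ 2 / (2 * lam)) := by
      field_simp
      ring
    have e4 : t ^ 2 / (2 * lam) ≤ (lam - 1) * (2 * t) := by linarith
    rw [div_le_iff₀ (by positivity)] at e4
    have e5 : t * t ≤ t * (4 * lam * (lam - 1)) := by nlinarith
    have e6 : t ≤ 4 * lam * (lam - 1) := le_of_mul_le_mul_left e5 ht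
    nlinarith
  rcases eq_or_lt_of_le hs0 with hs1 | hs1
  · left
    rw [← hs1]
    positivity
  rcases eq_or_lt_of_le hr0 with hr1 | hr1
  · right
    rw [← hr1, add_zero, sub_self]
    positivity
  rcases le_total s r with hle | hle
  · left
    have hm := L2_main A lam L hA hlam hL C x hx hE hmiss N1 N0 hN1 hN0 1 (s / r) s
      (by norm_num) (by positivity) le_rfl ((div_le_one hr1).2 hle) (by rw [← hs, one_mul])
      (by rw [← hr, div_mul_cancel₀ _ hr1.ne']) s (Or.inl hs.symm)
    rw [one_mul] at hm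
    exact hfin s r hs1 hle rfl hm
  · right
    have hm := L2_main A lam L hA hlam hL C x hx hE hmiss N1 N0 hN1 hN0 (r / s) 1 r
      (by positivity) (by norm_num) ((div_le_one hs1).2 hle) le_rfl
      (by rw [← hs, div_mul_cancel₀ _ hs1.ne']) (by rw [← hr, one_mul]) r (Or.inr hr.symm)
    rw [mul_one] at hm
    have := hfin r s hr1 hle (add_comm _ _) hm
    linarith

end Pool.Agent.H427R2.SD
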