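import Mathlib
import Pool.Agent.H427R2.SD.St

set_option autoImplicit false

namespace Pool.Agent.H427R2.SD

open Finset

/-- bilinear form -/
noncomputable def L3_B {ι : Type} [Fintype ι] (A : ι → ι → ℝ) (f g : ι → ℝ) : ℝ :=
  ∑ i, ∑ j, A i j * f i * g j

/-- indicator -/
noncomputable def L3_ind {ι : Type} [DecidableEq ι] (S : Finset ι) (i : ι) : ℝ :=
  if i ∈ S then 1 else 0

theorem L3_B_add_left {ι : Type} [Fintype ι] (A : ι → ι → ℝ) (f f' g : ι → ℝ) :
    L3_B A (fun i => f i + f' i) g = L3_B A f g + L3_B A f' g := by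
  unfold L3_B
  rw [← Finset.sum_add_distrib]
  refine Finset.sum_congr rfl fun i _ => ?_
  rw [← Finset.sum_add_distrib]
  exact Finset.sum_congr rfl fun j _ => by ring

theorem L3_B_smul_left {ι : Type} [Fintype ι] (A : ι → ι → ℝ) (c : ℝ) (f g : ι → ℝ) :
    L3_B A (fun i => c * f i) g = c * L3_B A f g := by
  unfold L3_B
  rw [Finset.mul_sum]
  refine Finset.sum_congr rfl fun i _ => ?_
  rw [Finset.mul_sum]
  exact Finset.sum_congr rfl fun j _ => by ring

theorem L3_B_symm {ι : Type} [Fintype ι] (A : ι → ι → ℝ) (hA : ∀ i j, A i j = A j i)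
    (f g : ι → ℝ) : L3_B A f g = L3_B A g f := by
  unfold L3_B
  rw [Finset.sum_comm]
  refine Finset.sum_congr rfl fun i _ => Finset.sum_congr rfl fun j _ => ?_
  rw [hA j i]; ring

theorem L3_B_ind {ι : Type} [Fintype ι] [DecidableEq ι] (A : ι → ι → ℝ) (S T : Finset ι) :
    L3_B A (L3_ind S) (L3_ind T) = ∑ i ∈ S, ∑ j ∈ T, A i j := by
  unfold L3_B L3_ind
  have h1 : ∀ i, (∑ j, A i j * (if i ∈ S then (1 : ℝ) else 0) * (if j ∈ T then (1 : ℝ) else 0)) =
      if i ∈ S then ∑ j ∈ T, A i j else 0 := by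
    intro i
    split_ifs with h
    · simp [Finset.sum_ite_mem]
    · simp
  rw [Finset.sum_congr rfl fun i _ => h1 i, Finset.sum_ite_mem, Finset.univ_inter]

theorem L3_sum_ind {ι : Type} [Fintype ι] [DecidableEq ι] (S : Finset ι) :
    ∑ i, L3_ind S i = (S.card : ℝ) := by
  unfold L3_ind
  rw [Finset.sum_ite_mem, Finset.univ_inter]
  simp

theorem t_L3 : S_L3 := by
  intro ι _ _ A lam L hA hlam hL V G C hV hGV hCV hdeg hG x hx
  obtain ⟨hA0, hAs, hA1⟩ := hA
  by_contra hcon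
  push Not at hcon
  have hle1 : ∀ i j, A i j ≤ 1 := fun i j => by rcases hA1 i j with h | h <;> rw [h] <;> norm_num
  have hge0 : ∀ i j, 0 ≤ A i j := fun i j => by rcases hA1 i j with h | h <;> rw [h] <;> norm_num
  obtain ⟨Y, hY⟩ : ∃ Y : Finset ι, Y = (C.erase x).filter (fun y => A x y = 0) := ⟨_, rfl⟩
  have hYcard : miss A C x = (Y.card : ℝ) := by
    unfold miss
    rw [hY, Finset.card_filter]
    push_cast
    refine Finset.sum_congr rfl fun j _ => ?_
    rcases hA1 x j with h | h <;> rw [h] <;> norm_num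
  rw [hYcard] at hcon
  obtain ⟨t, ht⟩ : ∃ t : ℕ, t = ⌊2 * lam ^ 2⌋₊ + 1 := ⟨_, rfl⟩
  have hl2 : 0 ≤ 2 * lam ^ 2 := by positivity
  have ht1 : 2 * lam ^ 2 < (t : ℝ) := by rw [ht]; push_cast; exact Nat.lt_floor_add_one _
  have ht2 : (t : ℝ) ≤ 2 * lam ^ 2 + 1 := by
    rw [ht]; push_cast
    have := Nat.floor_le hl2
    linarith
  have htY : t ≤ Y.card := by
    rw [ht]
    have : ⌊2 * lam ^ 2⌋₊ < Y.card := (Nat.floor_lt hl2).2 hcon
    omega
  obtain ⟨Y', hY'Y, hY'c⟩ := Finset.exists_subset_card_eq htY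
  obtain ⟨G', hG'⟩ : ∃ G' : Finset ι, G' = G \ (insert x Y') := ⟨_, rfl⟩
  have hG'G : G' ⊆ G := by rw [hG']; exact Finset.sdiff_subset
  have hxY' : x ∉ Y' := by
    intro h
    have := hY'Y h
    rw [hY] at this
    exact (Finset.mem_erase.1 (Finset.mem_filter.1 this).1).1 rfl
  have hYG : Disjoint Y' G' := by
    rw [Finset.disjoint_left]
    intro y hy hy'
    rw [hG', Finset.mem_sdiff] at hy'
    exact hy'.2 (Finset.mem_insert_of_mem hy)
  have hxG' : x ∉ G' := by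
    intro h
    rw [hG', Finset.mem_sdiff] at h
    exact h.2 (Finset.mem_insert_self _ _)
  have hg' : (G.card : ℝ) - t - 1 ≤ (G'.card : ℝ) := by
    have h1 : G.card ≤ G'.card + (insert x Y').card := by
      rw [hG']
      exact Finset.card_le_card_sdiff_add_card
    have h2 : (insert x Y').card = t + 1 := by rw [Finset.card_insert_of_notMem hxY', hY'c]
    rw [h2] at h1
    have h3 : (G.card : ℝ) ≤ (G'.card : ℝ) + (t + 1) := by exact_mod_cast h1
    linarith
  have hg1 : 8 * lam * (2 * L + lam) ≤ (G'.card : ℝ) := by linarith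
  have hgpos : 0 < (G'.card : ℝ) := by
    have : 0 < 8 * lam * (2 * L + lam) := by positivity
    linarith
  have hmissG : ∀ y ∈ C, (G'.card : ℝ) - L ≤ ∑ j ∈ G', A y j := by
    intro y hy
    have h1 := hdeg y hy
    unfold deg at h1
    have h2 : ∑ j ∈ G', (1 - A y j) ≤ ∑ j ∈ G, (1 - A y j) :=
      Finset.sum_le_sum_of_subset_of_nonneg hG'G fun j _ _ => by linarith [hle1 y j]
    rw [Finset.sum_sub_distrib, Finset.sum_sub_distrib] at h2
    simp only [Finset.sum_const, nsmul_eq_mul, mul_one] at h2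
    linarith
  -- the test vector
  obtain ⟨T, hT⟩ : ∃ T : ℝ, T = t := ⟨_, rfl⟩
  obtain ⟨g, hgd⟩ : ∃ g : ℝ, g = G'.card := ⟨_, rfl⟩
  rw [← hT] at ht1 ht2
  rw [← hgd] at hg1 hgpos
  have hTpos : 0 < T := lt_of_le_of_lt hl2 ht1
  have hlam0 : 0 < lam := by linarith
  obtain ⟨a, ha⟩ : ∃ a : ℝ, a = T / lam := ⟨_, rfl⟩
  have haT : a * lam = T := by rw [ha]; field_simp
  have ha0 : 0 < a := by rw [ha]; positivity
  obtain ⟨c, hc⟩ : ∃ c : ℝ, c = (a + T) / g := ⟨_, rfl⟩
  have hcg : c * g = a + T := by rw [hc]; field_simp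
  have hc0 : 0 < c := by rw [hc]; positivity
  obtain ⟨z, hz⟩ : ∃ z : ι → ℝ, z = fun i => a * L3_ind {x} i + (L3_ind Y' i + (-c) * L3_ind G' i) :=
    ⟨_, rfl⟩
  have hzV : ∀ i, i ∉ V → z i = 0 := by
    intro i hi
    rw [hz]
    have i1 : i ∉ ({x} : Finset ι) := by
      rw [Finset.mem_singleton]; rintro rfl; exact hi (hCV hx)
    have i2 : i ∉ Y' := by
      intro h
      have := hY'Y h
      rw [hY] at this
      exact hi (hCV (Finset.mem_of_mem_erase (Finset.mem_filter.1 this).1))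
    have i3 : i ∉ G' := fun h => hi (hGV (hG'G h))
    show a * L3_ind {x} i + (L3_ind Y' i + (-c) * L3_ind G' i) = 0
    unfold L3_ind
    rw [if_neg i1, if_neg i2, if_neg i3]
    ring
  have hmain := hV z hzV
  have hsq : ∑ i, z i ^ 2 = a ^ 2 + T + c ^ 2 * g := by
    have h1 : ∀ i, z i ^ 2 = a ^ 2 * L3_ind {x} i + (L3_ind Y' i + c ^ 2 * L3_ind G' i) := by
      intro i
      rw [hz]
      show (a * L3_ind {x} i + (L3_ind Y' i + (-c) * L3_ind G' i)) ^ 2 = _
      unfold L3_ind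
      by_cases i1 : i ∈ ({x} : Finset ι)
      · have i1' : i = x := Finset.mem_singleton.1 i1
        have i2 : i ∉ Y' := by rw [i1']; exact hxY'
        have i3 : i ∉ G' := by rw [i1']; exact hxG'
        rw [if_pos i1, if_neg i2, if_neg i3]; ring
      · by_cases i2 : i ∈ Y'
        · have i3 : i ∉ G' := Finset.disjoint_left.1 hYG i2
          rw [if_neg i1, if_pos i2, if_neg i3]; ring
        · by_cases i3 : i ∈ G'
          · rw [if_neg i1, if_neg i2, if_pos i3]; ring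
          · rw [if_neg i1, if_neg i2, if_neg i3]; ring
    rw [Finset.sum_congr rfl fun i _ => h1 i, Finset.sum_add_distrib, Finset.sum_add_distrib,
      ← Finset.mul_sum, ← Finset.mul_sum, L3_sum_ind, L3_sum_ind, L3_sum_ind, hY'c, ← hT, ← hgd]
    simp
    ring
  have hq : quad A z = a ^ 2 * L3_B A (L3_ind {x}) (L3_ind {x}) + L3_B A (L3_ind Y') (L3_ind Y') +
      c ^ 2 * L3_B A (L3_ind G') (L3_ind G') + 2 * a * L3_B A (L3_ind {x}) (L3_ind Y') -
      2 * a * c * L3_B A (L3_ind {x}) (L3_ind G') - 2 * c * L3_B A (L3_ind Y') (L3_ind G') := by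
    have e0 : quad A z = L3_B A z z := rfl
    have e1 : ∀ g : ι → ℝ, L3_B A z g = a * L3_B A (L3_ind {x}) g + (L3_B A (L3_ind Y') g +
        (-c) * L3_B A (L3_ind G') g) := by
      intro g
      rw [hz, L3_B_add_left, L3_B_smul_left, L3_B_add_left, L3_B_smul_left]
    rw [e0, e1, L3_B_symm A hAs (L3_ind {x}) z, L3_B_symm A hAs (L3_ind Y') z,
      L3_B_symm A hAs (L3_ind G') z, e1, e1, e1, L3_B_symm A hAs (L3_ind Y') (L3_ind {x}),
      L3_B_symm A hAs (L3_ind G') (L3_ind {x}), L3_B_symm A hAs (L3_ind G') (L3_ind Y')]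
    ring
  have b1 : L3_B A (L3_ind {x}) (L3_ind {x}) = 0 := by
    rw [L3_B_ind]; simp [hA0]
  have b2 : L3_B A (L3_ind Y') (L3_ind Y') ≤ T ^ 2 := by
    rw [L3_B_ind]
    calc ∑ i ∈ Y', ∑ j ∈ Y', A i j ≤ ∑ i ∈ Y', ∑ j ∈ Y', (1 : ℝ) :=
          Finset.sum_le_sum fun i _ => Finset.sum_le_sum fun j _ => hle1 i j
      _ = T ^ 2 := by simp [hY'c, hT]; ring
  have b3 : L3_B A (L3_ind G') (L3_ind G') ≤ g ^ 2 := by
    rw [L3_B_ind]
    calc ∑ i ∈ G', ∑ j ∈ G', A i j ≤ ∑ i ∈ G', ∑ j ∈ G', (1 : ℝ) :=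
          Finset.sum_le_sum fun i _ => Finset.sum_le_sum fun j _ => hle1 i j
      _ = g ^ 2 := by simp [hgd]; ring
  have b4 : L3_B A (L3_ind {x}) (L3_ind Y') = 0 := by
    rw [L3_B_ind, Finset.sum_singleton]
    refine Finset.sum_eq_zero fun j hj => ?_
    have := hY'Y hj
    rw [hY] at this
    exact (Finset.mem_filter.1 this).2
  have b5 : g - L ≤ L3_B A (L3_ind {x}) (L3_ind G') := by
    rw [L3_B_ind, Finset.sum_singleton, hgd]
    exact hmissG x hx
  have b6 : T * (g - L) ≤ L3_B A (L3_ind Y') (L3_ind G') := by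
    rw [L3_B_ind]
    calc T * (g - L) = ∑ i ∈ Y', (g - L) := by rw [Finset.sum_const, hY'c, nsmul_eq_mul, hT]
      _ ≤ _ := Finset.sum_le_sum fun i hi => by
        rw [hgd]
        refine hmissG i ?_
        have := hY'Y hi
        rw [hY] at this
        exact Finset.mem_of_mem_erase (Finset.mem_filter.1 this).1
  rw [hq, hsq, b1, b4] at hmain
  have f1 : c ^ 2 * L3_B A (L3_ind G') (L3_ind G') ≤ (a + T) ^ 2 := by
    calc c ^ 2 * L3_B A (L3_ind G') (L3_ind G') ≤ c ^ 2 * g ^ 2 :=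
          mul_le_mul_of_nonneg_left b3 (by positivity)
      _ = (c * g) ^ 2 := by ring
      _ = _ := by rw [hcg]
  have f2 : 2 * a * c * (g - L) ≤ 2 * a * c * L3_B A (L3_ind {x}) (L3_ind G') :=
    mul_le_mul_of_nonneg_left b5 (by positivity)
  have f3 : 2 * c * (T * (g - L)) ≤ 2 * c * L3_B A (L3_ind Y') (L3_ind G') :=
    mul_le_mul_of_nonneg_left b6 (by positivity)
  have f4 : 2 * a * c * (g - L) + 2 * c * (T * (g - L)) = 2 * (a + T) ^ 2 - 2 * c * L * (a + T) := by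
    have : 2 * a * c * (g - L) + 2 * c * (T * (g - L)) =
        2 * (a + T) * (c * g) - 2 * c * L * (a + T) := by ring
    rw [this, hcg]; ring
  have f5 : c ^ 2 * g = c * (a + T) := by
    calc c ^ 2 * g = c * (c * g) := by ring
      _ = _ := by rw [hcg]
  -- c * (2 L + lam) * (a + T) ≤ T ^ 2 / (2 lam)
  have f6 : a ≤ T := by
    rw [← haT]
    exact le_mul_of_one_le_right ha0.le hlam
  have f7 : c * (8 * lam * (2 * L + lam)) ≤ a + T := by
    rw [← hcg]
    exact mul_le_mul_of_nonneg_left hg1 hc0.le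
  have f8 : c * (2 * L + lam) * (a + T) * (8 * lam) ≤ (a + T) * (a + T) := by
    calc c * (2 * L + lam) * (a + T) * (8 * lam) = c * (8 * lam * (2 * L + lam)) * (a + T) := by ring
      _ ≤ (a + T) * (a + T) := mul_le_mul_of_nonneg_right f7 (by positivity)
  have f9 : (a + T) * (a + T) ≤ 4 * T ^ 2 := by
    have g1 : a + T ≤ 2 * T := by linarith
    calc (a + T) * (a + T) ≤ (2 * T) * (2 * T) :=
          mul_le_mul g1 g1 (by positivity) (by positivity)
      _ = 4 * T ^ 2 := by ring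
  have f10 : c * (2 * L + lam) * (a + T) * (2 * lam) ≤ T ^ 2 := by linarith
  have f11 : 0 ≤ T ^ 2 - (a + T) ^ 2 + lam * (a ^ 2 + T) + c * (2 * L + lam) * (a + T) := by
    rw [f5] at hmain
    linarith
  have f12 : lam * a ^ 2 = a * T := by
    calc lam * a ^ 2 = a * (a * lam) := by ring
      _ = a * T := by rw [haT]
  have f13 : 0 ≤ -(a * T) - a ^ 2 + lam * T + c * (2 * L + lam) * (a + T) := by
    linarith
  -- multiply by 2 lam
  have f14 : 0 ≤ (-(a * T) - a ^ 2 + lam * T + c * (2 * L + lam) * (a + T)) * (2 * lam) :=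
    mul_nonneg f13 (by positivity)
  have f15 : a * T * (2 * lam) = 2 * T ^ 2 := by
    calc a * T * (2 * lam) = 2 * T * (a * lam) := by ring
      _ = _ := by rw [haT]; ring
  have f16 : 0 ≤ a ^ 2 * (2 * lam) := by positivity
  have f18 : 2 * lam ^ 2 * T < T * T := mul_lt_mul_of_pos_right ht1 hTpos
  linarith

end Pool.Agent.H427R2.SD
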