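import Pool.Agent.H427R2.SD.St

set_option autoImplicit false

namespace Pool.Agent.H427R2.SD

open Finset

theorem L4_mono {ι : Type} [Fintype ι] {A : ι → ι → ℝ} {S T : Finset ι} {lam : ℝ} (h : S ⊆ T)
    (hT : MinEig A T lam) : MinEig A S lam := by
  intro x hx
  exact hT x (fun i hi => hx i (fun hS => hi (h hS)))

theorem L4_le_one {ι : Type} {A : ι → ι → ℝ} (hA : IsAdj A) (i j : ι) : 0 ≤ 1 - A i j := by
  rcases hA.2.2 i j with h | h <;> rw [h] <;> norm_num

theorem L4_card_sub {ι : Type} (A : ι → ι → ℝ) (S : Finset ι) (x : ι) :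
    (S.card : ℝ) - deg A S x = ∑ j ∈ S, (1 - A x j) := by
  rw [Finset.sum_sub_distrib, deg]
  simp

theorem L4_card_sub_mem {ι : Type} [DecidableEq ι] {A : ι → ι → ℝ} (hA : IsAdj A)
    (S : Finset ι) (x : ι) (hx : x ∈ S) : (S.card : ℝ) - deg A S x = miss A S x + 1 := by
  rw [L4_card_sub, miss, ← Finset.sum_erase_add _ _ hx, hA.1 x]
  ring

theorem L4_miss_mono {ι : Type} [DecidableEq ι] {A : ι → ι → ℝ} (hA : IsAdj A)
    {S T : Finset ι} (h : S ⊆ T) (x : ι) : miss A S x ≤ miss A T x := by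
  unfold miss
  refine Finset.sum_le_sum_of_subset_of_nonneg (Finset.erase_subset_erase _ h) ?_
  intro i _ _
  exact L4_le_one hA x i

theorem L4_miss_nonneg {ι : Type} [DecidableEq ι] {A : ι → ι → ℝ} (hA : IsAdj A)
    (S : Finset ι) (x : ι) : 0 ≤ miss A S x :=
  Finset.sum_nonneg (fun i _ => L4_le_one hA x i)

theorem t_L4 (h1 : S_L1) (h2 : S_L2) (h3 : S_L3) : S_L4 := by
  intro ι _ _ A lam hA hlam V Q hV hQV hdeg hQ
  have hl0 : (0 : ℝ) < lam := by linarith
  have hl2 : 4 ≤ lam ^ 2 := by nlinarith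
  have hl3 : 2 * lam ^ 2 ≤ lam ^ 3 := by nlinarith [sq_nonneg lam]
  have hl4 : 2 * lam ^ 3 ≤ lam ^ 4 := by nlinarith [pow_pos hl0 3]
  have hl1 : 2 * lam ≤ lam ^ 2 := by nlinarith
  have hL1 := h1 ι A lam hA hlam Q (L4_mono hQV hV) (by nlinarith) hdeg
  set G : Finset ι := Q.filter (fun v => miss A Q v ≤ 30 * lam ^ 3) with hG
  have hGQ : G ⊆ Q := Finset.filter_subset _ _
  have hGcard : 0.9 * (Q.card : ℝ) ≤ (G.card : ℝ) := by
    have e1 : ∑ v ∈ Q \ G, (30 * lam ^ 3) ≤ ∑ v ∈ Q \ G, miss A Q v := by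
      refine Finset.sum_le_sum (fun v hv => ?_)
      rw [Finset.mem_sdiff, hG, Finset.mem_filter] at hv
      by_contra hcon
      push Not at hcon
      exact hv.2 ⟨hv.1, hcon.le⟩
    have e2 : ∑ v ∈ Q \ G, miss A Q v ≤ ∑ v ∈ Q, miss A Q v :=
      Finset.sum_le_sum_of_subset_of_nonneg Finset.sdiff_subset
        (fun i _ _ => L4_miss_nonneg hA Q i)
    rw [Finset.sum_const, nsmul_eq_mul] at e1
    have e3 : ((Q \ G).card : ℝ) * (30 * lam ^ 3) ≤ 3 * lam ^ 3 * (Q.card : ℝ) := by linarith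
    have e4 : ((Q \ G).card : ℝ) = (Q.card : ℝ) - (G.card : ℝ) := by
      rw [Finset.card_sdiff_of_subset hGQ, Nat.cast_sub (Finset.card_le_card hGQ)]
    rw [e4] at e3
    have e5 : 0 < lam ^ 3 := by positivity
    have e6 : ((Q.card : ℝ) - (G.card : ℝ)) * 10 ≤ (Q.card : ℝ) := by
      have : lam ^ 3 * (((Q.card : ℝ) - (G.card : ℝ)) * 10) ≤ lam ^ 3 * (Q.card : ℝ) := by
        nlinarith
      exact le_of_mul_le_mul_left this e5
    linarith
  have hGbig : 540 * lam ^ 4 ≤ (G.card : ℝ) := by linarith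
  set L : ℝ := 30 * lam ^ 3 + 1 with hL
  set C : Finset ι := V.filter (fun x => (G.card : ℝ) - deg A G x ≤ L) with hC
  have hCV : C ⊆ V := Finset.filter_subset _ _
  have hGC : G ⊆ C := by
    intro v hv
    rw [hC, Finset.mem_filter]
    refine ⟨hQV (hGQ hv), ?_⟩
    rw [L4_card_sub_mem hA G v hv, hL]
    have e1 := L4_miss_mono hA hGQ v
    have e2 : miss A Q v ≤ 30 * lam ^ 3 := by
      rw [hG, Finset.mem_filter] at hv; exact hv.2
    linarith
  have hCL : ∀ x ∈ C, (G.card : ℝ) - deg A G x ≤ L := by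
    intro x hx
    rw [hC, Finset.mem_filter] at hx
    exact hx.2
  have hL3 : ∀ x ∈ C, miss A C x ≤ 2 * lam ^ 2 := by
    refine h3 ι A lam L hA (by linarith) (by positivity) V G C hV (hGQ.trans hQV) hCV hCL ?_
    have e1 : 8 * lam * (2 * L + lam) + 2 * lam ^ 2 + 2 =
        480 * lam ^ 4 + 10 * lam ^ 2 + 16 * lam + 2 := by rw [hL]; ring
    rw [e1]
    nlinarith
  refine ⟨G, C, hGQ, hGC, hCV, hGcard, hL3, ?_, ?_⟩
  · intro x hx
    rw [Finset.mem_sdiff] at hx
    obtain ⟨hxV, hxC⟩ := hx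
    have hCG : (G.card : ℝ) ≤ (C.card : ℝ) := by exact_mod_cast Finset.card_le_card hGC
    have e1 := h2 ι A lam (2 * lam ^ 2) hA (by linarith) (by positivity) C x hxC
      (L4_mono (Finset.insert_subset hxV hCV) hV) hL3 (by nlinarith)
    rcases e1 with e1 | e1
    · exact e1
    · exfalso
      apply hxC
      rw [hC, Finset.mem_filter]
      refine ⟨hxV, ?_⟩
      have e2 : (G.card : ℝ) - deg A G x ≤ (C.card : ℝ) - deg A C x := by
        rw [L4_card_sub, L4_card_sub]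
        exact Finset.sum_le_sum_of_subset_of_nonneg hGC (fun i _ _ => L4_le_one hA x i)
      rw [hL]
      nlinarith
  · intro x hx
    have e1 := hCL x hx
    rw [hL] at e1
    nlinarith

end Pool.Agent.H427R2.SD
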