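import Pool.Agent.H427R2.SD.St

set_option autoImplicit false

namespace Pool.Agent.H427R2.SD

open Finset

theorem LOC_nn {ι : Type} {A : ι → ι → ℝ} (hA : IsAdj A) (i j : ι) : 0 ≤ A i j := by
  rcases hA.2.2 i j with h | h <;> rw [h] <;> norm_num

theorem LOC_le {ι : Type} {A : ι → ι → ℝ} (hA : IsAdj A) (i j : ι) : A i j ≤ 1 := by
  rcases hA.2.2 i j with h | h <;> rw [h] <;> norm_num

/-- double counting -/
theorem LOC_dc {ι : Type} {A : ι → ι → ℝ} (hA : IsAdj A) (S T : Finset ι) :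
    ∑ x ∈ S, deg A T x = ∑ v ∈ T, deg A S v := by
  unfold deg
  rw [Finset.sum_comm]
  refine Finset.sum_congr rfl (fun i _ => Finset.sum_congr rfl (fun j _ => hA.2.1 _ _))

theorem LOC_deg_mono {ι : Type} {A : ι → ι → ℝ} (hA : IsAdj A) {S T : Finset ι} (h : S ⊆ T)
    (x : ι) : deg A S x ≤ deg A T x :=
  Finset.sum_le_sum_of_subset_of_nonneg h (fun i _ _ => LOC_nn hA x i)

/-- the first quarter of `C` -/
theorem LOC_quarter {n : ℕ} (C : Finset (Fin n)) (s : ℝ) (hs : s ≤ (C.card : ℝ)) :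
    s ≤ ((C.filter (fun v => ((C.filter (fun u => u < v)).card : ℝ) < s)).card : ℝ) := by
  set F := C.filter (fun v => ((C.filter (fun u => u < v)).card : ℝ) < s) with hF
  by_cases h : (C \ F).Nonempty
  · obtain ⟨v, hv, hmin⟩ := Finset.exists_min_image (C \ F) id h
    simp only [id] at hmin
    rw [Finset.mem_sdiff] at hv
    have h1 : C.filter (fun u => u < v) ⊆ F := by
      intro u hu
      rw [Finset.mem_filter] at hu
      by_contra hcon
      have := hmin u (Finset.mem_sdiff.mpr ⟨hu.1, hcon⟩)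
      exact absurd hu.2 (not_lt.mpr this)
    have h2 : s ≤ ((C.filter (fun u => u < v)).card : ℝ) := by
      by_contra hcon
      push Not at hcon
      exact hv.2 (Finset.mem_filter.mpr ⟨hv.1, hcon⟩)
    exact h2.trans (by exact_mod_cast Finset.card_le_card h1)
  · rw [Finset.not_nonempty_iff_eq_empty, Finset.sdiff_eq_empty_iff_subset] at h
    exact hs.trans (by exact_mod_cast Finset.card_le_card h)

/-- the balance of a vertex in the first quarter of `C` -/
theorem LOC_bal {n : ℕ} {A : Fin n → Fin n → ℝ} (hA : IsAdj A) (C : Finset (Fin n)) (v : Fin n)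
    (hv : v ∈ C) :
    (C.card : ℝ) - 1 - 2 * ((C.filter (fun u => u < v)).card : ℝ) - miss A C v - deg A Cᶜ v ≤
      bal A v := by
  have e0 : bal A v = ∑ u, ((if v < u then A v u else 0) - (if u < v then A v u else 0)) := by
    rw [bal, Finset.sum_sub_distrib]
  have e1 : ∑ u, ((if v < u then A v u else 0) - (if u < v then A v u else 0)) =
      ∑ u ∈ C, ((if v < u then A v u else 0) - (if u < v then A v u else 0)) +
      ∑ u ∈ Cᶜ, ((if v < u then A v u else 0) - (if u < v then A v u else 0)) :=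
    (Finset.sum_add_sum_compl C _).symm
  have e2 : -deg A Cᶜ v ≤
      ∑ u ∈ Cᶜ, ((if v < u then A v u else 0) - (if u < v then A v u else 0)) := by
    rw [deg, ← Finset.sum_neg_distrib]
    refine Finset.sum_le_sum (fun u _ => ?_)
    have := LOC_nn hA v u
    split_ifs <;> linarith
  have e3 : ∑ u ∈ C, ((if v < u then A v u else 0) - (if u < v then A v u else 0)) =
      ∑ u ∈ C.erase v, ((if v < u then A v u else 0) - (if u < v then A v u else 0)) := by
    rw [← Finset.sum_erase_add _ _ hv]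
    simp
  have e4 : ∑ u ∈ C.erase v, (1 - 2 * (if u < v then (1 : ℝ) else 0) - (1 - A v u)) ≤
      ∑ u ∈ C.erase v, ((if v < u then A v u else 0) - (if u < v then A v u else 0)) := by
    refine Finset.sum_le_sum (fun u hu => ?_)
    have hne : u ≠ v := Finset.ne_of_mem_erase hu
    have h1 := LOC_nn hA v u
    have h2 := LOC_le hA v u
    rcases lt_trichotomy u v with h | h | h
    · rw [if_pos h, if_neg (not_lt.mpr h.le), if_pos h]; linarith
    · exact absurd h hne
    · rw [if_neg (not_lt.mpr h.le), if_pos h, if_neg (not_lt.mpr h.le)]; linarith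
  have e5 : ∑ u ∈ C.erase v, (1 - 2 * (if u < v then (1 : ℝ) else 0) - (1 - A v u)) =
      ((C.card : ℝ) - 1) - 2 * ((C.filter (fun u => u < v)).card : ℝ) - miss A C v := by
    rw [Finset.sum_sub_distrib, Finset.sum_sub_distrib, miss, ← Finset.mul_sum]
    have h1 : ∑ u ∈ C.erase v, (1 : ℝ) = (C.card : ℝ) - 1 := by
      rw [Finset.sum_const, nsmul_eq_mul, mul_one, Finset.card_erase_of_mem hv,
        Nat.cast_sub (Finset.card_pos.mpr ⟨v, hv⟩)]
      simp
    have h2 : ∑ u ∈ C.erase v, (if u < v then (1 : ℝ) else 0) =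
        ((C.filter (fun u => u < v)).card : ℝ) := by
      have h3 : ∑ u ∈ C.erase v, (if u < v then (1 : ℝ) else 0) =
          ∑ u ∈ C, (if u < v then (1 : ℝ) else 0) := by
        rw [← Finset.sum_erase_add C _ hv]
        simp
      rw [h3, Finset.sum_boole]
    rw [h1, h2]
  rw [e0, e1, e3]
  linarith

theorem t_LOC (h1 : S_L4) : S_LOC := by
  intro n A lam q hA hlam hq J1 J2 U Q hJ hU hQ hmin hQq hdeg hUc hJ1 hb1 hb2
  have hl0 : (0 : ℝ) < lam := by linarith
  have hl2 : 4 ≤ lam ^ 2 := by nlinarith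
  have hl4 : 4 * lam ^ 2 ≤ lam ^ 4 := by nlinarith [sq_nonneg lam]
  have hq0 : 0 < q := by nlinarith
  have hQV : Q ⊆ J2 \ U := by
    intro v hv
    have := hQ hv
    rw [Finset.mem_sdiff] at this ⊢
    exact ⟨hJ this.1, this.2⟩
  have hQJ1 : Q ⊆ J1 := fun v hv => (Finset.mem_sdiff.mp (hQ hv)).1
  obtain ⟨G, C, hGQ, hGC, hCV, hG9, hmiss, hout, hCG⟩ :=
    h1 (Fin n) A lam hA hlam (J2 \ U) Q hmin hQV hdeg (by nlinarith)
  have hGc : 0.9 * q ≤ (G.card : ℝ) := by linarith
  have hGC' : (G.card : ℝ) ≤ (C.card : ℝ) := by exact_mod_cast Finset.card_le_card hGC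
  have hG0 : 0 < (G.card : ℝ) := by linarith
  set c : ℝ := (C.card : ℝ) with hc
  have hcq : 0.9 * q ≤ c := by linarith
  -- (1)
  have s1 : ((C \ J1).card : ℝ) ≤ q / 50 := by
    have e1 : ∑ x ∈ C \ J1, ((G.card : ℝ) / 2) ≤ ∑ x ∈ C \ J1, deg A G x :=
      Finset.sum_le_sum (fun x hx => hCG x (Finset.mem_sdiff.mp hx).1)
    rw [LOC_dc hA] at e1
    have e2 : ∑ v ∈ G, deg A (C \ J1) v ≤ ∑ v ∈ G, (q / 100) := by
      refine Finset.sum_le_sum (fun v hv => ?_)
      refine (LOC_deg_mono hA ?_ v).trans (hJ1 v (hGQ hv))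
      intro x hx
      rw [Finset.mem_compl]
      exact (Finset.mem_sdiff.mp hx).2
    rw [Finset.sum_const, nsmul_eq_mul] at e1 e2
    have e3 : ((C \ J1).card : ℝ) * (G.card : ℝ) ≤ (G.card : ℝ) * (q / 50) := by linarith
    rw [mul_comm ((C \ J1).card : ℝ)] at e3
    exact le_of_mul_le_mul_left e3 hG0
  -- the good vertices
  set F := C.filter (fun v => ((C.filter (fun u => u < v)).card : ℝ) < c / 4) with hF
  have hFc : c / 4 ≤ (F.card : ℝ) := LOC_quarter C (c / 4) (by linarith)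
  set B1 := J1.filter (fun v => q / 100 < deg A J2ᶜ v) with hB1
  set B2 := J1.filter (fun v => q / 100 < |bal A v|) with hB2
  set F' := F \ ((C \ J1) ∪ B1 ∪ B2) with hF'
  have hF'c : 0.2 * c ≤ (F'.card : ℝ) := by
    have e1 : (F.card : ℝ) ≤ (F'.card : ℝ) + (((C \ J1) ∪ B1 ∪ B2).card : ℝ) := by
      have : F.card ≤ F'.card + ((C \ J1) ∪ B1 ∪ B2).card := by
        have h5 : F ⊆ F' ∪ ((C \ J1) ∪ B1 ∪ B2) := by
          intro v hv
          rw [Finset.mem_union]
          by_cases h6 : v ∈ (C \ J1) ∪ B1 ∪ B2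
          · exact Or.inr h6
          · exact Or.inl (Finset.mem_sdiff.mpr ⟨hv, h6⟩)
        exact (Finset.card_le_card h5).trans (Finset.card_union_le _ _)
      exact_mod_cast this
    have e2 : (((C \ J1) ∪ B1 ∪ B2).card : ℝ) ≤
        ((C \ J1).card : ℝ) + (B1.card : ℝ) + (B2.card : ℝ) := by
      have h5 := Finset.card_union_le ((C \ J1) ∪ B1) B2
      have h6 := Finset.card_union_le (C \ J1) B1
      have : ((C \ J1) ∪ B1 ∪ B2).card ≤ (C \ J1).card + B1.card + B2.card := by omega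
      exact_mod_cast this
    linarith
  -- each good vertex has many neighbours in V minus C
  have hgood : ∀ v ∈ F', 0.4 * c ≤ deg A ((J2 \ U) \ C) v := by
    intro v hv
    rw [hF', Finset.mem_sdiff] at hv
    obtain ⟨hvF, hvB⟩ := hv
    rw [hF, Finset.mem_filter] at hvF
    obtain ⟨hvC, hvr⟩ := hvF
    simp only [Finset.mem_union, not_or] at hvB
    obtain ⟨⟨hvB0, hvB1⟩, hvB2⟩ := hvB
    have hvJ : v ∈ J1 := by
      by_contra h5
      exact hvB0 (Finset.mem_sdiff.mpr ⟨hvC, h5⟩)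
    have g1 : deg A J2ᶜ v ≤ q / 100 := by
      by_contra h5
      push Not at h5
      exact hvB1 (Finset.mem_filter.mpr ⟨hvJ, h5⟩)
    have g2 : |bal A v| ≤ q / 100 := by
      by_contra h5
      push Not at h5
      exact hvB2 (Finset.mem_filter.mpr ⟨hvJ, h5⟩)
    have g3 := LOC_bal hA C v hvC
    have g4 := hmiss v hvC
    have g5 : deg A Cᶜ v ≤ deg A ((J2 \ U) \ C) v + deg A U v + deg A J2ᶜ v := by
      have h6 : Cᶜ ⊆ ((J2 \ U) \ C ∪ U) ∪ J2ᶜ := by
        intro x hx
        rw [Finset.mem_compl] at hx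
        simp only [Finset.mem_union, Finset.mem_sdiff, Finset.mem_compl]
        tauto
      refine (LOC_deg_mono hA h6 v).trans ?_
      unfold deg
      have h7 : ∑ j ∈ ((J2 \ U) \ C ∪ U) ∪ J2ᶜ, A v j ≤
          ∑ j ∈ ((J2 \ U) \ C ∪ U), A v j + ∑ j ∈ J2ᶜ, A v j := by
        rw [← Finset.sum_union_inter]
        have : 0 ≤ ∑ j ∈ ((J2 \ U) \ C ∪ U) ∩ J2ᶜ, A v j :=
          Finset.sum_nonneg (fun i _ => LOC_nn hA v i)
        linarith
      have h8 : ∑ j ∈ ((J2 \ U) \ C ∪ U), A v j ≤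
          ∑ j ∈ (J2 \ U) \ C, A v j + ∑ j ∈ U, A v j := by
        rw [← Finset.sum_union_inter]
        have : 0 ≤ ∑ j ∈ ((J2 \ U) \ C) ∩ U, A v j :=
          Finset.sum_nonneg (fun i _ => LOC_nn hA v i)
        linarith
      linarith
    have g6 : deg A U v ≤ (U.card : ℝ) := by
      unfold deg
      calc ∑ j ∈ U, A v j ≤ ∑ j ∈ U, (1 : ℝ) := Finset.sum_le_sum (fun j _ => LOC_le hA v j)
        _ = (U.card : ℝ) := by simp
    have g7 := (abs_le.mp g2).2
    nlinarith
  -- double counting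
  have s2 : ∑ v ∈ F', (0.4 * c) ≤ ∑ v ∈ F', deg A ((J2 \ U) \ C) v :=
    Finset.sum_le_sum (fun v hv => hgood v hv)
  have hF'C : F' ⊆ C := by
    intro v hv
    rw [hF', Finset.mem_sdiff, hF, Finset.mem_filter] at hv
    exact hv.1.1
  have s3 : ∑ v ∈ F', deg A ((J2 \ U) \ C) v ≤ 4 * lam ^ 2 * (J2.card : ℝ) := by
    rw [LOC_dc hA]
    calc ∑ x ∈ (J2 \ U) \ C, deg A F' x ≤ ∑ x ∈ (J2 \ U) \ C, (4 * lam ^ 2) := by
          refine Finset.sum_le_sum (fun x hx => ?_)
          exact (LOC_deg_mono hA hF'C x).trans (hout x hx)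
      _ = (((J2 \ U) \ C).card : ℝ) * (4 * lam ^ 2) := by rw [Finset.sum_const, nsmul_eq_mul]
      _ ≤ (J2.card : ℝ) * (4 * lam ^ 2) := by
          refine mul_le_mul_of_nonneg_right ?_ (by positivity)
          have : (J2 \ U) \ C ⊆ J2 := fun x hx =>
            (Finset.mem_sdiff.mp (Finset.mem_sdiff.mp hx).1).1
          exact_mod_cast Finset.card_le_card this
      _ = 4 * lam ^ 2 * (J2.card : ℝ) := by ring
  rw [Finset.sum_const, nsmul_eq_mul] at s2
  have hc0 : 0 < c := by linarith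
  have s4 : 0.2 * c * (0.4 * c) ≤ (F'.card : ℝ) * (0.4 * c) :=
    mul_le_mul_of_nonneg_right hF'c (by positivity)
  have s5 : 0.08 * c ^ 2 ≤ 4 * lam ^ 2 * (J2.card : ℝ) := by linarith
  have s6 : (0.9 * q) ^ 2 ≤ c ^ 2 := pow_le_pow_left₀ (by positivity) hcq 2
  have s7 : 0 ≤ lam ^ 2 * (J2.card : ℝ) := by positivity
  nlinarith

end Pool.Agent.H427R2.SD
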