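import Pool.Agent.H427R2.SD.St

set_option autoImplicit false

namespace Pool.Agent.H427R2.SD

open Finset Filter

theorem MAIN_ev (C0 δ : ℝ) (hδ : 0 < δ) : ∀ᶠ m : ℝ in atTop, (10 : ℝ) ^ 6 ≤ m ^ δ ∧ C0 ≤ m ^ δ ∧
    1 + Real.log (8 * m + 1) ≤ m ^ δ := by
  have t1 : Tendsto (fun m : ℝ => m ^ δ) atTop atTop := tendsto_rpow_atTop hδ
  have l1 := (isLittleO_log_rpow_atTop hδ).bound (by norm_num : (0 : ℝ) < 1 / 2)
  filter_upwards [t1.eventually_ge_atTop (10 ^ 6), t1.eventually_ge_atTop C0,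
    t1.eventually_ge_atTop (2 * (1 + Real.log 9)), l1, eventually_ge_atTop 1] with m a b c d e
  refine ⟨a, b, ?_⟩
  have hp : 0 ≤ m ^ δ := Real.rpow_nonneg (by linarith) _
  rw [Real.norm_of_nonneg (Real.log_nonneg e), Real.norm_of_nonneg hp] at d
  have h1 : Real.log (8 * m + 1) ≤ Real.log (9 * m) := Real.log_le_log (by linarith) (by linarith)
  rw [Real.log_mul (by norm_num) (by linarith)] at h1
  linarith

theorem t_MAIN (h1 : S_ASM) (h2 : S_F1) : S_MAIN := by
  obtain ⟨C0, hC0, hA⟩ := h1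
  obtain ⟨m0, hm0⟩ := eventually_atTop.mp (MAIN_ev C0 (1 / (2 * 10 ^ 8)) (by norm_num))
  set e : ℝ := (3 : ℝ) / 5 + 1 / 10 ^ 8 with he
  set M0 : ℝ := max m0 1 with hM0
  have hM1 : 1 ≤ M0 := le_max_right _ _
  have hMe : 0 < M0 ^ e := Real.rpow_pos_of_pos (by linarith) _
  have he0 : 0 ≤ e := by rw [he]; positivity
  refine ⟨min 1 (1 / 8 / M0 ^ e), lt_min one_pos (by positivity), ?_⟩
  intro n A H hAd hdeg hFI hm
  have hn := h2 n A H hAd hdeg hFI
  have hn1 : 1 ≤ n := by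
    rcases Nat.eq_zero_or_pos n with h0 | h0
    · subst h0
      exfalso
      have : arcs A = 0 := by simp [arcs]
      rw [this] at hm
      linarith
    · exact h0
  have hn1' : (1 : ℝ) ≤ n := by exact_mod_cast hn1
  have hmp : 0 < arcs A := by linarith
  have hme : 0 < arcs A ^ e := Real.rpow_pos_of_pos hmp _
  rcases lt_or_ge (arcs A) M0 with hlt | hge
  · have h3 : arcs A ^ e ≤ M0 ^ e := Real.rpow_le_rpow hmp.le hlt.le he0
    calc min 1 (1 / 8 / M0 ^ e) * arcs A ^ e ≤ (1 / 8 / M0 ^ e) * M0 ^ e :=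
          mul_le_mul (min_le_right _ _) h3 hme.le (by positivity)
      _ = 1 / 8 := by field_simp
      _ ≤ H := by linarith
  · obtain ⟨ha, hb, hc⟩ := hm0 (arcs A) ((le_max_left _ _).trans hge)
    by_contra hcon
    push Not at hcon
    have h4 : H < arcs A ^ e := by
      refine hcon.trans_le ?_
      calc min 1 (1 / 8 / M0 ^ e) * arcs A ^ e ≤ 1 * arcs A ^ e :=
            mul_le_mul_of_nonneg_right (min_le_left _ _) hme.le
        _ = arcs A ^ e := one_mul _
    have h5 : arcs A ^ e ≤ arcs A := by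
      calc arcs A ^ e ≤ arcs A ^ (1 : ℝ) :=
            Real.rpow_le_rpow_of_exponent_le hm (by rw [he]; norm_num)
        _ = arcs A := Real.rpow_one _
    have hHp : 0 < H := by linarith
    refine hA n A H (arcs A ^ ((1 : ℝ) / 5)) (arcs A ^ ((1 : ℝ) / (2 * 10 ^ 8))) hAd hdeg hFI hHp
      (Real.one_le_rpow hm (by norm_num)) ?_ ?_ ha hb ?_ ?_
    · rw [← Real.rpow_mul_natCast hmp.le]
      norm_num
    · rw [← Real.rpow_mul_natCast hmp.le, ← Real.rpow_mul_natCast hmp.le, ← Real.rpow_add hmp]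
      refine h4.le.trans (le_of_eq ?_)
      congr 1
      rw [he]
      norm_num
    · refine le_trans ?_ hc
      have : Real.log ((n : ℝ) + 1) ≤ Real.log (8 * arcs A + 1) :=
        Real.log_le_log (by linarith) (by linarith)
      linarith
    · rw [← Real.rpow_mul_natCast hmp.le, ← Real.rpow_mul_natCast hmp.le]
      exact Real.rpow_le_rpow_of_exponent_le hm (by norm_num)

end Pool.Agent.H427R2.SD
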