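import Pool.Agent.H427R2.SD.St

set_option autoImplicit false

/-! MD: minimum degree of an extremal set. -/

namespace Pool.Agent.H427R2.SD

open Finset

theorem MD_e2_erase {ι : Type} [DecidableEq ι] {A : ι → ι → ℝ} (hA : IsAdj A) {S : Finset ι}
    {v : ι} (hv : v ∈ S) : e2 A (S.erase v) = e2 A S - 2 * deg A S v := by
  unfold e2 deg
  have h1 : ∀ i, ∑ j ∈ S.erase v, A i j = ∑ j ∈ S, A i j - A i v := fun i =>
    Finset.sum_erase_eq_sub hv
  simp only [h1]
  rw [Finset.sum_erase_eq_sub hv, Finset.sum_sub_distrib, hA.1 v]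
  have h2 : ∑ i ∈ S, A i v = ∑ i ∈ S, A v i := Finset.sum_congr rfl fun i _ => hA.2.1 i v
  rw [h2]
  ring

theorem MD_low (N : ℝ) (hN : 100 ≤ N) : Real.exp (-(1.99 / N)) ≤ 1 - 1.9 / N := by
  have hN0 : 0 < N := by linarith
  have ht : 1.9 / N ≤ 0.019 := by
    rw [div_le_iff₀ hN0]; linarith
  have ht0 : 0 < 1.9 / N := by positivity
  set t := 1.9 / N with htd
  have h1 : t / (1 - t) ≤ 1.99 / N := by
    rw [div_le_div_iff₀ (by linarith) hN0, htd, div_mul_cancel₀ _ hN0.ne']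
    have h3 : 1.99 * (1.9 / N) ≤ 0.09 := by linarith
    linarith
  have h2 := Real.add_one_le_exp (t / (1 - t))
  have h3 : 1 / (1 - t) = t / (1 - t) + 1 := by
    have : (1 - t) ≠ 0 := by linarith
    field_simp
    ring
  have h4 : 1 / (1 - t) ≤ Real.exp (1.99 / N) := by
    rw [h3]
    exact h2.trans (Real.exp_le_exp.2 h1)
  rw [Real.exp_neg, inv_eq_one_div, div_le_iff₀ (Real.exp_pos _)]
  rw [div_le_iff₀ (by linarith)] at h4
  linarith

theorem MD_num (N : ℝ) (hN : 100 ≤ N) : (1 - 1 / N) ^ 199 ≤ (1 - 1.9 / N) ^ 100 := by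
  have hN0 : 0 < N := by linarith
  have h1 : 1 / N ≤ 1 := by
    rw [div_le_iff₀ hN0]; linarith
  have h2 : 1 - 1 / N ≤ Real.exp (-(1 / N)) := Real.one_sub_le_exp_neg _
  have h3 : (1 - 1 / N) ^ 199 ≤ Real.exp (-(1 / N)) ^ 199 :=
    pow_le_pow_left₀ (by linarith) h2 _
  have h4 : Real.exp (-(1.99 / N)) ^ 100 ≤ (1 - 1.9 / N) ^ 100 :=
    pow_le_pow_left₀ (Real.exp_pos _).le (MD_low N hN) _
  have h5 : Real.exp (-(1 / N)) ^ 199 = Real.exp (-(1.99 / N)) ^ 100 := by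
    rw [← Real.exp_nat_mul, ← Real.exp_nat_mul]
    congr 1
    push_cast
    ring
  rw [h5] at h3
  exact h3.trans h4

theorem t_MD : S_MD := by
  intro ι _ _ A hA S hS he hX v hv
  by_contra hcon
  rw [not_le] at hcon
  have hN : (100 : ℝ) ≤ (S.card : ℝ) := by exact_mod_cast hS
  have hN0 : (0 : ℝ) < (S.card : ℝ) := by linarith
  have hc : (((S.erase v).card : ℕ) : ℝ) = (S.card : ℝ) - 1 := by
    rw [Finset.card_erase_of_mem hv]
    push_cast [Nat.cast_sub (by omega : 1 ≤ S.card)]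
    ring
  have hne : (S.erase v).Nonempty := by
    rw [← Finset.card_pos, Finset.card_erase_of_mem hv]
    omega
  have h1 := hX (S.erase v) (Finset.erase_subset _ _) hne
  rw [MD_e2_erase hA hv, hc] at h1
  set N : ℝ := (S.card : ℝ) with hNd
  set e : ℝ := e2 A S with hed
  set d : ℝ := deg A S v with hdd
  have h2 : e * (1 - 1.9 / N) < e - 2 * d := by
    have h3 : d < 0.95 * e / N := by
      rw [lt_div_iff₀ hN0]; linarith
    have h4 : e * (1 - 1.9 / N) = e - 2 * (0.95 * e / N) := by ring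
    rw [h4]
    linarith
  have ht : 1.9 / N ≤ 0.019 := by
    rw [div_le_iff₀ hN0]; linarith
  have h3 : 0 ≤ e * (1 - 1.9 / N) := mul_nonneg he.le (by linarith)
  have h4 : (e * (1 - 1.9 / N)) ^ 100 < (e - 2 * d) ^ 100 :=
    pow_lt_pow_left₀ h2 h3 (by norm_num)
  have h5 : (e * (1 - 1.9 / N)) ^ 100 * N ^ 199 < e ^ 100 * (N - 1) ^ 199 :=
    lt_of_lt_of_le (mul_lt_mul_of_pos_right h4 (by positivity)) h1
  have h6 : (N - 1) ^ 199 = (1 - 1 / N) ^ 199 * N ^ 199 := by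
    rw [← mul_pow]
    congr 1
    field_simp
  rw [mul_pow, h6] at h5
  have h7 := MD_num N hN
  have h8 : e ^ 100 * ((1 - 1 / N) ^ 199 * N ^ 199) ≤ e ^ 100 * (1 - 1.9 / N) ^ 100 * N ^ 199 := by
    rw [← mul_assoc]
    exact mul_le_mul_of_nonneg_right (mul_le_mul_of_nonneg_left h7 (by positivity)) (by positivity)
  linarith

end Pool.Agent.H427R2.SD
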