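import Pool.Agent.H427R2.SD.St

set_option autoImplicit false

/-! Task NUM: the numerical lemma. -/

namespace Pool.Agent.H427R2.SD

open Finset

theorem NUM_pow : (1.4 : ℝ) * 10 ^ 32 ≤ ((1.03 + 1) / 2) ^ 5100 := by
  have h1 : (2 : ℝ) ≤ ((1.03 + 1) / 2 : ℝ) ^ 47 := by norm_num
  calc (1.4 : ℝ) * 10 ^ 32 ≤ 2 ^ 108 := by norm_num
    _ ≤ (((1.03 + 1) / 2 : ℝ) ^ 47) ^ 108 := pow_le_pow_left₀ (by norm_num) h1 _
    _ = ((1.03 + 1) / 2 : ℝ) ^ 5076 := by rw [← pow_mul]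
    _ ≤ ((1.03 + 1) / 2 : ℝ) ^ 5100 := pow_le_pow_right₀ (by norm_num) (by norm_num)

theorem NUM_pow2 (y : ℝ) (hy : 1.6 ≤ y) : (1.1 : ℝ) * 10 ^ 27 ≤ y ^ 5080 := by
  have h1 : (4 : ℝ) ≤ (1.6 : ℝ) ^ 3 := by norm_num
  calc (1.1 : ℝ) * 10 ^ 27 ≤ 4 ^ 45 := by norm_num
    _ ≤ ((1.6 : ℝ) ^ 3) ^ 45 := pow_le_pow_left₀ (by norm_num) h1 _
    _ = (1.6 : ℝ) ^ 135 := by rw [← pow_mul]
    _ ≤ y ^ 135 := pow_le_pow_left₀ (by norm_num) hy _
    _ ≤ y ^ 5080 := pow_le_pow_right₀ (by linarith) (by norm_num)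

theorem t_NUM : S_NUM := by
  intro p x K hp hp1 hK1 hK2 hx
  by_cases hp5 : 1 / 5 ≤ p
  · have ht : tau p = 1.03 := by unfold tau; rw [if_pos hp5]
    rw [ht] at hx ⊢
    have h1 : (2 * 10 ^ 5 / p) ≤ 10 ^ 6 := by
      rw [div_le_iff₀ hp]; norm_num; linarith
    have h1' : (1 : ℝ) ≤ 2 * 10 ^ 5 / p := by
      rw [le_div_iff₀ hp]; norm_num; linarith
    have h2 : (2 * 10 ^ 5 / p) ^ 5 ≤ (10 ^ 6 : ℝ) ^ 5 := pow_le_pow_left₀ (by linarith) h1 _
    have h3 : (1 : ℝ) ≤ (2 * 10 ^ 5 / p) ^ 5 := one_le_pow₀ h1'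
    have hKl : (1 : ℝ) ≤ K := h3.trans hK1
    have hKu : (K : ℝ) ≤ 10 ^ 30 + 1 := by
      have : (10 ^ 6 : ℝ) ^ 5 = 10 ^ 30 := by norm_num
      linarith
    refine ⟨le_rfl, ?_, ?_⟩
    · norm_num at hx ⊢
      linarith
    · refine le_trans ?_ NUM_pow
      norm_num at hx hKu ⊢
      linarith
  · push Not at hp5
    set s := Real.sqrt p with hs
    have hspos : 0 < s := Real.sqrt_pos.2 hp
    have hs2 : s ^ 2 = p := Real.sq_sqrt hp.le
    have ht : tau p = 1 / s := by unfold tau; rw [if_neg (not_le.2 hp5)]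
    rw [ht] at hx ⊢
    have hsl : s ≤ 0.4473 := by
      by_contra hcon
      push Not at hcon
      nlinarith
    set t : ℝ := 1 / s with htd
    have hts : t * s = 1 := by rw [htd]; field_simp
    have ht2 : 2.2356 ≤ t := by
      rw [htd, le_div_iff₀ hspos]
      linarith
    have htpos : 0 < t := by linarith
    have hpt : 1 / p = t ^ 2 := by
      rw [htd, ← hs2]; field_simp
    have hpow : (2 * 10 ^ 5 / p) ^ 5 = 3.2 * 10 ^ 26 * t ^ 10 := by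
      have : (2 * 10 ^ 5 / p : ℝ) = 2 * 10 ^ 5 * t ^ 2 := by rw [← hpt]; ring
      rw [this, mul_pow, ← pow_mul]
      norm_num
    rw [hpow] at hK1 hK2
    have ht10 : (1 : ℝ) ≤ t ^ 10 := one_le_pow₀ (by linarith)
    have ht1 : 0 < t - 1 := by linarith
    refine ⟨by linarith, ?_, ?_⟩
    · -- 1 ≤ x
      by_contra hcon
      push Not at hcon
      have h1 : x * (t - 1) < 1 * (t - 1) := mul_lt_mul_of_pos_right hcon ht1
      have h2 : t ≤ t ^ 10 := le_self_pow₀ (by linarith) (by norm_num)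
      have h3 : (4 : ℝ) * (3.2 * 10 ^ 26 * t ^ 10) ≤ x * (t - 1) := by rw [hx]; linarith
      norm_num at h3
      nlinarith
    · have hxu : x ≤ 1.1 * 10 ^ 27 * t ^ 10 := by
        by_contra hcon
        push Not at hcon
        have h1 : 1.1 * 10 ^ 27 * t ^ 10 * (t - 1) < x * (t - 1) :=
          mul_lt_mul_of_pos_right hcon ht1
        have h2 : 1.1 * 10 ^ 27 * t ^ 10 * 1.2356 ≤ 1.1 * 10 ^ 27 * t ^ 10 * (t - 1) :=
          mul_le_mul_of_nonneg_left (by linarith) (by positivity)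
        rw [hx] at h1
        norm_num at h1 h2 hK2
        linarith
      have hy : 1.6 ≤ (t + 1) / 2 := by linarith
      have h20 : t ^ 10 ≤ ((t + 1) / 2) ^ 20 := by
        have h1 : t ≤ ((t + 1) / 2) ^ 2 := by nlinarith [sq_nonneg (t - 1)]
        calc t ^ 10 ≤ (((t + 1) / 2) ^ 2) ^ 10 := pow_le_pow_left₀ htpos.le h1 _
          _ = ((t + 1) / 2) ^ 20 := by rw [← pow_mul]
      calc x ≤ 1.1 * 10 ^ 27 * t ^ 10 := hxu
        _ ≤ ((t + 1) / 2) ^ 5080 * ((t + 1) / 2) ^ 20 :=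
          mul_le_mul (NUM_pow2 _ hy) h20 (by positivity) (by positivity)
        _ = ((t + 1) / 2) ^ 5100 := by rw [← pow_add]

end Pool.Agent.H427R2.SD
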