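import Pool.Agent.H427R2.SD.St

set_option autoImplicit false

/-! PEAK: low rank approximation. -/

namespace Pool.Agent.H427R2.SD

open Finset

theorem PEAK_cnt {ι : Type} [Fintype ι] (μ : ι → ℝ) (η : ℝ) : cnt μ η * η ≤ F μ η := by
  unfold cnt F
  rw [Finset.sum_mul]
  refine Finset.sum_le_sum fun k _ => ?_
  split_ifs with h
  · linarith
  · linarith

theorem PEAK_quad {ι : Type} [Fintype ι] (a : ι → ℝ) (v : ι → ι → ℝ) (x : ι → ℝ) :
    quad (fun i j => ∑ k, a k * v k i * v k j) x = ∑ k, a k * (∑ i, v k i * x i) ^ 2 := by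
  unfold quad
  have e1 : ∀ i j, (∑ k, a k * v k i * v k j) * x i * x j =
      ∑ k, a k * ((v k i * x i) * (v k j * x j)) := by
    intro i j
    rw [Finset.sum_mul, Finset.sum_mul]
    refine Finset.sum_congr rfl fun k _ => ?_
    ring
  simp only [e1]
  have e2 : ∀ k, a k * (∑ i, v k i * x i) ^ 2 =
      ∑ i, ∑ j, a k * ((v k i * x i) * (v k j * x j)) := by
    intro k
    rw [_root_.sq, Finset.sum_mul_sum, Finset.mul_sum]
    refine Finset.sum_congr rfl fun i _ => ?_
    rw [Finset.mul_sum]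
  simp only [e2]
  calc ∑ i, ∑ j, ∑ k, a k * ((v k i * x i) * (v k j * x j))
      = ∑ i, ∑ k, ∑ j, a k * ((v k i * x i) * (v k j * x j)) :=
        Finset.sum_congr rfl fun i _ => Finset.sum_comm
    _ = ∑ k, ∑ i, ∑ j, a k * ((v k i * x i) * (v k j * x j)) := Finset.sum_comm

theorem PEAK_top {ι : Type} [Fintype ι] [DecidableEq ι] (M : ι → ι → ℝ) (μ : ι → ℝ)
    (v : ι → ι → ℝ) (hD : Decomp M μ v) (c : ℝ) (hN : 0 < (Fintype.card ι : ℝ))
    (h : c * (Fintype.card ι : ℝ) ≤ ∑ i, ∑ j, M i j) : ∃ k, c ≤ μ k := by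
  obtain ⟨h0, ho, hc, hM⟩ := hD
  by_contra hcon
  push Not at hcon
  have e1 : ∑ i, ∑ j, M i j = ∑ k, μ k * (∑ i, v k i) ^ 2 := by
    have := PEAK_quad μ v (fun _ => 1)
    unfold quad at this
    simp only [mul_one] at this
    rw [← this]
    refine Finset.sum_congr rfl fun i _ => Finset.sum_congr rfl fun j _ => hM i j
  have e2 : ∑ k, (∑ i, v k i) ^ 2 = (Fintype.card ι : ℝ) := by
    have := PEAK_quad (fun _ => (1 : ℝ)) v (fun _ => 1)
    unfold quad at this
    simp only [mul_one, one_mul] at this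
    rw [← this]
    simp only [hc]
    simp
  have h1 : ∑ k, (c - μ k) * (∑ i, v k i) ^ 2 ≤ 0 := by
    have : ∑ k, (c - μ k) * (∑ i, v k i) ^ 2 =
        c * ∑ k, (∑ i, v k i) ^ 2 - ∑ k, μ k * (∑ i, v k i) ^ 2 := by
      rw [Finset.mul_sum, ← Finset.sum_sub_distrib]
      refine Finset.sum_congr rfl fun k _ => ?_
      ring
    rw [this, e2, ← e1]
    linarith
  have h2 : ∀ k ∈ univ, 0 ≤ (c - μ k) * (∑ i, v k i) ^ 2 := fun k _ =>
    mul_nonneg (by linarith [hcon k]) (sq_nonneg _)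
  have h3 : ∀ k ∈ univ, (c - μ k) * (∑ i, v k i) ^ 2 = 0 := by
    apply (Finset.sum_eq_zero_iff_of_nonneg h2).1
    exact le_antisymm h1 (Finset.sum_nonneg h2)
  have h4 : ∑ k, (∑ i, v k i) ^ 2 = 0 := by
    refine Finset.sum_eq_zero fun k hk => ?_
    rcases mul_eq_zero.1 (h3 k hk) with h5 | h5
    · exact absurd h5 (by linarith [hcon k])
    · exact h5
  rw [e2] at h4
  exact absurd h4 hN.ne'

theorem PEAK_frob {ι : Type} [Fintype ι] [DecidableEq ι] (a : ι → ℝ) (v : ι → ι → ℝ)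
    (ho : ∀ k l, ∑ i, v k i * v l i = if k = l then (1 : ℝ) else 0) :
    ∑ i, ∑ j, (∑ k, a k * v k i * v k j) ^ 2 = ∑ k, a k ^ 2 := by
  have e1 : ∀ i j, (∑ k, a k * v k i * v k j) ^ 2 =
      ∑ k, ∑ l, (a k * a l) * ((v k i * v l i) * (v k j * v l j)) := by
    intro i j
    rw [_root_.sq, Finset.sum_mul_sum]
    refine Finset.sum_congr rfl fun k _ => Finset.sum_congr rfl fun l _ => ?_
    ring
  simp only [e1]
  calc ∑ i, ∑ j, ∑ k, ∑ l, (a k * a l) * ((v k i * v l i) * (v k j * v l j))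
      = ∑ i, ∑ k, ∑ j, ∑ l, (a k * a l) * ((v k i * v l i) * (v k j * v l j)) :=
        Finset.sum_congr rfl fun i _ => Finset.sum_comm
    _ = ∑ k, ∑ i, ∑ j, ∑ l, (a k * a l) * ((v k i * v l i) * (v k j * v l j)) := Finset.sum_comm
    _ = ∑ k, ∑ i, ∑ l, ∑ j, (a k * a l) * ((v k i * v l i) * (v k j * v l j)) :=
        Finset.sum_congr rfl fun k _ => Finset.sum_congr rfl fun i _ => Finset.sum_comm
    _ = ∑ k, ∑ l, ∑ i, ∑ j, (a k * a l) * ((v k i * v l i) * (v k j * v l j)) :=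
        Finset.sum_congr rfl fun k _ => Finset.sum_comm
    _ = ∑ k, ∑ l, (a k * a l) * (if k = l then (1 : ℝ) else 0) := by
        refine Finset.sum_congr rfl fun k _ => Finset.sum_congr rfl fun l _ => ?_
        have : ∑ i, ∑ j, (a k * a l) * ((v k i * v l i) * (v k j * v l j)) =
            (a k * a l) * ((∑ i, v k i * v l i) * (∑ j, v k j * v l j)) := by
          rw [Finset.sum_mul_sum, Finset.mul_sum]
          refine Finset.sum_congr rfl fun i _ => ?_
          rw [Finset.mul_sum]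
        rw [this, ho k l]
        split_ifs <;> simp
    _ = ∑ k, a k ^ 2 := by
        refine Finset.sum_congr rfl fun k _ => ?_
        simp [_root_.sq]

theorem PEAK_geom (r : ℝ) (hr0 : 0 ≤ r) (hr : r ≤ 1 / 2) (n : ℕ) :
    ∑ i ∈ range n, r ^ i ≤ 2 := by
  induction n with
  | zero => simp
  | succ n ih =>
    rw [Finset.sum_range_succ', pow_zero]
    have : ∑ k ∈ range n, r ^ (k + 1) = r * ∑ k ∈ range n, r ^ k := by
      rw [Finset.mul_sum]
      refine Finset.sum_congr rfl fun k _ => ?_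
      rw [pow_succ]; ring
    rw [this]
    have h0 : 0 ≤ ∑ k ∈ range n, r ^ k := Finset.sum_nonneg fun k _ => pow_nonneg hr0 k
    nlinarith

/-- the tail of the spectrum -/
theorem PEAK_tail {ι : Type} [Fintype ι] (μ : ι → ℝ) (h0 : ∀ k, 0 ≤ μ k) (N w f : ℝ)
    (hN : 0 < N) (hw : 32 ≤ w) (hf0 : 0 ≤ f) (hfw : f < w)
    (hF : ∀ i : ℕ, F μ (N / w ^ (4 * (i + 1))) ≤ N * f * w ^ (2 * i)) :
    ∑ k, (if N / w ^ 4 ≤ μ k then 0 else μ k) ^ 2 ≤ 2 * N ^ 2 / w := by
  classical
  have hw0 : 0 < w := by linarith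
  -- exponents
  have hex : ∀ k, 0 < μ k → ∃ j : ℕ, N / w ^ (4 * (j + 1)) ≤ μ k := by
    intro k hk
    have h1 : ∃ n : ℕ, N / μ k < w ^ n := pow_unbounded_of_one_lt _ (by linarith)
    obtain ⟨n, hn⟩ := h1
    refine ⟨n, ?_⟩
    have h2 : w ^ n ≤ w ^ (4 * (n + 1)) := pow_le_pow_right₀ (by linarith) (by omega)
    rw [div_le_iff₀ (by positivity)]
    rw [div_lt_iff₀ hk] at hn
    nlinarith [mul_le_mul_of_nonneg_left h2 hk.le]
  choose! g hg using hex
  obtain ⟨J, hJ⟩ : ∃ J : ℕ, ∀ k, g k ≤ J :=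
    ⟨∑ k, g k, fun k => Finset.single_le_sum (f := g) (fun _ _ => Nat.zero_le _)
      (Finset.mem_univ k)⟩
  -- pointwise bound
  have hpt : ∀ k, (if N / w ^ 4 ≤ μ k then 0 else μ k) ^ 2 ≤
      ∑ i ∈ range (J + 1), N / w ^ (4 * (i + 1)) *
        (if N / w ^ (4 * (i + 1 + 1)) ≤ μ k then μ k else 0) := by
    intro k
    have hnn : ∀ i ∈ range (J + 1), 0 ≤ N / w ^ (4 * (i + 1)) *
        (if N / w ^ (4 * (i + 1 + 1)) ≤ μ k then μ k else 0) := by
      intro i _
      apply mul_nonneg (by positivity)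
      split_ifs
      · exact h0 k
      · exact le_refl 0
    by_cases h1 : N / w ^ 4 ≤ μ k
    · rw [if_pos h1]
      simpa using Finset.sum_nonneg hnn
    · rw [if_neg h1]
      rcases (h0 k).eq_or_lt with h2 | h2
      · rw [← h2] at hnn ⊢
        have h9 := Finset.sum_nonneg hnn
        simp
      · have hP : ∃ j : ℕ, N / w ^ (4 * (j + 1)) ≤ μ k := ⟨g k, hg k h2⟩
        set m := Nat.find hP with hm
        have hm1 : N / w ^ (4 * (m + 1)) ≤ μ k := Nat.find_spec hP
        have hm2 : m ≤ g k := Nat.find_min' hP (hg k h2)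
        have hm0 : m ≠ 0 := by
          intro h3
          rw [h3] at hm1
          simp only [zero_add, mul_one] at hm1
          exact h1 hm1
        obtain ⟨i, hi⟩ : ∃ i, m = i + 1 := ⟨m - 1, by omega⟩
        have hm3 : ¬ N / w ^ (4 * (i + 1)) ≤ μ k := Nat.find_min hP (by omega)
        have hiJ : i ∈ range (J + 1) := by
          rw [Finset.mem_range]
          have := hJ k
          omega
        refine le_trans ?_ (Finset.single_le_sum hnn hiJ)
        rw [hi] at hm1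
        rw [if_pos hm1]
        push Not at hm3
        nlinarith
  refine (Finset.sum_le_sum fun k _ => hpt k).trans ?_
  rw [Finset.sum_comm]
  have h3 : ∀ i ∈ range (J + 1), ∑ k, N / w ^ (4 * (i + 1)) *
      (if N / w ^ (4 * (i + 1 + 1)) ≤ μ k then μ k else 0) ≤
      N ^ 2 * f / w ^ 2 * (1 / w ^ 2) ^ i := by
    intro i _
    rw [← Finset.mul_sum]
    have h4 := hF (i + 1)
    unfold F at h4
    calc N / w ^ (4 * (i + 1)) * ∑ k, (if N / w ^ (4 * (i + 1 + 1)) ≤ μ k then μ k else 0)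
        ≤ N / w ^ (4 * (i + 1)) * (N * f * w ^ (2 * (i + 1))) := by gcongr
      _ = N ^ 2 * f / w ^ 2 * (1 / w ^ 2) ^ i := by
        rw [one_div, inv_pow, ← pow_mul]
        have e1 : w ^ (4 * (i + 1)) = w ^ (2 * (i + 1)) * w ^ (2 * (i + 1)) := by
          rw [← pow_add]; congr 1; ring
        have e2 : w ^ (2 * (i + 1)) = w ^ 2 * w ^ (2 * i) := by
          rw [← pow_add]; congr 1; ring
        rw [e1, e2]
        field_simp
  refine (Finset.sum_le_sum h3).trans ?_
  rw [← Finset.mul_sum]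
  have h5 : ∑ i ∈ range (J + 1), (1 / w ^ 2) ^ i ≤ 2 := by
    apply PEAK_geom _ (by positivity)
    rw [div_le_div_iff₀ (by positivity) (by norm_num)]
    nlinarith
  calc N ^ 2 * f / w ^ 2 * ∑ i ∈ range (J + 1), (1 / w ^ 2) ^ i
      ≤ N ^ 2 * f / w ^ 2 * 2 := by gcongr
    _ ≤ N ^ 2 * w / w ^ 2 * 2 := by gcongr
    _ = 2 * N ^ 2 / w := by field_simp

theorem t_PEAK (h1 : S_SPEC) (h2 : S_LARGE) : S_PEAK := by
  classical
  intro ι _ _ A lam hA hlam hM p w hp hp1 hw hpw hpN hlN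
  obtain ⟨μ, v, hD⟩ := h1 ι (shift A lam) hM
  have hD' := hD
  obtain ⟨h0, ho, hc, hMk⟩ := hD'
  set N : ℝ := (Fintype.card ι : ℝ) with hNdef
  have hN1 : 1 ≤ N := le_trans (one_le_pow₀ hlam) hlN
  have hN0 : 0 < N := by linarith
  have hw0 : 0 < w := by linarith
  have hw1 : 1 ≤ w := by linarith
  -- the values f_i
  let ff : ℕ → ℝ := fun i => F μ (N / w ^ (4 * (i + 1))) / N
  have hff : ∀ i, ff i * N = F μ (N / w ^ (4 * (i + 1))) := fun i =>
    div_mul_cancel₀ _ hN0.ne'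
  have hcnt : ∀ i, cnt μ (N / w ^ (4 * (i + 1))) ≤ ff i * w ^ (4 * (i + 1)) := by
    intro i
    have h3 := PEAK_cnt μ (N / w ^ (4 * (i + 1)))
    have h4 : 0 < N / w ^ (4 * (i + 1)) := by positivity
    rw [← le_div_iff₀ h4] at h3
    refine h3.trans (le_of_eq ?_)
    simp only [ff]
    field_simp
  -- f_0 ≥ p
  have hsum : p * N * N ≤ ∑ i, ∑ j, shift A lam i j := by
    have e1 : ∑ i, ∑ j, shift A lam i j = ∑ i, ∑ j, A i j + lam * N := by
      unfold shift
      simp only [Finset.sum_add_distrib]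
      rw [hNdef]
      simp [mul_comm]
    rw [e1]
    have : 0 ≤ lam * N := by positivity
    nlinarith
  obtain ⟨k0, hk0⟩ := PEAK_top (shift A lam) μ v hD (p * N) hN0 hsum
  have hf0 : p ≤ ff 0 := by
    simp only [ff, zero_add, mul_one]
    rw [le_div_iff₀ hN0]
    have hle : N / w ^ 4 ≤ μ k0 := by
      refine le_trans ?_ hk0
      rw [div_le_iff₀ (by positivity)]
      have h5 : w ≤ w ^ 4 := by
        calc w = w ^ 1 := (pow_one w).symm
          _ ≤ w ^ 4 := pow_le_pow_right₀ hw1 (by norm_num)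
      have h6 : 1 ≤ p * w ^ 4 := hpw.trans (mul_le_mul_of_nonneg_left h5 hp.le)
      nlinarith
    refine hk0.trans ?_
    unfold F
    have : (if N / w ^ 4 ≤ μ k0 then μ k0 else 0) ≤ ∑ k, if N / w ^ 4 ≤ μ k then μ k else 0 := by
      apply Finset.single_le_sum (f := fun k => if N / w ^ 4 ≤ μ k then μ k else 0) _
        (Finset.mem_univ k0)
      intro k _
      split_ifs
      · exact h0 k
      · exact le_refl 0
    rw [if_pos hle] at this
    exact this
  have hlarge : ∀ i, 32 ≤ ff i → cnt μ (N / w ^ (4 * (i + 1))) ≤ ff i ^ 9 → False := by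
    intro i h3 h4
    have h5 := h2 ι A lam hA hlam μ v hD (N / w ^ (4 * (i + 1))) (ff i) (by positivity) (hff i)
      h3 h4
    rw [← hNdef] at h5
    linarith
  by_cases hall : ∀ i, ff i ≤ ff 0 * w ^ (2 * i)
  swap
  · -- case (a)
    exfalso
    push Not at hall
    obtain ⟨i, hi⟩ := hall
    have hi0 : i ≠ 0 := by
      rintro rfl
      simp at hi
    obtain ⟨j, rfl⟩ : ∃ j, i = j + 1 := ⟨i - 1, by omega⟩
    have h3 : w ^ (2 * j + 1) ≤ ff (j + 1) := by
      calc w ^ (2 * j + 1) ≤ (p * w) * w ^ (2 * j + 1) := by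
            have := pow_pos hw0 (2 * j + 1)
            nlinarith
        _ = p * w ^ (2 * (j + 1)) := by ring
        _ ≤ ff 0 * w ^ (2 * (j + 1)) := by gcongr
        _ ≤ ff (j + 1) := hi.le
    have h4 : w ≤ ff (j + 1) := by
      refine le_trans ?_ h3
      calc w = w ^ 1 := (pow_one w).symm
        _ ≤ w ^ (2 * j + 1) := pow_le_pow_right₀ hw1 (by omega)
    apply hlarge (j + 1) (hw.trans h4)
    refine (hcnt (j + 1)).trans ?_
    have h5 : w ^ (4 * (j + 1 + 1)) ≤ ff (j + 1) ^ 8 := by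
      calc w ^ (4 * (j + 1 + 1)) ≤ w ^ ((2 * j + 1) * 8) := pow_le_pow_right₀ hw1 (by omega)
        _ = (w ^ (2 * j + 1)) ^ 8 := by rw [pow_mul]
        _ ≤ ff (j + 1) ^ 8 := pow_le_pow_left₀ (by positivity) h3 8
    have h6 : 0 ≤ ff (j + 1) := by linarith
    calc ff (j + 1) * w ^ (4 * (j + 1 + 1)) ≤ ff (j + 1) * ff (j + 1) ^ 8 := by gcongr
      _ = ff (j + 1) ^ 9 := by ring
  -- case (b)
  have hfw : ff 0 < w := by
    by_contra hcon
    push Not at hcon
    apply hlarge 0 (hw.trans hcon)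
    refine (hcnt 0).trans ?_
    have h6 : 1 ≤ ff 0 := by linarith
    calc ff 0 * w ^ (4 * (0 + 1)) ≤ ff 0 * ff 0 ^ (4 * (0 + 1)) := by gcongr
      _ = ff 0 ^ 5 := by ring
      _ ≤ ff 0 ^ 9 := pow_le_pow_right₀ h6 (by norm_num)
  have hff0 : 0 ≤ ff 0 := hp.le.trans hf0
  -- case (c)
  set T : Finset ι := univ.filter (fun k => N / w ^ 4 ≤ μ k) with hT
  let u : Fin T.card → ι → ℝ := fun a i =>
    Real.sqrt (μ (T.equivFin.symm a : ι)) * v (T.equivFin.symm a : ι) i
  have hsq : ∀ i j, sq u i j = ∑ k ∈ T, μ k * v k i * v k j := by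
    intro i j
    unfold sq
    have e1 : ∀ a, u a i * u a j = (fun x : T => μ (x : ι) * v (x : ι) i * v (x : ι) j)
        (T.equivFin.symm a) := by
      intro a
      simp only [u]
      have := Real.mul_self_sqrt (h0 (T.equivFin.symm a : ι))
      calc _ = (Real.sqrt (μ (T.equivFin.symm a : ι)) * Real.sqrt (μ (T.equivFin.symm a : ι))) *
            v (T.equivFin.symm a : ι) i * v (T.equivFin.symm a : ι) j := by ring
        _ = _ := by rw [this]
    simp only [e1]
    rw [Equiv.sum_comp T.equivFin.symm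
      (fun x : T => μ (x : ι) * v (x : ι) i * v (x : ι) j)]
    exact Finset.sum_coe_sort T (fun k => μ k * v k i * v k j)
  have hR : (fun i j => shift A lam i j - sq u i j) =
      fun i j => ∑ k, (if N / w ^ 4 ≤ μ k then 0 else μ k) * v k i * v k j := by
    funext i j
    rw [hMk i j, hsq i j, hT, Finset.sum_filter, ← Finset.sum_sub_distrib]
    refine Finset.sum_congr rfl fun k _ => ?_
    split_ifs <;> ring
  refine ⟨T.card, u, ?_, ?_, ?_⟩
  · rw [hR]
    refine ⟨fun i j => Finset.sum_congr rfl fun k _ => by ring, fun x => ?_⟩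
    rw [PEAK_quad]
    refine Finset.sum_nonneg fun k _ => mul_nonneg ?_ (sq_nonneg _)
    split_ifs
    · exact le_refl 0
    · exact h0 k
  · have e1 : (T.card : ℝ) = cnt μ (N / w ^ (4 * (0 + 1))) := by
      have h40 : 4 * (0 + 1) = 4 := rfl
      unfold cnt
      rw [h40, hT, Finset.card_filter]
      push_cast
      rfl
    rw [e1]
    refine (hcnt 0).trans ?_
    calc ff 0 * w ^ (4 * (0 + 1)) ≤ w * w ^ (4 * (0 + 1)) := by gcongr
      _ = w ^ 5 := by ring
  · have e1 : ∀ i j, shift A lam i j - sq u i j =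
        ∑ k, (if N / w ^ 4 ≤ μ k then 0 else μ k) * v k i * v k j := fun i j =>
      congrFun (congrFun hR i) j
    simp only [e1]
    rw [PEAK_frob _ v ho]
    apply PEAK_tail μ h0 N w (ff 0) hN0 hw hff0 hfw
    intro i
    rw [← hff i]
    have := hall i
    calc ff i * N ≤ (ff 0 * w ^ (2 * i)) * N := by gcongr
      _ = N * ff 0 * w ^ (2 * i) := by ring

end Pool.Agent.H427R2.SD
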