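import Pool.Agent.H427R2.SD.St

set_option autoImplicit false

namespace Pool.Agent.H427R2.SD

open Finset

theorem PT_deg {ι : Type} [Fintype ι] [DecidableEq ι] (A : ι → ι → ℝ) (hA : IsAdj A) (v : ι)
    (g : ι → ℝ) : ∑ w, A v w * g w = ∑ w ∈ univ.filter (fun w => A v w = 1), g w := by
  rw [Finset.sum_filter]
  refine Finset.sum_congr rfl fun w _ => ?_
  rcases hA.2.2 v w with h | h
  · rw [h, if_neg (by norm_num)]; ring
  · rw [h, if_pos rfl]; ring

theorem PT_quad_sq {ι : Type} [Fintype ι] {K : ℕ} (u : Fin K → ι → ℝ) (y : ι → ℝ) :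
    quad (sq u) y = ∑ a, (∑ i, u a i * y i) ^ 2 := by
  unfold quad sq
  have : ∀ a, (∑ i, u a i * y i) ^ 2 = ∑ i, ∑ j, (u a i * u a j) * y i * y j := by
    intro a
    rw [_root_.sq, Finset.sum_mul_sum]
    exact Finset.sum_congr rfl fun i _ => Finset.sum_congr rfl fun j _ => by ring
  simp_rw [this, Finset.sum_mul]
  rw [Finset.sum_comm' (s := univ) (t := fun _ => univ) (t' := univ) (s' := fun _ => univ) (by simp)]
  calc ∑ j, ∑ i, ∑ a, u a i * u a j * y i * y j
      = ∑ j, ∑ a, ∑ i, u a i * u a j * y i * y j :=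
        Finset.sum_congr rfl fun j _ => Finset.sum_comm
    _ = ∑ a, ∑ j, ∑ i, u a i * u a j * y i * y j := Finset.sum_comm
    _ = _ := Finset.sum_congr rfl fun a _ => Finset.sum_comm

theorem PT_ind {ι : Type} [Fintype ι] [DecidableEq ι] (X : Finset ι) (g : ι → ℝ) :
    ∑ i, g i * (if i ∈ X then (1 : ℝ) else 0) = ∑ i ∈ X, g i := by
  simp

theorem PT_quad_shift {ι : Type} [Fintype ι] [DecidableEq ι] (A : ι → ι → ℝ) (lam : ℝ)
    (X : Finset ι) :
    quad (shift A lam) (fun i => if i ∈ X then (1 : ℝ) else 0) = e2 A X + lam * X.card := by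
  unfold quad shift e2
  have h1 : ∀ i, ∑ j, (A i j + if i = j then lam else 0) * (if i ∈ X then (1 : ℝ) else 0) *
      (if j ∈ X then (1 : ℝ) else 0) = (∑ j ∈ X, (A i j + if i = j then lam else 0)) *
        (if i ∈ X then (1 : ℝ) else 0) := by
    intro i
    rw [← PT_ind X (fun j => A i j + if i = j then lam else 0), Finset.sum_mul]
    exact Finset.sum_congr rfl fun j _ => by ring
  simp_rw [h1]
  rw [PT_ind]
  simp_rw [Finset.sum_add_distrib]
  congr 1
  have : ∀ i ∈ X, ∑ j ∈ X, (if i = j then lam else 0) = lam := by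
    intro i hi
    simp [hi]
  rw [Finset.sum_congr rfl this, Finset.sum_const, nsmul_eq_mul, mul_comm]

/-- the numerical core -/
theorem PT_num (p N d E lam P S : ℝ) (hp : 0 < p) (hp1 : p < 0.95) (hN : 0 < N)
    (hE0 : 0 ≤ E) (hd : 0.95 * (p * N) ≤ d) (hlam : 1 ≤ lam) (hlam2 : 2000 * lam ≤ p ^ 2 * N)
    (hext : E ^ 100 * N ^ 199 ≤ (p * N ^ 2) ^ 100 * d ^ 199) (hP : 0 ≤ P)
    (hS : 0.9954 * d ≤ S) (hCS : S ^ 2 ≤ P * (E + lam * d)) : tau p ≤ P := by
  have hd0 : 0 < d := lt_of_lt_of_le (by positivity) hd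
  have hN2 : N ≤ d / (0.95 * p) := by
    rw [le_div_iff₀ (by positivity)]
    linarith
  -- E^100 ≤ p^99/0.95 * d^200
  have h1 : E ^ 100 ≤ p ^ 99 / 0.95 * d ^ 200 := by
    have h2 : E ^ 100 * N ^ 199 ≤ (p ^ 100 * N * d ^ 199) * N ^ 199 := by
      calc E ^ 100 * N ^ 199 ≤ (p * N ^ 2) ^ 100 * d ^ 199 := hext
        _ = (p ^ 100 * N * d ^ 199) * N ^ 199 := by ring
    have h3 : E ^ 100 ≤ p ^ 100 * N * d ^ 199 := le_of_mul_le_mul_right h2 (by positivity)
    calc E ^ 100 ≤ p ^ 100 * N * d ^ 199 := h3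
      _ ≤ p ^ 100 * (d / (0.95 * p)) * d ^ 199 := by
        refine mul_le_mul_of_nonneg_right ?_ (by positivity)
        exact mul_le_mul_of_nonneg_left hN2 (by positivity)
      _ = p ^ 99 / 0.95 * d ^ 200 := by
        field_simp
  have hlamd : lam ≤ 0.00053 * p * d := by
    have : p ^ 2 * N ≤ p * (d / 0.95) := by
      have h4 : p * N ≤ d / 0.95 := by
        rw [le_div_iff₀ (by norm_num)]; linarith
      calc p ^ 2 * N = p * (p * N) := by ring
        _ ≤ _ := mul_le_mul_of_nonneg_left h4 hp.le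
    have h5 : p * (d / 0.95) = p * d / 0.95 := by ring
    have h6 : 0 < p * d := by positivity
    rw [h5] at this
    have h7 : 2000 * lam ≤ p * d / 0.95 := hlam2.trans this
    rw [le_div_iff₀ (by norm_num)] at h7
    nlinarith
  -- the bound with a constant c
  have key : ∀ c : ℝ, 0 < c → p ^ 99 / 0.95 ≤ c ^ 100 →
      0.9908 ≤ P * (c + 0.00053 * p) := by
    intro c hc hpc
    have h2 : E ≤ c * d ^ 2 := by
      have h3 : E ^ 100 ≤ (c * d ^ 2) ^ 100 := by
        calc E ^ 100 ≤ p ^ 99 / 0.95 * d ^ 200 := h1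
          _ ≤ c ^ 100 * d ^ 200 := mul_le_mul_of_nonneg_right hpc (by positivity)
          _ = (c * d ^ 2) ^ 100 := by ring
      exact le_of_pow_le_pow_left₀ (by norm_num) (by positivity) h3
    have h4 : (0.9954 * d) ^ 2 ≤ S ^ 2 := pow_le_pow_left₀ (by positivity) hS 2
    have h5 : E + lam * d ≤ (c + 0.00053 * p) * d ^ 2 := by nlinarith
    have h6 : (0.9954 * d) ^ 2 ≤ P * ((c + 0.00053 * p) * d ^ 2) :=
      h4.trans (hCS.trans (mul_le_mul_of_nonneg_left h5 hP))
    have h7 : 0.9954 ^ 2 * d ^ 2 ≤ (P * (c + 0.00053 * p)) * d ^ 2 := by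
      calc 0.9954 ^ 2 * d ^ 2 = (0.9954 * d) ^ 2 := by ring
        _ ≤ _ := h6
        _ = _ := by ring
    have h8 := le_of_mul_le_mul_right h7 (by positivity)
    refine le_trans ?_ h8
    norm_num
  unfold tau
  split_ifs with h5
  · have h2 := key 0.96 (by norm_num) (by
      have : p ^ 99 ≤ 0.95 ^ 99 := pow_le_pow_left₀ hp.le hp1.le 99
      rw [div_le_iff₀ (by norm_num)]
      refine this.trans ?_
      norm_num)
    by_contra hcon
    push Not at hcon
    have h3 : P * (0.96 + 0.00053 * p) ≤ 1.03 * (0.96 + 0.00053 * 0.95) := by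
      refine mul_le_mul hcon.le ?_ (by positivity) (by norm_num)
      linarith
    have h4 : (1.03 : ℝ) * (0.96 + 0.00053 * 0.95) < 0.9908 := by norm_num
    linarith
  · push Not at h5
    set s := Real.sqrt p with hs
    have hs0 : 0 < s := Real.sqrt_pos.mpr hp
    have hss : s ^ 2 = p := Real.sq_sqrt hp.le
    have hs1 : s ≤ 0.45 := by
      by_contra hcon
      push Not at hcon
      nlinarith
    have h2 := key (0.98 * s) (by positivity) (by
      rw [div_le_iff₀ (by norm_num)]
      have h6 : p ^ 99 = s ^ 100 * p ^ 49 := by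
        rw [← hss]; ring
      have h7 : p ^ 49 ≤ (1 / 5) ^ 49 := pow_le_pow_left₀ hp.le h5.le 49
      rw [h6]
      calc s ^ 100 * p ^ 49 ≤ s ^ 100 * (1 / 5) ^ 49 :=
            mul_le_mul_of_nonneg_left h7 (by positivity)
        _ ≤ s ^ 100 * (0.98 ^ 100 * 0.95) := by
            refine mul_le_mul_of_nonneg_left ?_ (by positivity)
            norm_num
        _ = _ := by ring)
    rw [div_le_iff₀ hs0]
    by_contra hcon
    push Not at hcon
    have h3 : P * (0.98 * s + 0.00053 * p) ≤ 0.98 + 0.00053 * 0.45 := by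
      have h8 : P * (0.98 * s + 0.00053 * p) = (P * s) * (0.98 + 0.00053 * s) := by
        rw [← hss]; ring
      rw [h8]
      calc (P * s) * (0.98 + 0.00053 * s) ≤ 1 * (0.98 + 0.00053 * 0.45) := by
            refine mul_le_mul hcon.le ?_ (by positivity) (by norm_num)
            linarith
        _ = _ := by ring
    have h4 : (0.98 : ℝ) + 0.00053 * 0.45 < 0.9908 := by norm_num
    linarith

theorem t_PT : S_PT := by
  classical
  intro ι _ _ A lam hA hlam hPSD p hp hp1 he hext hmin hlam2 K u hR hsum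
  set N : ℝ := (Fintype.card ι : ℝ) with hN
  rcases Nat.eq_zero_or_pos (Fintype.card ι) with h0 | hpos
  · rw [hN, h0]; simp
  have hN0 : 0 < N := by rw [hN]; exact_mod_cast hpos
  -- the local defects
  set δ : ι → ℝ := fun v => ∑ w ∈ univ.filter (fun w => A v w = 1), (1 - sq u v w) ^ 2 with hδ
  have hδ0 : ∀ v, 0 ≤ δ v := fun v => Finset.sum_nonneg fun w _ => sq_nonneg _
  have hδle : ∀ v, δ v ≤ ∑ w, (shift A lam v w - sq u v w) ^ 2 := by
    intro v
    calc δ v = ∑ w ∈ univ.filter (fun w => A v w = 1), (shift A lam v w - sq u v w) ^ 2 := by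
          refine Finset.sum_congr rfl fun w hw => ?_
          rw [mem_filter] at hw
          have hne : v ≠ w := by
            rintro rfl
            rw [hA.1 v] at hw
            norm_num at hw
          unfold shift
          rw [if_neg hne, hw.2, add_zero]
      _ ≤ _ := Finset.sum_le_sum_of_subset_of_nonneg (Finset.filter_subset _ _)
          fun _ _ _ => sq_nonneg _
  have hδsum : ∑ v, δ v ≤ 1 / 10 ^ 5 * p * N ^ 2 :=
    (Finset.sum_le_sum fun v _ => hδle v).trans hsum
  set T : ℝ := 2 / 10 ^ 5 * (p * N) with hT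
  have hT0 : 0 < T := by positivity
  -- Markov
  have hmark : N / 2 ≤ ((univ.filter (fun v => δ v ≤ T)).card : ℝ) := by
    have h1 : ((univ.filter (fun v => ¬ δ v ≤ T)).card : ℝ) * T ≤ ∑ v, δ v := by
      calc ((univ.filter (fun v => ¬ δ v ≤ T)).card : ℝ) * T
          = ∑ v ∈ univ.filter (fun v => ¬ δ v ≤ T), T := by
            rw [Finset.sum_const, nsmul_eq_mul]
        _ ≤ ∑ v ∈ univ.filter (fun v => ¬ δ v ≤ T), δ v := by
            refine Finset.sum_le_sum fun v hv => ?_
            rw [mem_filter] at hv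
            exact (not_le.mp hv.2).le
        _ ≤ _ := Finset.sum_le_sum_of_subset_of_nonneg (Finset.filter_subset _ _)
            fun v _ _ => hδ0 v
    have h2 : ((univ.filter (fun v => δ v ≤ T)).card : ℝ) +
        ((univ.filter (fun v => ¬ δ v ≤ T)).card : ℝ) = N := by
      have := Finset.card_filter_add_card_filter_not (s := (univ : Finset ι)) (fun v => δ v ≤ T)
      rw [Finset.card_univ] at this
      rw [hN, ← this]
      push_cast
      rfl
    have h3 : ((univ.filter (fun v => ¬ δ v ≤ T)).card : ℝ) * T ≤ N / 2 * T := by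
      refine (h1.trans hδsum).trans (le_of_eq ?_)
      rw [hT]; ring
    have h4 := le_of_mul_le_mul_right h3 hT0
    linarith
  refine hmark.trans ?_
  have hsub : univ.filter (fun v => δ v ≤ T) ⊆ univ.filter (fun i => tau p ≤ sq u i i) := by
    intro v hv
    rw [mem_filter] at hv ⊢
    refine ⟨mem_univ _, ?_⟩
    set X := univ.filter (fun w => A v w = 1) with hX
    have hdeg : deg A univ v = (X.card : ℝ) := by
      unfold deg
      have := PT_deg A hA v (fun _ => 1)
      simp only [mul_one] at this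
      rw [this]
      simp [hX]
    have hd : 0.95 * (p * N) ≤ (X.card : ℝ) := by
      have h1 := hmin v
      rw [he, hdeg] at h1
      have h2 : N * (0.95 * (p * N)) ≤ N * (X.card : ℝ) := by
        calc N * (0.95 * (p * N)) = 0.95 * (p * N ^ 2) := by ring
          _ ≤ _ := h1
      exact le_of_mul_le_mul_left h2 hN0
    have hXne : X.Nonempty := by
      rw [← Finset.card_pos]
      have : (0 : ℝ) < (X.card : ℝ) := lt_of_lt_of_le (by positivity) hd
      exact_mod_cast this
    have hE0 : 0 ≤ e2 A X := by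
      unfold e2
      refine Finset.sum_nonneg fun i _ => Finset.sum_nonneg fun j _ => ?_
      rcases hA.2.2 i j with h | h <;> rw [h]
      norm_num
    have hd0 : (0 : ℝ) < (X.card : ℝ) := by exact_mod_cast hXne.card_pos
    -- the sum over the neighbours
    have hSum : 0.9954 * (X.card : ℝ) ≤ ∑ w ∈ X, sq u v w := by
      have h1 : ∑ w ∈ X, sq u v w = (X.card : ℝ) - ∑ w ∈ X, (1 - sq u v w) := by
        rw [Finset.sum_sub_distrib]
        simp
      have h2 : (∑ w ∈ X, (1 - sq u v w)) ^ 2 ≤ (X.card : ℝ) * δ v := by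
        have := sq_sum_le_card_mul_sum_sq (s := X) (f := fun w => 1 - sq u v w)
        exact this
      have h3 : (X.card : ℝ) * δ v ≤ (0.0046 * (X.card : ℝ)) ^ 2 := by
        have h4 : δ v ≤ 2 / 10 ^ 5 * ((X.card : ℝ) / 0.95) := by
          refine hv.2.trans ?_
          rw [hT]
          refine mul_le_mul_of_nonneg_left ?_ (by norm_num)
          rw [le_div_iff₀ (by norm_num)]
          linarith
        calc (X.card : ℝ) * δ v ≤ (X.card : ℝ) * (2 / 10 ^ 5 * ((X.card : ℝ) / 0.95)) :=
              mul_le_mul_of_nonneg_left h4 hd0.le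
          _ = (2 / 10 ^ 5 / 0.95) * (X.card : ℝ) ^ 2 := by ring
          _ ≤ 0.0046 ^ 2 * (X.card : ℝ) ^ 2 := by
              refine mul_le_mul_of_nonneg_right ?_ (by positivity)
              norm_num
          _ = _ := by ring
      have h5 : ∑ w ∈ X, (1 - sq u v w) ≤ 0.0046 * (X.card : ℝ) := by
        exact (le_abs_self _).trans (abs_le_of_sq_le_sq (h2.trans h3) (by positivity))
      rw [h1]
      linarith
    have hCS : (∑ w ∈ X, sq u v w) ^ 2 ≤ sq u v v * (e2 A X + lam * X.card) := by
      have h1 : ∑ w ∈ X, sq u v w = ∑ a, u a v * ∑ w ∈ X, u a w := by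
        unfold sq
        rw [Finset.sum_comm]
        exact Finset.sum_congr rfl fun a _ => by rw [Finset.mul_sum]
      have h2 : (∑ a, u a v * ∑ w ∈ X, u a w) ^ 2 ≤
          (∑ a, (u a v) ^ 2) * ∑ a, (∑ w ∈ X, u a w) ^ 2 :=
        Finset.sum_mul_sq_le_sq_mul_sq _ _ _
      have h3 : ∑ a, (u a v) ^ 2 = sq u v v := by
        unfold sq
        exact Finset.sum_congr rfl fun a _ => by ring
      have h4 : ∑ a, (∑ w ∈ X, u a w) ^ 2 =
          quad (sq u) (fun i => if i ∈ X then (1 : ℝ) else 0) := by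
        rw [PT_quad_sq]
        exact Finset.sum_congr rfl fun a _ => by rw [PT_ind]
      have h5 : quad (sq u) (fun i => if i ∈ X then (1 : ℝ) else 0) ≤ e2 A X + lam * X.card := by
        rw [← PT_quad_shift]
        have h6 := hR.2 (fun i => if i ∈ X then (1 : ℝ) else 0)
        have h7 : quad (fun i j => shift A lam i j - sq u i j)
            (fun i => if i ∈ X then (1 : ℝ) else 0) =
            quad (shift A lam) (fun i => if i ∈ X then (1 : ℝ) else 0) -
            quad (sq u) (fun i => if i ∈ X then (1 : ℝ) else 0) := by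
          unfold quad
          rw [← Finset.sum_sub_distrib]
          refine Finset.sum_congr rfl fun i _ => ?_
          rw [← Finset.sum_sub_distrib]
          exact Finset.sum_congr rfl fun j _ => by ring
        rw [h7] at h6
        linarith
      rw [h1]
      refine h2.trans ?_
      rw [h3, h4]
      refine mul_le_mul_of_nonneg_left h5 ?_
      rw [← h3]
      exact Finset.sum_nonneg fun a _ => sq_nonneg _
    have hPv : 0 ≤ sq u v v := by
      unfold sq
      exact Finset.sum_nonneg fun a _ => mul_self_nonneg _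
    have hextX := hext X hXne
    rw [he] at hextX
    exact PT_num p N X.card (e2 A X) lam (sq u v v) _ hp hp1 hN0 hE0 hd hlam hlam2 hextX hPv
      hSum hCS
  exact_mod_cast Finset.card_le_card hsub

end Pool.Agent.H427R2.SD
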