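import Pool.Agent.H427R2.SD.St

set_option autoImplicit false

/-!
# RED: from acyclic simple digraphs to ordered graphs
-/

namespace Pool.Agent.H427R2.SD

open Finset

/-- a level function of an acyclic relation -/
theorem RED_level {n : ℕ} (adj : Fin n → Fin n → Prop)
    (h : ∀ v, ¬ Relation.TransGen adj v v) :
    ∃ lam : Fin n → ℕ, ∀ i j, adj i j → lam i < lam j := by
  classical
  have : Std.Irrefl (Relation.TransGen adj) := ⟨h⟩
  have hwf : WellFounded (Relation.TransGen adj) := Finite.wellFounded_of_trans_of_irrefl _
  have hwf2 : WellFounded adj :=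
    Subrelation.wf (fun {a b} hab => Relation.TransGen.single hab) hwf
  let lam : Fin n → ℕ := hwf2.fix
    (fun j ih => Finset.univ.sup (fun i => if hij : adj i j then ih i hij + 1 else 0))
  have hlam : ∀ j, lam j = Finset.univ.sup (fun i => if adj i j then lam i + 1 else 0) := by
    intro j
    show hwf2.fix _ j = _
    rw [WellFounded.fix_eq]
    apply Finset.sup_congr rfl
    intro i _
    by_cases hij : adj i j
    · simp only [hij, dite_true, if_true]; rfl
    · simp only [hij, dite_false, if_false]
  refine ⟨lam, ?_⟩
  intro i j hij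
  have : (fun i => if adj i j then lam i + 1 else 0) i ≤ lam j := by
    rw [hlam j]
    exact Finset.le_sup (f := fun i => if adj i j then lam i + 1 else 0) (Finset.mem_univ i)
  simp only [hij, if_true] at this
  omega

/-- a function which is affine in each coordinate attains its maximum over the cube at a
vertex -/
theorem RED_cube {N : ℕ} (a : Fin N → Fin N → ℝ) (ha : ∀ i, a i i = 0) (M : ℝ)
    (hM : ∀ x : Fin N → ℝ, (∀ i, x i = 1 ∨ x i = -1) →
      ∑ i, ∑ j, a i j * ((1 + x i) * (1 - x j)) ≤ M) :
    ∀ (k : ℕ) (x : Fin N → ℝ), (∀ i, |x i| ≤ 1) →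
      (univ.filter (fun i => ¬ (x i = 1 ∨ x i = -1))).card ≤ k →
      ∑ i, ∑ j, a i j * ((1 + x i) * (1 - x j)) ≤ M := by
  classical
  intro k
  induction k with
  | zero =>
    intro x _ hk
    refine hM x fun i => ?_
    by_contra h
    have h1 : i ∈ univ.filter (fun i => ¬ (x i = 1 ∨ x i = -1)) := by
      rw [mem_filter]
      exact ⟨mem_univ _, h⟩
    have := Finset.card_pos.2 ⟨i, h1⟩
    omega
  | succ k ih =>
    intro x hx hk
    by_cases hall : ∀ i, x i = 1 ∨ x i = -1
    · exact hM x hall
    · push Not at hall
      obtain ⟨i0, hi1, hi2⟩ := hall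
      have hup : ∀ t : ℝ, (t = 1 ∨ t = -1) → ∑ i, ∑ j, a i j *
          ((1 + Function.update x i0 t i) * (1 - Function.update x i0 t j)) ≤ M := by
        intro t ht
        refine ih _ ?_ ?_
        · intro i
          by_cases h : i = i0
          · subst h
            rw [Function.update_self]
            rcases ht with h | h <;> simp [h]
          · rw [Function.update_of_ne h]
            exact hx i
        · have hsub : univ.filter (fun i => ¬ (Function.update x i0 t i = 1 ∨
              Function.update x i0 t i = -1)) ⊂ univ.filter (fun i => ¬ (x i = 1 ∨ x i = -1)) := by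
            rw [Finset.ssubset_iff_of_subset]
            · refine ⟨i0, ?_, ?_⟩
              · rw [mem_filter]
                exact ⟨mem_univ _, fun h => h.elim hi1 hi2⟩
              · rw [mem_filter, Function.update_self]
                exact fun h => h.2 ht
            · intro i hi
              rw [mem_filter] at hi ⊢
              refine ⟨mem_univ _, ?_⟩
              by_cases h : i = i0
              · subst h
                exact fun h => h.elim hi1 hi2
              · rw [Function.update_of_ne h] at hi
                exact hi.2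
          have := Finset.card_lt_card hsub
          omega
      have h1 := hup 1 (Or.inl rfl)
      have h2 := hup (-1) (Or.inr rfl)
      have hx0 := abs_le.1 (hx i0)
      have key : ∑ i, ∑ j, a i j * ((1 + x i) * (1 - x j)) =
          (1 + x i0) / 2 * (∑ i, ∑ j, a i j *
            ((1 + Function.update x i0 1 i) * (1 - Function.update x i0 1 j))) +
          (1 - x i0) / 2 * (∑ i, ∑ j, a i j *
            ((1 + Function.update x i0 (-1) i) * (1 - Function.update x i0 (-1) j))) := by
        rw [Finset.mul_sum, Finset.mul_sum, ← Finset.sum_add_distrib]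
        refine Finset.sum_congr rfl fun i _ => ?_
        rw [Finset.mul_sum, Finset.mul_sum, ← Finset.sum_add_distrib]
        refine Finset.sum_congr rfl fun j _ => ?_
        by_cases hi : i = i0
        · by_cases hj : j = i0
          · rw [hi, hj, ha]
            ring
          · rw [hi, Function.update_self, Function.update_self, Function.update_of_ne hj,
              Function.update_of_ne hj]
            ring
        · by_cases hj : j = i0
          · rw [hj, Function.update_self, Function.update_self, Function.update_of_ne hi,
              Function.update_of_ne hi]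
            ring
          · rw [Function.update_of_ne hi, Function.update_of_ne hj, Function.update_of_ne hi,
              Function.update_of_ne hj]
            ring
      rw [key]
      have h3 : 0 ≤ (1 + x i0) / 2 := by linarith [hx0.1]
      have h4 : 0 ≤ (1 - x i0) / 2 := by linarith [hx0.2]
      nlinarith [mul_le_mul_of_nonneg_left h1 h3, mul_le_mul_of_nonneg_left h2 h4]

open Pool.Agent.Helper883.Dicut in
/-- RED: from acyclic simple digraphs to ordered graphs. -/
theorem t_RED : S_RED := by
  intro n w hw
  classical
  obtain ⟨hac, hval⟩ := hw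
  obtain ⟨lam, hlam⟩ := RED_level (fun a b => w a b ≠ 0) hac
  have hw0 : ∀ u v, 0 ≤ w u v := by
    intro u v
    rcases hval u v with h | h <;> rw [h]
    exact zero_le_one
  let P : Fin n → Prop := fun v => ∃ u, w v u ≠ 0 ∨ w u v ≠ 0
  let N : ℕ := Fintype.card {v // P v}
  let e : Fin N ≃ {v // P v} := (Fintype.equivFin _).symm
  let f : Fin N → ℕ := fun i => lam (e i)
  let σ : Equiv.Perm (Fin N) := Tuple.sort f
  let s : Fin N ≃ {v // P v} := σ.trans e
  have hmono : ∀ i j : Fin N, j ≤ i → lam (s j) ≤ lam (s i) := fun i j hij =>
    Tuple.monotone_sort f hij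
  let a : Fin N → Fin N → ℝ := fun i j => w (s i) (s j)
  have hlt : ∀ i j, a i j ≠ 0 → i < j := by
    intro i j h
    by_contra h1
    have h2 := hmono i j (not_lt.1 h1)
    have h3 := hlam _ _ h
    omega
  have hge : ∀ i j, ¬ i < j → a i j = 0 := by
    intro i j h
    by_contra h1
    exact h (hlt i j h1)
  have ha0 : ∀ i j, 0 ≤ a i j := fun i j => hw0 _ _
  have haii : ∀ i, a i i = 0 := fun i => hge i i (lt_irrefl i)
  have ha01 : ∀ i j, a i j = 0 ∨ a i j = 1 := fun i j => hval _ _
  have hsum : ∀ g : Fin n → ℝ, (∀ u, ¬ P u → g u = 0) → ∑ i, g (s i) = ∑ u, g u := by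
    intro g hg
    rw [Equiv.sum_comp s (fun v : {v // P v} => g v)]
    rw [← Finset.sum_subtype (univ.filter P) (by simp) g]
    refine Finset.sum_filter_of_ne fun u _ hu => ?_
    by_contra h
    exact hu (hg u h)
  have hsum2 : ∀ h : Fin n → Fin n → ℝ, (∀ u v, w u v = 0 → h u v = 0) →
      ∑ i, ∑ j, h (s i) (s j) = ∑ u, ∑ v, h u v := by
    intro h hh
    have e1 : ∀ u : Fin n, ∑ j, h u (s j) = ∑ v, h u v := by
      intro u
      refine hsum (h u) fun v hv => hh u v ?_
      by_contra h1
      exact hv ⟨u, Or.inr h1⟩
    rw [← hsum (fun u => ∑ v, h u v)]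
    · exact Finset.sum_congr rfl fun i _ => e1 _
    · intro u hu
      refine Finset.sum_eq_zero fun v _ => hh u v ?_
      by_contra h1
      exact hu ⟨v, Or.inl h1⟩
  have hm : ∑ i, ∑ j, a i j = totalWeight w := hsum2 w (fun u v h => h)
  have hadj : IsAdj (fun i j => a i j + a j i) := by
    refine ⟨fun i => ?_, fun i j => add_comm _ _, fun i j => ?_⟩
    · show a i i + a i i = 0
      rw [haii, add_zero]
    · show a i j + a j i = 0 ∨ a i j + a j i = 1
      rcases ha01 i j with h | h
      · rw [h, zero_add]
        exact ha01 j i
      · right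
        have h1 : i < j := hlt i j (by rw [h]; exact one_ne_zero)
        rw [h, hge j i (not_lt.2 h1.le), add_zero]
  refine ⟨N, fun i j => a i j + a j i, hadj, fun v => ?_, ?_, ?_⟩
  · obtain ⟨u, hu⟩ := (s v).2
    have hPu : P u := by
      rcases hu with h | h
      · exact ⟨s v, Or.inr h⟩
      · exact ⟨s v, Or.inl h⟩
    refine ⟨s.symm ⟨u, hPu⟩, ?_⟩
    have h1 : ((s (s.symm ⟨u, hPu⟩) : {v // P v}) : Fin n) = u := by
      rw [Equiv.apply_symm_apply]
    rcases hadj.2.2 v (s.symm ⟨u, hPu⟩) with h2 | h2
    · exfalso
      have h3 := ha0 v (s.symm ⟨u, hPu⟩)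
      have h4 := ha0 (s.symm ⟨u, hPu⟩) v
      have h5 : a v (s.symm ⟨u, hPu⟩) = 0 := by
        have h2' : a v (s.symm ⟨u, hPu⟩) + a (s.symm ⟨u, hPu⟩) v = 0 := h2
        linarith
      have h6 : a (s.symm ⟨u, hPu⟩) v = 0 := by
        have h2' : a v (s.symm ⟨u, hPu⟩) + a (s.symm ⟨u, hPu⟩) v = 0 := h2
        linarith
      rcases hu with h | h
      · apply h
        have : a v (s.symm ⟨u, hPu⟩) = w (s v) u := by
          show w (s v) (s (s.symm ⟨u, hPu⟩)) = _
          rw [h1]
        rw [← this]
        exact h5
      · apply h
        have : a (s.symm ⟨u, hPu⟩) v = w u (s v) := by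
          show w (s (s.symm ⟨u, hPu⟩)) (s v) = _
          rw [h1]
        rw [← this]
        exact h6
    · exact h2
  · unfold arcs
    have h1 : ∑ i, ∑ j, (a i j + a j i) = 2 * ∑ i, ∑ j, a i j := by
      simp only [Finset.sum_add_distrib]
      rw [Finset.sum_comm (f := fun i j => a j i)]
      ring
    rw [h1, hm]
    ring
  · intro x hx
    have hbal : ∀ v, bal (fun i j => a i j + a j i) v = ∑ u, a v u - ∑ u, a u v := by
      intro v
      unfold bal
      congr 1
      · refine Finset.sum_congr rfl fun u _ => ?_
        split_ifs with h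
        · show a v u + a u v = a v u
          rw [hge u v (not_lt.2 h.le), add_zero]
        · exact (hge v u h).symm
      · refine Finset.sum_congr rfl fun u _ => ?_
        split_ifs with h
        · show a v u + a u v = a u v
          rw [hge v u (not_lt.2 h.le), zero_add]
        · exact (hge u v h).symm
    have hG : ∑ v, bal (fun i j => a i j + a j i) v * x v -
        quad (fun i j => a i j + a j i) x / 2 =
        ∑ i, ∑ j, a i j * ((1 + x i) * (1 - x j)) - totalWeight w := by
      have e1 : ∑ v, bal (fun i j => a i j + a j i) v * x v =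
          ∑ i, ∑ j, a i j * x i - ∑ i, ∑ j, a i j * x j := by
        simp only [hbal, sub_mul, Finset.sum_mul, Finset.sum_sub_distrib]
        rw [Finset.sum_comm (f := fun i j => a j i * x i)]
      have e2 : quad (fun i j => a i j + a j i) x = 2 * ∑ i, ∑ j, a i j * x i * x j := by
        unfold quad
        have : ∑ i, ∑ j, (a i j + a j i) * x i * x j =
            ∑ i, ∑ j, a i j * x i * x j + ∑ i, ∑ j, a j i * x i * x j := by
          rw [← Finset.sum_add_distrib]
          refine Finset.sum_congr rfl fun i _ => ?_
          rw [← Finset.sum_add_distrib]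
          refine Finset.sum_congr rfl fun j _ => ?_
          ring
        rw [this, Finset.sum_comm (f := fun i j => a j i * x i * x j)]
        have : ∑ i, ∑ j, a i j * x j * x i = ∑ i, ∑ j, a i j * x i * x j := by
          refine Finset.sum_congr rfl fun i _ => Finset.sum_congr rfl fun j _ => ?_
          ring
        rw [this]
        ring
      rw [e1, e2, ← hm]
      have e3 : ∑ i, ∑ j, a i j * ((1 + x i) * (1 - x j)) = ∑ i, ∑ j, a i j +
          ∑ i, ∑ j, a i j * x i - ∑ i, ∑ j, a i j * x j - ∑ i, ∑ j, a i j * x i * x j := by
        simp only [← Finset.sum_add_distrib, ← Finset.sum_sub_distrib]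
        refine Finset.sum_congr rfl fun i _ => Finset.sum_congr rfl fun j _ => ?_
        ring
      rw [e3]
      ring
    rw [hG]
    have hmax := RED_cube a haii (4 * mac w) ?_ N x hx
      ((Finset.card_le_univ _).trans (by simp))
    · linarith
    · intro y hy
      let X : Finset (Fin n) := univ.filter (fun u => ∃ i, (s i : Fin n) = u ∧ y i = 1)
      have hX : ∀ i, (s i : Fin n) ∈ X ↔ y i = 1 := by
        intro i
        simp only [X, mem_filter, mem_univ, true_and]
        constructor
        · rintro ⟨j, hj, hy⟩
          have : j = i := s.injective (Subtype.ext hj)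
          rw [← this]
          exact hy
        · exact fun h => ⟨i, rfl, h⟩
      have h1 : cutWeight w X ≤ mac w :=
        le_ciSup (f := fun X => cutWeight w X) (Set.finite_range _).bddAbove X
      have h2 : cutWeight w X = ∑ u, ∑ v, (if u ∈ X ∧ v ∉ X then w u v else 0) := by
        unfold cutWeight
        rw [← Finset.sum_filter_add_sum_filter_not univ (fun u => u ∈ X)]
        have e1 : ∑ u ∈ univ.filter (fun u => ¬ u ∈ X), ∑ v,
            (if u ∈ X ∧ v ∉ X then w u v else 0) = 0 := by
          refine Finset.sum_eq_zero fun u hu => Finset.sum_eq_zero fun v _ => ?_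
          rw [mem_filter] at hu
          rw [if_neg (fun h => hu.2 h.1)]
        rw [e1, add_zero]
        have e2 : univ.filter (fun u => u ∈ X) = X := by ext; simp
        rw [e2]
        refine Finset.sum_congr rfl fun u hu => ?_
        rw [← Finset.sum_filter_add_sum_filter_not univ (fun v => v ∈ Xᶜ)]
        have e3 : ∑ v ∈ univ.filter (fun v => ¬ v ∈ Xᶜ),
            (if u ∈ X ∧ v ∉ X then w u v else 0) = 0 := by
          refine Finset.sum_eq_zero fun v hv => ?_
          rw [mem_filter, mem_compl, not_not] at hv
          rw [if_neg (fun h => h.2 hv.2)]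
        have e4 : univ.filter (fun u => u ∈ Xᶜ) = Xᶜ := by ext; simp
        rw [e3, add_zero, e4]
        refine Finset.sum_congr rfl fun v hv => ?_
        rw [mem_compl] at hv
        rw [if_pos ⟨hu, hv⟩]
      have h3 : ∑ i, ∑ j, a i j * ((1 + y i) * (1 - y j)) =
          4 * ∑ u, ∑ v, (if u ∈ X ∧ v ∉ X then w u v else 0) := by
        rw [← hsum2 (fun u v => if u ∈ X ∧ v ∉ X then w u v else 0)
          (fun u v h => by simp only [h, ite_self]), Finset.mul_sum]
        refine Finset.sum_congr rfl fun i _ => ?_
        rw [Finset.mul_sum]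
        refine Finset.sum_congr rfl fun j _ => ?_
        simp only [hX]
        show a i j * ((1 + y i) * (1 - y j)) = 4 * (if y i = 1 ∧ ¬ y j = 1 then a i j else 0)
        rcases hy i with h | h
        · rcases hy j with h' | h'
          · rw [h, h']
            simp
          · rw [h, h']
            norm_num
            ring
        · rw [h]
          norm_num
      rw [h3, ← h2]
      linarith

end Pool.Agent.H427R2.SD
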