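import Pool.Agent.H427R2.SD.St

set_option autoImplicit false

/-! Task ROUND: rounding a vector solution by signs. -/

namespace Pool.Agent.H427R2.SD

open Finset

theorem ROUND_par {ι : Type} [Fintype ι] (A : ι → ι → ℝ) (g z : ι → ℝ) :
    quad A (fun i => g i + z i) + quad A (fun i => g i - z i) = 2 * quad A g + 2 * quad A z := by
  unfold quad
  rw [← sum_add_distrib, mul_sum, mul_sum, ← sum_add_distrib]
  refine sum_congr rfl fun i _ => ?_
  rw [← sum_add_distrib, mul_sum, mul_sum, ← sum_add_distrib]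
  refine sum_congr rfl fun j _ => ?_
  ring

theorem ROUND_cosh {ι : Type} [Fintype ι] (K g z : ι → ℝ) (R : ℝ) :
    ∑ i, K i * Real.cosh (R * (g i + z i)) + ∑ i, K i * Real.cosh (R * (g i - z i)) =
      2 * ∑ i, K i * (Real.cosh (R * g i) * Real.cosh (R * z i)) := by
  rw [← sum_add_distrib, mul_sum]
  refine sum_congr rfl fun i _ => ?_
  rw [mul_add, mul_sub, Real.cosh_add, Real.cosh_sub]
  ring

/-- choice of the signs -/
theorem ROUND_ind {ι : Type} [Fintype ι] (A : ι → ι → ℝ) (R : ℝ) (K : ι → ℝ) (J : Finset ι)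
    (r : ℕ) : ∀ (z : Fin r → ι → ℝ) (g0 : ι → ℝ), (∀ a i, i ∉ J → z a i = 0) →
    (∀ i, i ∉ J → g0 i = 0) → ∃ g : ι → ℝ, (∀ i, i ∉ J → g i = 0) ∧
      - quad A g0 - ∑ a, quad A (z a) -
        ∑ i, K i * (Real.cosh (R * g0 i) * ∏ a, Real.cosh (R * z a i)) ≤
      - quad A g - ∑ i, K i * Real.cosh (R * g i) := by
  induction r with
  | zero =>
    intro z g0 _ hg
    exact ⟨g0, hg, by simp⟩
  | succ r ih =>
    intro z g0 hz hg
    set K' : ι → ℝ := fun i => K i * ∏ a : Fin r, Real.cosh (R * z a.succ i) with hK'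
    have h1 := ROUND_par A g0 (z 0)
    have h2 := ROUND_cosh K' g0 (z 0) R
    have key : ∃ g1 : ι → ℝ, (∀ i, i ∉ J → g1 i = 0) ∧
        - quad A g0 - quad A (z 0) - ∑ i, K' i * (Real.cosh (R * g0 i) * Real.cosh (R * z 0 i)) ≤
        - quad A g1 - ∑ i, K' i * Real.cosh (R * g1 i) := by
      by_contra hcon
      push Not at hcon
      have c1 := hcon (fun i => g0 i + z 0 i) (fun i hi => by rw [hg i hi, hz 0 i hi, add_zero])
      have c2 := hcon (fun i => g0 i - z 0 i) (fun i hi => by rw [hg i hi, hz 0 i hi, sub_zero])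
      linarith
    obtain ⟨g1, hg1, hk⟩ := key
    obtain ⟨g, hgJ, hfin⟩ := ih (fun a => z a.succ) g1 (fun a i hi => hz _ i hi) hg1
    refine ⟨g, hgJ, le_trans ?_ hfin⟩
    rw [Fin.sum_univ_succ]
    have e1 : ∑ i, K i * (Real.cosh (R * g0 i) * ∏ a : Fin (r + 1), Real.cosh (R * z a i)) =
        ∑ i, K' i * (Real.cosh (R * g0 i) * Real.cosh (R * z 0 i)) := by
      refine sum_congr rfl fun i _ => ?_
      rw [Fin.prod_univ_succ, hK']
      ring
    have e2 : ∑ i, K i * (Real.cosh (R * g1 i) * ∏ a : Fin r, Real.cosh (R * z a.succ i)) =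
        ∑ i, K' i * Real.cosh (R * g1 i) := by
      refine sum_congr rfl fun i _ => ?_
      rw [hK']
      ring
    rw [e1, e2]
    linarith

theorem ROUND_tail {R M : ℝ} (hR : 2 ≤ R ^ 2) (hR0 : 0 < R) (hM : R ≤ M) :
    M ^ 2 ≤ 2 * R ^ 2 * Real.exp (-R ^ 2) * Real.cosh (R * M) := by
  set t := (M - R) / R with ht
  have ht0 : 0 ≤ t := div_nonneg (by linarith) hR0.le
  have hMt : M = R * (1 + t) := by rw [ht]; field_simp; ring
  have h1 : Real.exp (R * M) ≤ 2 * Real.cosh (R * M) := by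
    rw [Real.cosh_eq]
    have := Real.exp_pos (-(R * M))
    linarith
  have h2 : (1 + t) ^ 2 ≤ Real.exp (R ^ 2 * t) := by
    have h3 : 1 + t ≤ Real.exp t := by linarith [Real.add_one_le_exp t]
    calc (1 + t) ^ 2 ≤ Real.exp t ^ 2 := by gcongr
      _ = Real.exp (2 * t) := by rw [← Real.exp_nat_mul]; norm_num
      _ ≤ Real.exp (R ^ 2 * t) := Real.exp_le_exp.2 (mul_le_mul_of_nonneg_right hR ht0)
  have h3 : Real.exp (-R ^ 2) * Real.exp (R * M) = Real.exp (R ^ 2 * t) := by
    rw [← Real.exp_add]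
    congr 1
    rw [hMt]; ring
  calc M ^ 2 = R ^ 2 * (1 + t) ^ 2 := by rw [hMt]; ring
    _ ≤ R ^ 2 * Real.exp (R ^ 2 * t) := by gcongr
    _ = R ^ 2 * Real.exp (-R ^ 2) * Real.exp (R * M) := by rw [← h3]; ring
    _ ≤ R ^ 2 * Real.exp (-R ^ 2) * (2 * Real.cosh (R * M)) := by gcongr
    _ = _ := by ring

/-- the pointwise bound -/
theorem ROUND_pt {ι : Type} [Fintype ι] (A : ι → ι → ℝ) (hA : IsAdj A) (J : Finset ι)
    (s : ℝ) (hs : 0 ≤ s)
    (h : ∀ x : ι → ℝ, (∀ i, |x i| ≤ 1) → (∀ i, i ∉ J → x i = 0) → -quad A x ≤ s)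
    {R : ℝ} (hR : 2 ≤ R ^ 2) (hR0 : 0 < R) (g : ι → ℝ) (hg : ∀ i, i ∉ J → g i = 0) :
    -quad A g ≤ R ^ 2 * s +
      ∑ i, ((Fintype.card ι : ℝ) ^ 2 * (2 * R ^ 2 * Real.exp (-R ^ 2))) * Real.cosh (R * g i) := by
  set κ : ℝ := (Fintype.card ι : ℝ) ^ 2 * (2 * R ^ 2 * Real.exp (-R ^ 2)) with hκ
  have hκ0 : 0 ≤ κ := by positivity
  have hterm : ∀ i, 0 ≤ κ * Real.cosh (R * g i) := fun i =>
    mul_nonneg hκ0 (Real.cosh_pos _).le
  by_cases hall : ∀ i, |g i| ≤ R
  · have h1 := h (fun i => g i / R) (fun i => by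
      rw [abs_div, abs_of_pos hR0, div_le_one hR0]; exact hall i) (fun i hi => by
      rw [hg i hi, zero_div])
    have h2 : quad A (fun i => g i / R) = quad A g / R ^ 2 := by
      unfold quad
      rw [sum_div]
      refine sum_congr rfl fun i _ => ?_
      rw [sum_div]
      refine sum_congr rfl fun j _ => ?_
      field_simp
    rw [h2, ← neg_div, div_le_iff₀ (by positivity)] at h1
    have h3 : 0 ≤ ∑ i, κ * Real.cosh (R * g i) := sum_nonneg fun i _ => hterm i
    nlinarith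
  · push Not at hall
    obtain ⟨i0, hi0⟩ := hall
    obtain ⟨m, -, hm⟩ := exists_max_image univ (fun i => |g i|) ⟨i0, mem_univ i0⟩
    have hMR : R ≤ |g m| := hi0.le.trans (hm i0 (mem_univ _))
    have h1 : -quad A g ≤ (Fintype.card ι : ℝ) ^ 2 * |g m| ^ 2 := by
      unfold quad
      rw [← sum_neg_distrib]
      calc ∑ i, -(∑ j, A i j * g i * g j) ≤ ∑ i : ι, (Fintype.card ι : ℝ) * |g m| ^ 2 := by
            refine sum_le_sum fun i _ => ?_
            rw [← sum_neg_distrib]
            calc ∑ j, -(A i j * g i * g j) ≤ ∑ j : ι, |g m| ^ 2 := by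
                  refine sum_le_sum fun j _ => ?_
                  have hi := hm i (mem_univ i)
                  have hj := hm j (mem_univ j)
                  have h5 : |g i| * |g j| ≤ |g m| * |g m| :=
                    mul_le_mul hi hj (abs_nonneg _) (abs_nonneg _)
                  have h6 : -(g i * g j) ≤ |g i| * |g j| := by
                    rw [← abs_mul]; exact neg_le_abs _
                  rcases hA.2.2 i j with h4 | h4
                  · rw [h4]
                    have : -(0 * g i * g j) = 0 := by ring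
                    rw [this]; positivity
                  · rw [h4, one_mul]
                    nlinarith
              _ = (Fintype.card ι : ℝ) * |g m| ^ 2 := by
                  rw [sum_const, card_univ, nsmul_eq_mul]
        _ = (Fintype.card ι : ℝ) ^ 2 * |g m| ^ 2 := by
            rw [sum_const, card_univ, nsmul_eq_mul]; ring
    have h2 := ROUND_tail hR hR0 hMR
    have h3 : Real.cosh (R * |g m|) = Real.cosh (R * g m) := by
      rw [← Real.cosh_abs (R * g m), abs_mul, abs_of_pos hR0]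
    rw [h3] at h2
    have h4 : κ * Real.cosh (R * g m) ≤ ∑ i, κ * Real.cosh (R * g i) :=
      single_le_sum (f := fun i => κ * Real.cosh (R * g i)) (fun i _ => hterm i) (mem_univ m)
    have h5 : (Fintype.card ι : ℝ) ^ 2 * |g m| ^ 2 ≤ κ * Real.cosh (R * g m) := by
      rw [hκ, mul_assoc]
      exact mul_le_mul_of_nonneg_left h2 (by positivity)
    have h6 : 0 ≤ R ^ 2 * s := by positivity
    linarith

/-- ROUND -/
theorem t_ROUND : S_ROUND := by
  refine ⟨20, by norm_num, ?_⟩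
  intro ι _ _ A hA J s hs h r z hz hz1
  set N : ℝ := (Fintype.card ι : ℝ) with hN
  have hN0 : 0 ≤ N := Nat.cast_nonneg _
  have hlog : 0 ≤ Real.log (N + 1) := Real.log_nonneg (by linarith)
  set R : ℝ := Real.sqrt (20 * (1 + Real.log (N + 1))) with hRd
  have hR2 : R ^ 2 = 20 * (1 + Real.log (N + 1)) := Real.sq_sqrt (by positivity)
  have hR0 : 0 < R := Real.sqrt_pos.2 (by positivity)
  have hR : 2 ≤ R ^ 2 := by rw [hR2]; linarith
  obtain ⟨g, hg, hk⟩ := ROUND_ind A R
    (fun _ => (Fintype.card ι : ℝ) ^ 2 * (2 * R ^ 2 * Real.exp (-R ^ 2))) J r z (fun _ => 0) hz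
    (fun _ _ => rfl)
  have hpt := ROUND_pt A hA J s hs h hR hR0 g hg
  have h0 : quad A (fun _ => (0 : ℝ)) = 0 := by
    unfold quad; simp
  have hsum : ∑ i : ι, ((Fintype.card ι : ℝ) ^ 2 * (2 * R ^ 2 * Real.exp (-R ^ 2))) *
      (Real.cosh (R * 0) * ∏ a, Real.cosh (R * z a i)) ≤ R ^ 2 := by
    have hprod : ∀ i, ∏ a, Real.cosh (R * z a i) ≤ Real.exp (R ^ 2 / 2) := by
      intro i
      calc ∏ a, Real.cosh (R * z a i) ≤ ∏ a, Real.exp ((R * z a i) ^ 2 / 2) :=
            prod_le_prod (fun a _ => (Real.cosh_pos _).le) fun a _ =>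
              Real.cosh_le_exp_half_sq _
        _ = Real.exp (R ^ 2 / 2 * ∑ a, z a i ^ 2) := by
            rw [← Real.exp_sum, mul_sum]
            congr 1
            refine sum_congr rfl fun a _ => ?_
            ring
        _ ≤ Real.exp (R ^ 2 / 2) := by
            apply Real.exp_le_exp.2
            have := hz1 i
            nlinarith [sq_nonneg R]
    have h1 : ∀ i ∈ (univ : Finset ι), ((Fintype.card ι : ℝ) ^ 2 * (2 * R ^ 2 * Real.exp (-R ^ 2))) *
        (Real.cosh (R * 0) * ∏ a, Real.cosh (R * z a i)) ≤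
        N ^ 2 * (2 * R ^ 2 * Real.exp (-R ^ 2)) * Real.exp (R ^ 2 / 2) := by
      intro i _
      rw [mul_zero, Real.cosh_zero, one_mul]
      exact mul_le_mul_of_nonneg_left (hprod i) (by positivity)
    refine (sum_le_sum h1).trans ?_
    rw [sum_const, card_univ, nsmul_eq_mul, ← hN]
    have e1 : Real.exp (-R ^ 2) * Real.exp (R ^ 2 / 2) = Real.exp (-(R ^ 2 / 2)) := by
      rw [← Real.exp_add]; congr 1; ring
    have e2 : N * (N ^ 2 * (2 * R ^ 2 * Real.exp (-R ^ 2)) * Real.exp (R ^ 2 / 2)) =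
        R ^ 2 * (2 * N ^ 3 * Real.exp (-(R ^ 2 / 2))) := by
      rw [← e1]; ring
    rw [e2]
    have h2 : 2 * N ^ 3 ≤ Real.exp (R ^ 2 / 2) := by
      have h3 : R ^ 2 / 2 = 10 + 10 * Real.log (N + 1) := by rw [hR2]; ring
      rw [h3]
      have h4 : Real.exp (1 + 3 * Real.log (N + 1)) ≤ Real.exp (10 + 10 * Real.log (N + 1)) :=
        Real.exp_le_exp.2 (by linarith)
      refine le_trans ?_ h4
      rw [Real.exp_add]
      have h5 : Real.exp (3 * Real.log (N + 1)) = (N + 1) ^ 3 := by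
        rw [mul_comm, ← Real.rpow_def_of_pos (by linarith)]
        norm_cast
      rw [h5]
      have h6 : (2 : ℝ) ≤ Real.exp 1 := by
        have := Real.add_one_le_exp (1 : ℝ)
        linarith
      have h7 : N ^ 3 ≤ (N + 1) ^ 3 := by gcongr; linarith
      exact mul_le_mul h6 h7 (by positivity) (Real.exp_pos _).le
    have h3 : 2 * N ^ 3 * Real.exp (-(R ^ 2 / 2)) ≤ 1 := by
      rw [Real.exp_neg, ← div_eq_mul_inv, div_le_one (Real.exp_pos _)]
      exact h2
    nlinarith [sq_nonneg R]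
  rw [h0] at hk
  have h7 : 20 * (s + 1) * (1 + Real.log (N + 1)) = R ^ 2 * s + R ^ 2 := by rw [hR2]; ring
  rw [h7]
  linarith

end Pool.Agent.H427R2.SD
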