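import Pool.Agent.H427R2.SD.St

set_option autoImplicit false

namespace Pool.Agent.H427R2.SD

open Finset

theorem SCHUR_quad {ι : Type} [Fintype ι] (M : ι → ι → ℝ) (x : ι → ℝ) :
    quad M x = star x ⬝ᵥ (Matrix.mulVec (Matrix.of M) x) := by
  unfold quad
  simp only [dotProduct, Matrix.mulVec, Pi.star_apply, star_trivial, Matrix.of_apply, Finset.mul_sum]
  refine Finset.sum_congr rfl (fun i _ => Finset.sum_congr rfl (fun j _ => ?_))
  ring

theorem SCHUR_iff {ι : Type} [Fintype ι] (M : ι → ι → ℝ) :
    PSD M ↔ (Matrix.of M).PosSemidef := by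
  constructor
  · intro h
    refine Matrix.PosSemidef.of_dotProduct_mulVec_nonneg ?_ (fun x => ?_)
    · ext i j
      simp only [Matrix.conjTranspose_apply, Matrix.of_apply, star_trivial]
      exact h.1 j i
    · rw [← SCHUR_quad]
      exact h.2 x
  · intro h
    refine ⟨fun i j => ?_, fun x => ?_⟩
    · have := congrFun (congrFun h.isHermitian j) i
      simpa [Matrix.conjTranspose_apply] using this
    · rw [SCHUR_quad]
      exact h.dotProduct_mulVec_nonneg x

theorem t_SCHUR : S_SCHUR := by
  intro ι _ _ M P hM hP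
  rw [SCHUR_iff] at hM hP ⊢
  exact hM.hadamard hP

end Pool.Agent.H427R2.SD
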