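import Pool.Agent.H427R2.SD.St

set_option autoImplicit false

/-! Task SPEC: spectral theorem. -/

namespace Pool.Agent.H427R2.SD

open Finset Matrix

theorem t_SPEC : S_SPEC := by
  intro ι _ _ M hM
  set A : Matrix ι ι ℝ := Matrix.of M with hAdef
  have hA : A.IsHermitian := by
    ext i j
    simp [hAdef, Matrix.conjTranspose_apply, hM.1 j i]
  set U : Matrix ι ι ℝ := (hA.eigenvectorUnitary : Matrix ι ι ℝ) with hU
  have hUU : star U * U = 1 := Unitary.coe_star_mul_self hA.eigenvectorUnitary
  have hUU' : U * star U = 1 := Unitary.coe_mul_star_self hA.eigenvectorUnitary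
  have o1 : ∀ k l, ∑ i, U i k * U i l = if k = l then 1 else 0 := by
    intro k l
    have h := congrFun (congrFun hUU k) l
    rw [Matrix.mul_apply, Matrix.one_apply] at h
    simpa [Matrix.star_apply] using h
  have o2 : ∀ i j, ∑ k, U i k * U j k = if i = j then 1 else 0 := by
    intro i j
    have h := congrFun (congrFun hUU' i) j
    rw [Matrix.mul_apply, Matrix.one_apply] at h
    simpa [Matrix.star_apply] using h
  have hev : ∀ k i, ∑ j, M i j * U j k = hA.eigenvalues k * U i k := by
    intro k i
    have h := congrFun (hA.mulVec_eigenvectorBasis k) i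
    simpa [Matrix.mulVec, dotProduct, hAdef, hU] using h
  have dec : ∀ i j, M i j = ∑ k, hA.eigenvalues k * U i k * U j k := by
    intro i j
    calc M i j = ∑ l, M i l * (if l = j then 1 else 0) := by simp
      _ = ∑ l, M i l * ∑ k, U l k * U j k := by simp_rw [o2]
      _ = ∑ l, ∑ k, M i l * U l k * U j k := by
        refine Finset.sum_congr rfl fun l _ => ?_
        rw [Finset.mul_sum]
        refine Finset.sum_congr rfl fun k _ => by ring
      _ = ∑ k, ∑ l, M i l * U l k * U j k := Finset.sum_comm
      _ = _ := by
        refine Finset.sum_congr rfl fun k _ => ?_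
        rw [← Finset.sum_mul, hev]
  have hnn : ∀ k, 0 ≤ hA.eigenvalues k := by
    intro k
    have h := hM.2 (fun i => U i k)
    have h2 : quad M (fun i => U i k) = hA.eigenvalues k := by
      unfold quad
      calc ∑ i, ∑ j, M i j * U i k * U j k = ∑ i, U i k * ∑ j, M i j * U j k := by
            refine Finset.sum_congr rfl fun i _ => ?_
            rw [Finset.mul_sum]
            refine Finset.sum_congr rfl fun j _ => by ring
        _ = ∑ i, hA.eigenvalues k * (U i k * U i k) := by
            refine Finset.sum_congr rfl fun i _ => ?_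
            rw [hev]; ring
        _ = hA.eigenvalues k := by
            rw [← Finset.mul_sum, o1]; simp
    rwa [h2] at h
  exact ⟨hA.eigenvalues, fun k i => U i k, hnn, o1, o2, dec⟩

end Pool.Agent.H427R2.SD
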