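import Pool.Agent.H427R2.SD.St

set_option autoImplicit false

/-! Task ST: dense spot with large minimum degree. -/

namespace Pool.Agent.H427R2.SD

open Finset

section STaux

variable {ι : Type} [Fintype ι] [DecidableEq ι]

/-- extension by zero -/
noncomputable def ST_e (S : Finset ι) (x : S → ℝ) (i : ι) : ℝ :=
  if h : i ∈ S then x ⟨i, h⟩ else 0

theorem ST_e_coe (S : Finset ι) (x : S → ℝ) (i : S) : ST_e S x i = x i := by
  unfold ST_e
  rw [dif_pos i.2]

theorem ST_e_not (S : Finset ι) (x : S → ℝ) (i : ι) (hi : i ∉ S) : ST_e S x i = 0 := by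
  unfold ST_e
  rw [dif_neg hi]

theorem ST_sum_ext (S : Finset ι) (x : S → ℝ) (g : ι → ℝ → ℝ) (hg : ∀ i, g i 0 = 0) :
    ∑ i, g i (ST_e S x i) = ∑ i : S, g i (x i) := by
  have h1 : ∑ i : S, g i (x i) = ∑ i : S, g i (ST_e S x i) :=
    Finset.sum_congr rfl fun i _ => by rw [ST_e_coe]
  rw [h1, Finset.sum_coe_sort S (fun i => g i (ST_e S x i))]
  symm
  apply Finset.sum_subset (Finset.subset_univ S)
  intro i _ hi
  rw [ST_e_not S x i hi, hg]

theorem ST_quad_ext (M : ι → ι → ℝ) (S : Finset ι) (x : S → ℝ) :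
    quad M (ST_e S x) = quad (fun i j : S => M i j) x := by
  unfold quad
  have h1 : ∀ (i : ι) (a : ℝ), ∑ j, M i j * a * ST_e S x j = ∑ j : S, M i j * a * x j :=
    fun i a => ST_sum_ext S x (fun j b => M i j * a * b) (fun j => by ring)
  simp only [h1]
  exact ST_sum_ext S x (fun i a => ∑ j : S, M i j * a * x j) (fun i => by simp)

theorem ST_PSD_res (M : ι → ι → ℝ) (hM : PSD M) (S : Finset ι) :
    PSD (fun i j : S => M i j) := by
  refine ⟨fun i j => hM.1 i j, fun x => ?_⟩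
  rw [← ST_quad_ext]
  exact hM.2 _

omit [DecidableEq ι] in
theorem ST_quad_shift [DecidableEq ι] (A : ι → ι → ℝ) (lam : ℝ) (x : ι → ℝ) :
    quad (shift A lam) x = quad A x + lam * ∑ i, x i ^ 2 := by
  unfold quad shift
  rw [Finset.mul_sum, ← Finset.sum_add_distrib]
  apply Finset.sum_congr rfl
  intro i _
  have h1 : ∀ j, (A i j + if i = j then lam else 0) * x i * x j =
      A i j * x i * x j + if i = j then lam * x i * x j else 0 := by
    intro j
    split_ifs <;> ring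
  simp only [h1]
  rw [Finset.sum_add_distrib, Finset.sum_ite_eq univ i, if_pos (Finset.mem_univ _)]
  ring

theorem ST_shift_res (A : ι → ι → ℝ) (lam : ℝ) (S : Finset ι) :
    (fun i j : S => shift A lam i j) = shift (fun i j : S => A i j) lam := by
  funext i j
  unfold shift
  by_cases h : i = j
  · subst h
    simp
  · have h' : (i : ι) ≠ (j : ι) := fun h2 => h (Subtype.ext h2)
    rw [if_neg h, if_neg h']

theorem ST_PSD_shift (A : ι → ι → ℝ) (hA : IsAdj A) (lam : ℝ) (V S : Finset ι) (hS : S ⊆ V)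
    (hV : MinEig A V lam) : PSD (shift (fun i j : S => A i j) lam) := by
  refine ⟨fun i j => ?_, fun x => ?_⟩
  · unfold shift
    show A i j + _ = A j i + _
    rw [hA.2.1 i j]
    by_cases h : i = j
    · subst h; rfl
    · rw [if_neg h, if_neg (Ne.symm h)]
  · rw [ST_quad_shift, ← ST_quad_ext A S x]
    have h1 := hV (ST_e S x) (fun i hi => ST_e_not S x i (fun h => hi (hS h)))
    have h2 : ∑ i, ST_e S x i ^ 2 = ∑ i : S, x i ^ 2 :=
      ST_sum_ext S x (fun _ a => a ^ 2) (fun _ => by norm_num)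
    rwa [h2] at h1

theorem ST_e2_univ (A : ι → ι → ℝ) (S : Finset ι) :
    e2 (fun i j : S => A i j) univ = e2 A S := by
  unfold e2
  have h1 : ∀ i : ι, ∑ j : S, A i j = ∑ j ∈ S, A i j := fun i =>
    Finset.sum_coe_sort S (fun j => A i j)
  simp only [h1]
  exact Finset.sum_coe_sort S (fun i => ∑ j ∈ S, A i j)

theorem ST_deg_univ (A : ι → ι → ℝ) (S : Finset ι) (v : S) :
    deg (fun i j : S => A i j) univ v = deg A S v := by
  unfold deg
  exact Finset.sum_coe_sort S (fun j => A v j)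

theorem ST_e2_map (A : ι → ι → ℝ) (S : Finset ι) (X : Finset S) :
    e2 (fun i j : S => A i j) X = e2 A (X.map (Function.Embedding.subtype _)) := by
  unfold e2
  rw [Finset.sum_map]
  apply Finset.sum_congr rfl
  intro i _
  rw [Finset.sum_map]
  rfl

omit [Fintype ι] in
theorem ST_diag [Fintype ι] (M : ι → ι → ℝ) (hM : PSD M) (i : ι) : 0 ≤ M i i := by
  have h := hM.2 (fun j => if j = i then 1 else 0)
  unfold quad at h
  have h1 : ∀ a : ι, ∑ j, M a j * (if a = i then (1:ℝ) else 0) * (if j = i then (1:ℝ) else 0) =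
      if a = i then M i i else 0 := by
    intro a
    rw [Finset.sum_eq_single i]
    · by_cases ha : a = i
      · subst ha; simp
      · simp [ha]
    · intro j _ hj
      simp [hj]
    · intro hi
      exact absurd (Finset.mem_univ i) hi
  rw [Finset.sum_congr rfl (fun a _ => h1 a), Finset.sum_ite_eq' univ i,
    if_pos (Finset.mem_univ _)] at h
  exact h

/-- padding by zeros -/
noncomputable def ST_pad {K : ℕ} (K' : ℕ) (u : Fin K → ι → ℝ) (a : Fin K') : ι → ℝ :=
  if h : a.val < K then u ⟨a.val, h⟩ else fun _ => 0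

omit [Fintype ι] [DecidableEq ι] in
theorem ST_sq_pad {K K' : ℕ} (hK : K ≤ K') (u : Fin K → ι → ℝ) (i j : ι) :
    sq (ST_pad K' u) i j = sq u i j := by
  obtain ⟨m, rfl⟩ := Nat.exists_eq_add_of_le hK
  unfold sq
  rw [Fin.sum_univ_add]
  have h1 : ∑ a : Fin K, ST_pad (K + m) u (Fin.castAdd m a) i * ST_pad (K + m) u (Fin.castAdd m a) j
      = ∑ a, u a i * u a j := by
    apply Finset.sum_congr rfl
    intro a _
    unfold ST_pad
    rw [dif_pos (by simp : (Fin.castAdd m a).val < K)]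
    rfl
  have h2 : ∑ a : Fin m, ST_pad (K + m) u (Fin.natAdd K a) i * ST_pad (K + m) u (Fin.natAdd K a) j
      = 0 := by
    apply Finset.sum_eq_zero
    intro a _
    unfold ST_pad
    rw [dif_neg (by simp : ¬ (Fin.natAdd K a).val < K)]
    simp
  rw [h1, h2, add_zero]

omit [Fintype ι] [DecidableEq ι] in
theorem ST_adj_res (A : ι → ι → ℝ) (hA : IsAdj A) (S : Finset ι) :
    IsAdj (fun i j : S => A i j) :=
  ⟨fun i => hA.1 i, fun i j => hA.2.1 i j, fun i j => hA.2.2 i j⟩

end STaux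

/-- the case of a sparse extremal set leads to a small set -/
theorem ST_small (h1 : S_GL) (h2 : S_PEAK) (h5 : S_PT) (h6 : S_NUM)
    (κ : Type) [Fintype κ] [DecidableEq κ] (A : κ → κ → ℝ) (lam : ℝ) (hA : IsAdj A)
    (hlam : 2 ≤ lam) (hP : PSD (shift A lam)) (q : ℝ) (hq0 : 0 < q) (hq1 : q < 0.95)
    (he : e2 A univ = q * (Fintype.card κ : ℝ) ^ 2)
    (hX : ∀ X : Finset κ, X.Nonempty → e2 A X ^ 100 * (Fintype.card κ : ℝ) ^ 199 ≤
      e2 A univ ^ 100 * (X.card : ℝ) ^ 199)
    (hd : ∀ v, 0.95 * e2 A univ ≤ (Fintype.card κ : ℝ) * deg A univ v)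
    (hN : 2000 * lam ≤ q ^ 2 * (Fintype.card κ : ℝ))
    (hN2 : lam ^ 57 ≤ (Fintype.card κ : ℝ)) :
    (Fintype.card κ : ℝ) < 2 * lam ^ 15302 := by
  have hlam1 : 1 ≤ lam := by linarith
  have hcard : 0 < (Fintype.card κ : ℝ) := lt_of_lt_of_le (by positivity) hN2
  set w : ℝ := 2 * 10 ^ 5 / q with hw
  have hqw : q * w = 2 * 10 ^ 5 := by rw [hw]; field_simp
  have hw2 : 2 * 10 ^ 5 ≤ w := by
    rw [hw, le_div_iff₀ hq0]
    nlinarith
  have hw0 : 0 < w := by linarith
  obtain ⟨K, u, hu1, hu2, hu3⟩ := h2 κ A lam hA hlam1 hP q w hq0 (by linarith) (by linarith)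
    (by rw [hqw]; norm_num) (by rw [← he]; exact le_of_eq rfl) hN2
  have hu3' : ∑ i, ∑ j, (shift A lam i j - sq u i j) ^ 2 ≤
      1 / 10 ^ 5 * q * (Fintype.card κ : ℝ) ^ 2 := by
    refine hu3.trans (le_of_eq ?_)
    rw [div_eq_iff hw0.ne']
    calc 2 * (Fintype.card κ : ℝ) ^ 2 = 1 / 10 ^ 5 * (2 * 10 ^ 5) * (Fintype.card κ : ℝ) ^ 2 := by
          ring
      _ = 1 / 10 ^ 5 * (q * w) * (Fintype.card κ : ℝ) ^ 2 := by rw [hqw]
      _ = _ := by ring
  have hT := h5 κ A lam hA hlam1 hP q hq0 hq1 he hX hd hN K u hu1 hu3'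
  set S2 : Finset κ := univ.filter (fun i => tau q ≤ sq u i i) with hS2
  -- the padded family
  obtain ⟨K', hK'1, hK'2⟩ : ∃ K' : ℕ, w ^ 5 ≤ (K' : ℝ) ∧ (K' : ℝ) ≤ w ^ 5 + 1 :=
    ⟨⌈w ^ 5⌉₊, Nat.le_ceil _, (Nat.ceil_lt_add_one (by positivity)).le⟩
  have hKK : K ≤ K' := by exact_mod_cast hu2.trans hK'1
  have htau : 1 < tau q := by
    obtain ⟨a, -, -⟩ := h6 q (4 * K' / (tau q - 1)) K' hq0 hq1 hK'1 hK'2 (by
      by_cases h : tau q - 1 = 0
      · exfalso
        have h5' : tau q = 1 := by linarith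
        have h6' := h6 q 0 K' hq0 hq1 hK'1 hK'2
        unfold tau at h5'
        split_ifs at h5' with h7
        · norm_num at h5'
        · have h8 : Real.sqrt q < 1 := by
            rw [Real.sqrt_lt' one_pos]
            linarith
          have h9 : 0 < Real.sqrt q := Real.sqrt_pos.2 hq0
          rw [div_eq_iff h9.ne'] at h5'
          linarith
      · field_simp)
    linarith
  set x : ℝ := 4 * K' / (tau q - 1) with hx
  have hxe : x * (tau q - 1) = 4 * K' := by
    rw [hx, div_mul_cancel₀]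
    linarith
  obtain ⟨ht1, hx1, hx2⟩ := h6 q x K' hq0 hq1 hK'1 hK'2 hxe
  set σ : ℝ := (tau q + 1) / 2 with hσ
  have hσ1 : 1 < σ := by rw [hσ]; linarith
  -- there is an element of `S2`
  have hS2pos : 0 < (S2.card : ℝ) := lt_of_lt_of_le (by linarith) hT
  obtain ⟨i0, hi0⟩ : S2.Nonempty := Finset.card_pos.1 (by exact_mod_cast hS2pos)
  have hi0' : tau q ≤ sq u i0 i0 := (Finset.mem_filter.1 hi0).2
  have hdiag := ST_diag _ hu1 i0
  have htl : tau q ≤ lam := by
    have : shift A lam i0 i0 = lam := by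
      unfold shift
      rw [hA.1, if_pos rfl, zero_add]
    linarith
  have hσl : σ ≤ lam := by rw [hσ]; linarith
  -- the growth lemma
  have hPS : PSD (shift (fun i j : S2 => A i j) lam) := by
    rw [← ST_shift_res]
    exact ST_PSD_res _ hP S2
  have hPu : PSD (fun i j : S2 => shift (fun i j : S2 => A i j) lam i j -
      sq (ST_pad K' (fun a (i : S2) => u a i)) i j) := by
    have h7 := ST_PSD_res _ hu1 S2
    have h8 : (fun i j : S2 => shift (fun i j : S2 => A i j) lam i j -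
      sq (ST_pad K' (fun a (i : S2) => u a i)) i j) =
        fun i j : S2 => shift A lam i j - sq u i j := by
      funext i j
      rw [ST_sq_pad hKK, ← ST_shift_res]
      rfl
    rw [h8]
    exact h7
  have hGL := fun j : ℕ => h1 S2 (fun i j : S2 => A i j) lam (ST_adj_res A hA S2) hlam1 hPS K'
    (ST_pad K' (fun a (i : S2) => u a i)) hPu (tau q) x j htau (by
      intro i
      rw [ST_sq_pad hKK]
      exact (Finset.mem_filter.1 i.2).2) hxe hx1
  obtain ⟨j, hj1, hj2⟩ : ∃ j : ℕ, lam < σ ^ j ∧ σ ^ (j + 1) ≤ lam ^ 3 := by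
    obtain ⟨n, hn⟩ := pow_unbounded_of_one_lt lam hσ1
    classical
    have hex : ∃ n, lam < σ ^ n := ⟨n, hn⟩
    refine ⟨Nat.find hex, Nat.find_spec hex, ?_⟩
    have h0 : Nat.find hex ≠ 0 := by
      intro h0
      have := Nat.find_spec hex
      rw [h0, pow_zero] at this
      linarith
    obtain ⟨m, hm⟩ := Nat.exists_eq_succ_of_ne_zero h0
    have h7 : ¬ lam < σ ^ m := Nat.find_min hex (by omega)
    rw [hm]
    calc σ ^ (m.succ + 1) = σ ^ m * σ ^ 2 := by rw [← pow_add]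
      _ ≤ lam * lam ^ 2 := by
          apply mul_le_mul (not_lt.1 h7) (pow_le_pow_left₀ (by linarith) hσl 2) (by positivity)
            (by linarith)
      _ = lam ^ 3 := by ring
  have hlt : (Fintype.card S2 : ℝ) < lam ^ 2 * x ^ (j + 1) := by
    by_contra hcon
    have := hGL j (not_lt.1 hcon)
    linarith
  have hfin : lam ^ 2 * x ^ (j + 1) ≤ lam ^ 15302 := by
    have h7 : x ^ (j + 1) ≤ (lam ^ 3) ^ 5100 := by
      calc x ^ (j + 1) ≤ (σ ^ 5100) ^ (j + 1) := pow_le_pow_left₀ (by linarith) hx2 _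
        _ = (σ ^ (j + 1)) ^ 5100 := by rw [← pow_mul, ← pow_mul, mul_comm]
        _ ≤ (lam ^ 3) ^ 5100 := pow_le_pow_left₀ (by positivity) hj2 _
    calc lam ^ 2 * x ^ (j + 1) ≤ lam ^ 2 * (lam ^ 3) ^ 5100 :=
          mul_le_mul_of_nonneg_left h7 (by positivity)
      _ = lam ^ 15302 := by rw [← pow_mul, ← pow_add]
  rw [Fintype.card_coe] at hlt
  linarith

theorem t_ST (h1 : S_GL) (h2 : S_PEAK) (h3 : S_EXT) (h4 : S_MD) (h5 : S_PT) (h6 : S_NUM) :
    S_ST := by
  intro ι _ _ A lam hA hlam V hV p hp0 hp1 hp hbig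
  have hlam1 : 1 ≤ lam := by linarith
  have hL0 : 0 < lam ^ 15302 := by positivity
  have hVc : 0 < (V.card : ℝ) := by
    by_contra h
    have h7 : (V.card : ℝ) ≤ 0 := not_lt.1 h
    have h8 : p ^ 102 * (V.card : ℝ) ≤ 0 :=
      mul_nonpos_of_nonneg_of_nonpos (by positivity) h7
    linarith
  have hVne : V.Nonempty := Finset.card_pos.1 (by exact_mod_cast hVc)
  obtain ⟨S, hSV, hSne, hext, hSp, hSc⟩ := h3 ι A hA V p hVne hp0 hp
  have hS0 : 0 < (S.card : ℝ) := by exact_mod_cast Finset.card_pos.2 hSne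
  have hpN : 2000 * lam ^ 15302 ≤ p ^ 2 * (S.card : ℝ) := by
    calc 2000 * lam ^ 15302 ≤ p ^ 102 * (V.card : ℝ) := hbig
      _ = p ^ 2 * (p ^ 100 * (V.card : ℝ)) := by rw [← mul_assoc, ← pow_add]
      _ ≤ p ^ 2 * (S.card : ℝ) := mul_le_mul_of_nonneg_left hSc (by positivity)
  have hN : 2000 * lam ^ 15302 ≤ (S.card : ℝ) := by
    refine hpN.trans ?_
    have : p ^ 2 ≤ 1 := pow_le_one₀ hp0.le hp1
    nlinarith
  have hL1 : 1 ≤ lam ^ 15302 := one_le_pow₀ hlam1
  have h100 : 100 ≤ S.card := by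
    have : (100 : ℝ) ≤ S.card := by linarith
    exact_mod_cast this
  have he0 : 0 < e2 A S := lt_of_lt_of_le (by positivity) hSp
  have hext' : ∀ X ⊆ S, X.Nonempty →
      e2 A X ^ 100 * (S.card : ℝ) ^ 199 ≤ e2 A S ^ 100 * (X.card : ℝ) ^ 199 :=
    fun X hX hXn => hext X (hX.trans hSV) hXn
  have hMD := h4 ι A hA S h100 he0 hext'
  refine ⟨S, hSV, hSc, ?_⟩
  set q : ℝ := e2 A S / (S.card : ℝ) ^ 2 with hq
  have hqe : e2 A S = q * (S.card : ℝ) ^ 2 := by
    rw [hq, div_mul_cancel₀]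
    exact (pow_pos hS0 2).ne'
  have hpq : p ≤ q := by
    rw [hq, le_div_iff₀ (pow_pos hS0 2)]
    exact hSp
  have hq0 : 0 < q := by linarith
  by_cases hq1 : q < 0.95
  · exfalso
    have hcard : (Fintype.card S : ℝ) = (S.card : ℝ) := by rw [Fintype.card_coe]
    have hsm := ST_small h1 h2 h5 h6 S (fun i j : S => A i j) lam (ST_adj_res A hA S) hlam
      (ST_PSD_shift A hA lam V S hSV hV) q hq0 hq1
      (by rw [ST_e2_univ, hcard, hqe])
      (by
        intro X hX
        rw [ST_e2_univ, ST_e2_map, hcard]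
        have h7 := hext' (X.map (Function.Embedding.subtype _)) (by
          intro i hi
          obtain ⟨a, _, rfl⟩ := Finset.mem_map.1 hi
          exact a.2) (by simpa using hX)
        rwa [Finset.card_map] at h7)
      (by
        intro v
        rw [ST_e2_univ, ST_deg_univ, hcard]
        exact hMD v v.2)
      (by
        rw [hcard]
        have h7 : p ^ 2 ≤ q ^ 2 := pow_le_pow_left₀ hp0.le hpq 2
        have h8 : lam ≤ lam ^ 15302 := le_self_pow₀ hlam1 (by norm_num)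
        have h9 : p ^ 2 * (S.card : ℝ) ≤ q ^ 2 * (S.card : ℝ) :=
          mul_le_mul_of_nonneg_right h7 hS0.le
        linarith)
      (by
        rw [hcard]
        have h8 : lam ^ 57 ≤ lam ^ 15302 := pow_le_pow_right₀ hlam1 (by norm_num)
        linarith)
    rw [hcard] at hsm
    linarith
  · intro v hv
    have h7 := hMD v hv
    rw [hqe] at h7
    have h8 : 0.95 * (0.95 * (S.card : ℝ) ^ 2) ≤ (S.card : ℝ) * deg A S v := by
      refine le_trans ?_ h7
      have : 0.95 * (S.card : ℝ) ^ 2 ≤ q * (S.card : ℝ) ^ 2 :=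
        mul_le_mul_of_nonneg_right (not_lt.1 hq1) (sq_nonneg _)
      linarith
    have h9 : (S.card : ℝ) * (0.9 * (S.card : ℝ)) ≤ (S.card : ℝ) * deg A S v := by
      refine le_trans ?_ h8
      nlinarith [sq_nonneg (S.card : ℝ)]
    exact le_of_mul_le_mul_left h9 hS0

end Pool.Agent.H427R2.SD
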