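import Pool.Agent.H427R2.SD.St

set_option autoImplicit false

namespace Pool.Agent.H427R2.SD

open Finset

/-- a vector as an element of Euclidean space -/
noncomputable def TR_v {ι : Type} [Fintype ι] (f : ι → ℝ) : EuclideanSpace ℝ ι := WithLp.toLp 2 f

theorem TR_inner {ι : Type} [Fintype ι] (f g : ι → ℝ) :
    inner ℝ (TR_v f) (TR_v g) = ∑ i, f i * g i := by
  unfold TR_v
  rw [PiLp.inner_apply]
  refine Finset.sum_congr rfl (fun i _ => ?_)
  simp [mul_comm]

theorem TR_quad_sq {ι : Type} [Fintype ι] {r : ℕ} (u : Fin r → ι → ℝ) (x : ι → ℝ) :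
    quad (sq u) x = ∑ a, (∑ i, u a i * x i) ^ 2 := by
  unfold quad sq
  have h : ∀ a, (∑ i, u a i * x i) ^ 2 = ∑ i, ∑ j, u a i * u a j * x i * x j := by
    intro a
    rw [pow_two, Finset.sum_mul_sum]
    refine Finset.sum_congr rfl (fun i _ => Finset.sum_congr rfl (fun j _ => ?_))
    ring
  simp only [h, Finset.sum_mul]
  calc ∑ i, ∑ j, ∑ a, u a i * u a j * x i * x j
      = ∑ i, ∑ a, ∑ j, u a i * u a j * x i * x j :=
        Finset.sum_congr rfl (fun i _ => Finset.sum_comm)
    _ = ∑ a, ∑ i, ∑ j, u a i * u a j * x i * x j := Finset.sum_comm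

theorem t_TR : S_TR := by
  intro ι _ _ M μ v hD η c hη hc r w hP
  obtain ⟨hμ, hon, hon2, hM⟩ := hD
  -- orthonormal basis of the span
  let S : Submodule ℝ (EuclideanSpace ℝ ι) := Submodule.span ℝ (Set.range fun a => TR_v (w a))
  let b := stdOrthonormalBasis ℝ S
  have hr : Module.finrank ℝ S ≤ r := by
    have := finrank_range_le_card (R := ℝ) (fun a : Fin r => TR_v (w a))
    rw [Fintype.card_fin] at this
    exact this
  let e : Fin (Module.finrank ℝ S) → ι → ℝ := fun l i => (b l : EuclideanSpace ℝ ι) i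
  have hev : ∀ l, TR_v (e l) = (b l : EuclideanSpace ℝ ι) := fun l => rfl
  have heon : Orthonormal ℝ (fun l => TR_v (e l)) := by
    have h1 : Orthonormal ℝ (fun l => (b l : EuclideanSpace ℝ ι)) :=
      b.orthonormal.comp_linearIsometry S.subtypeₗᵢ
    exact h1
  have hemem : ∀ a, ∑ l, (∑ i, w a i * e l i) ^ 2 = ∑ i, w a i ^ 2 := by
    intro a
    have hmem : TR_v (w a) ∈ S := Submodule.subset_span ⟨a, rfl⟩
    have h1 := b.sum_sq_norm_inner_right (⟨TR_v (w a), hmem⟩ : S)
    have h2 : ∀ l, ‖inner ℝ (b l) (⟨TR_v (w a), hmem⟩ : S)‖ ^ 2 = (∑ i, w a i * e l i) ^ 2 := by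
      intro l
      have h3 : inner ℝ (b l) (⟨TR_v (w a), hmem⟩ : S) = ∑ i, w a i * e l i := by
        rw [Submodule.coe_inner, ← hev l]
        show inner ℝ (TR_v (e l)) (TR_v (w a)) = _
        rw [TR_inner]
        exact Finset.sum_congr rfl (fun i _ => mul_comm _ _)
      rw [h3, Real.norm_eq_abs, sq_abs]
    have h4 : ‖(⟨TR_v (w a), hmem⟩ : S)‖ ^ 2 = ∑ i, w a i ^ 2 := by
      rw [Submodule.coe_norm, ← real_inner_self_eq_norm_sq]
      show inner ℝ (TR_v (w a)) (TR_v (w a)) = _
      rw [TR_inner]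
      exact Finset.sum_congr rfl (fun i _ => by ring)
    rw [← h4, ← h1]
    exact Finset.sum_congr rfl (fun l _ => (h2 l).symm)
  have he1 : ∀ l, ∑ i, e l i ^ 2 = 1 := by
    intro l
    have h1 := heon.1 l
    have h2 : inner ℝ (TR_v (e l)) (TR_v (e l)) = (1 : ℝ) := by
      rw [real_inner_self_eq_norm_sq, h1]; norm_num
    rw [TR_inner] at h2
    rw [← h2]
    exact Finset.sum_congr rfl (fun i _ => by ring)
  -- trace of Z
  have htr : ∑ i, sq w i i = ∑ l, quad (sq w) (e l) := by
    simp only [TR_quad_sq]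
    rw [Finset.sum_comm]
    simp only [hemem]
    unfold sq
    rw [Finset.sum_comm]
    exact Finset.sum_congr rfl (fun a _ => Finset.sum_congr rfl (fun i _ => by ring))
  have hle : ∀ l, quad (sq w) (e l) ≤ quad M (e l) + c := by
    intro l
    have h1 := hP.2 (e l)
    have h2 : quad (fun i j => shift M c i j - sq w i j) (e l) =
        quad M (e l) + c * ∑ i, e l i ^ 2 - quad (sq w) (e l) := by
      unfold quad shift
      rw [Finset.mul_sum, ← Finset.sum_add_distrib, ← Finset.sum_sub_distrib]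
      refine Finset.sum_congr rfl (fun i _ => ?_)
      have h3 : c * e l i ^ 2 = ∑ j, (if i = j then c else 0) * e l i * e l j := by
        rw [Finset.sum_eq_single i]
        · rw [if_pos rfl]; ring
        · intro j _ hj
          rw [if_neg (Ne.symm hj)]; ring
        · intro h; exact absurd (Finset.mem_univ i) h
      rw [h3, ← Finset.sum_add_distrib, ← Finset.sum_sub_distrib]
      exact Finset.sum_congr rfl (fun j _ => by ring)
    rw [h2, he1] at h1
    linarith
  have hquadM : ∀ x : ι → ℝ, quad M x = ∑ k, μ k * (∑ i, v k i * x i) ^ 2 := by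
    intro x
    unfold quad
    have h : ∀ k, μ k * (∑ i, v k i * x i) ^ 2 =
        ∑ i, ∑ j, μ k * v k i * v k j * x i * x j := by
      intro k
      rw [pow_two, Finset.sum_mul_sum, Finset.mul_sum]
      refine Finset.sum_congr rfl (fun i _ => ?_)
      rw [Finset.mul_sum]
      exact Finset.sum_congr rfl (fun j _ => by ring)
    simp only [h, hM, Finset.sum_mul]
    calc ∑ i, ∑ j, ∑ k, μ k * v k i * v k j * x i * x j
        = ∑ i, ∑ k, ∑ j, μ k * v k i * v k j * x i * x j :=
          Finset.sum_congr rfl (fun i _ => Finset.sum_comm)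
      _ = ∑ k, ∑ i, ∑ j, μ k * v k i * v k j * x i * x j := Finset.sum_comm
  have hpars : ∀ x : ι → ℝ, ∑ k, (∑ i, v k i * x i) ^ 2 = ∑ i, x i ^ 2 := by
    intro x
    have h : ∀ k, (∑ i, v k i * x i) ^ 2 = ∑ i, ∑ j, (v k i * v k j) * (x i * x j) := by
      intro k
      rw [pow_two, Finset.sum_mul_sum]
      exact Finset.sum_congr rfl (fun i _ => Finset.sum_congr rfl (fun j _ => by ring))
    simp only [h]
    calc ∑ k, ∑ i, ∑ j, (v k i * v k j) * (x i * x j)
        = ∑ i, ∑ k, ∑ j, (v k i * v k j) * (x i * x j) := Finset.sum_comm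
      _ = ∑ i, ∑ j, ∑ k, (v k i * v k j) * (x i * x j) :=
          Finset.sum_congr rfl (fun i _ => Finset.sum_comm)
      _ = ∑ i, ∑ j, (if i = j then 1 else 0) * (x i * x j) := by
          refine Finset.sum_congr rfl (fun i _ => Finset.sum_congr rfl (fun j _ => ?_))
          rw [← Finset.sum_mul, hon2]
      _ = ∑ i, x i ^ 2 := by
          refine Finset.sum_congr rfl (fun i _ => ?_)
          rw [Finset.sum_eq_single i]
          · rw [if_pos rfl]; ring
          · intro j _ hj
            rw [if_neg (Ne.symm hj), zero_mul]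
          · intro h; exact absurd (Finset.mem_univ i) h
  have hbes : ∀ k, ∑ l, (∑ i, v k i * e l i) ^ 2 ≤ 1 := by
    intro k
    have h1 := heon.sum_inner_products_le (x := TR_v (v k)) (s := Finset.univ)
    have h2 : ‖TR_v (v k)‖ ^ 2 = 1 := by
      rw [← real_inner_self_eq_norm_sq, TR_inner, hon k k, if_pos rfl]
    rw [h2] at h1
    refine le_trans (le_of_eq ?_) h1
    refine Finset.sum_congr rfl (fun l _ => ?_)
    rw [TR_inner, Real.norm_eq_abs, sq_abs]
    congr 1
    exact Finset.sum_congr rfl (fun i _ => mul_comm _ _)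
  have hle2 : ∀ l, quad M (e l) ≤
      ∑ k, (if η ≤ μ k then μ k else 0) * (∑ i, v k i * e l i) ^ 2 + η := by
    intro l
    rw [hquadM]
    have h1 : η = ∑ k, η * (∑ i, v k i * e l i) ^ 2 := by
      rw [← Finset.mul_sum, hpars, he1, mul_one]
    calc ∑ k, μ k * (∑ i, v k i * e l i) ^ 2
        ≤ ∑ k, ((if η ≤ μ k then μ k else 0) * (∑ i, v k i * e l i) ^ 2 +
            η * (∑ i, v k i * e l i) ^ 2) := by
          refine Finset.sum_le_sum (fun k _ => ?_)
          rw [← add_mul]
          refine mul_le_mul_of_nonneg_right ?_ (sq_nonneg _)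
          split_ifs with h
          · linarith
          · linarith [not_le.1 h]
      _ = _ := by rw [Finset.sum_add_distrib, ← h1]
  have hsumF : ∑ l, ∑ k, (if η ≤ μ k then μ k else 0) * (∑ i, v k i * e l i) ^ 2 ≤ F μ η := by
    rw [Finset.sum_comm]
    unfold F
    refine Finset.sum_le_sum (fun k _ => ?_)
    rw [← Finset.mul_sum]
    have h0 : 0 ≤ (if η ≤ μ k then μ k else 0) := by
      split_ifs
      · exact hμ k
      · exact le_rfl
    calc (if η ≤ μ k then μ k else 0) * ∑ l, (∑ i, v k i * e l i) ^ 2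
        ≤ (if η ≤ μ k then μ k else 0) * 1 := mul_le_mul_of_nonneg_left (hbes k) h0
      _ = _ := mul_one _
  have hr' : ((Module.finrank ℝ S : ℕ) : ℝ) ≤ r := by exact_mod_cast hr
  calc ∑ i, sq w i i = ∑ l, quad (sq w) (e l) := htr
    _ ≤ ∑ l, (∑ k, (if η ≤ μ k then μ k else 0) * (∑ i, v k i * e l i) ^ 2 + (η + c)) := by
        refine Finset.sum_le_sum (fun l _ => ?_)
        have := hle l
        have := hle2 l
        linarith
    _ = ∑ l, ∑ k, (if η ≤ μ k then μ k else 0) * (∑ i, v k i * e l i) ^ 2 +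
        (Module.finrank ℝ S : ℝ) * (η + c) := by
        rw [Finset.sum_add_distrib, Finset.sum_const, Finset.card_univ, Fintype.card_fin,
          nsmul_eq_mul]
    _ ≤ F μ η + (η + c) * r := by
        have : (Module.finrank ℝ S : ℝ) * (η + c) ≤ r * (η + c) :=
          mul_le_mul_of_nonneg_right hr' (by linarith)
        linarith

end Pool.Agent.H427R2.SD
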