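import Pool.Agent.H427R2.SD.T_ASM
import Pool.Agent.H427R2.SD.T_CLEAN
import Pool.Agent.H427R2.SD.T_EXT
import Pool.Agent.H427R2.SD.T_F1
import Pool.Agent.H427R2.SD.T_F2
import Pool.Agent.H427R2.SD.T_F3
import Pool.Agent.H427R2.SD.T_F4
import Pool.Agent.H427R2.SD.T_FIN
import Pool.Agent.H427R2.SD.T_GL
import Pool.Agent.H427R2.SD.T_L1
import Pool.Agent.H427R2.SD.T_L2
import Pool.Agent.H427R2.SD.T_L3
import Pool.Agent.H427R2.SD.T_L4
import Pool.Agent.H427R2.SD.T_LARGE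
import Pool.Agent.H427R2.SD.T_LOC
import Pool.Agent.H427R2.SD.T_MAIN
import Pool.Agent.H427R2.SD.T_MD
import Pool.Agent.H427R2.SD.T_NUM
import Pool.Agent.H427R2.SD.T_PEAK
import Pool.Agent.H427R2.SD.T_PT
import Pool.Agent.H427R2.SD.T_RED
import Pool.Agent.H427R2.SD.T_ROUND
import Pool.Agent.H427R2.SD.T_SCHUR
import Pool.Agent.H427R2.SD.T_SPEC
import Pool.Agent.H427R2.SD.T_ST
import Pool.Agent.H427R2.SD.T_TR
import Pool.Agent.H427R2.SD.T_WIN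

set_option autoImplicit false

namespace Pool.Agent.H427R2.SD

theorem GL_all : S_GL := t_GL t_SPEC t_SCHUR t_TR
theorem PEAK_all : S_PEAK := t_PEAK t_SPEC (t_LARGE GL_all)
theorem ST_all : S_ST := t_ST GL_all PEAK_all t_EXT t_MD t_PT t_NUM
theorem L4_all : S_L4 := t_L4 (t_L1 t_SCHUR) t_L2 t_L3
theorem ASM_all : S_ASM := t_ASM ST_all t_ROUND t_CLEAN t_F1 t_F2 (t_WIN t_F3 t_F4) (t_LOC L4_all)
theorem MAIN_all : S_MAIN := t_MAIN ASM_all t_F1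
theorem FIN_all : S_FIN := t_FIN MAIN_all t_RED

end Pool.Agent.H427R2.SD
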