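import Mathlib

set_option autoImplicit false

/-! Directed cuts of acyclic SIMPLE digraphs: definitions (symmetric 0/1 matrices and quadratic forms). -/

namespace Pool.Agent.H427R2.SD

open Finset

/-- `A` is the adjacency matrix of a simple graph. -/
def IsAdj {ι : Type} (A : ι → ι → ℝ) : Prop :=
  (∀ i, A i i = 0) ∧ (∀ i j, A i j = A j i) ∧ ∀ i j, A i j = 0 ∨ A i j = 1

/-- quadratic form -/
noncomputable def quad {ι : Type} [Fintype ι] (M : ι → ι → ℝ) (x : ι → ℝ) : ℝ :=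
  ∑ i, ∑ j, M i j * x i * x j

/-- positive semidefinite symmetric real matrix -/
def PSD {ι : Type} [Fintype ι] (M : ι → ι → ℝ) : Prop :=
  (∀ i j, M i j = M j i) ∧ ∀ x : ι → ℝ, 0 ≤ quad M x

/-- the restriction of `A + lam` to `S` is positive semidefinite -/
def MinEig {ι : Type} [Fintype ι] (A : ι → ι → ℝ) (S : Finset ι) (lam : ℝ) : Prop :=
  ∀ x : ι → ℝ, (∀ i, i ∉ S → x i = 0) → 0 ≤ quad A x + lam * ∑ i, x i ^ 2

/-- `A + lam * identity` -/
noncomputable def shift {ι : Type} [DecidableEq ι] (A : ι → ι → ℝ) (lam : ℝ) : ι → ι → ℝ :=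
  fun i j => A i j + if i = j then lam else 0

/-- the matrix `∑ a, u_a u_aᵀ` -/
noncomputable def sq {ι : Type} {r : ℕ} (u : Fin r → ι → ℝ) : ι → ι → ℝ :=
  fun i j => ∑ a, u a i * u a j

/-- number of ordered adjacent pairs in `S` -/
noncomputable def e2 {ι : Type} (A : ι → ι → ℝ) (S : Finset ι) : ℝ := ∑ i ∈ S, ∑ j ∈ S, A i j

/-- number of neighbours of `i` in `S` -/
noncomputable def deg {ι : Type} (A : ι → ι → ℝ) (S : Finset ι) (i : ι) : ℝ := ∑ j ∈ S, A i j

/-- number of elements of `S` other than `i` which are not adjacent to `i` -/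
noncomputable def miss {ι : Type} [DecidableEq ι] (A : ι → ι → ℝ) (S : Finset ι) (i : ι) : ℝ :=
  ∑ j ∈ S.erase i, (1 - A i j)

/-- spectral decomposition of the positive semidefinite matrix `M` -/
def Decomp {ι : Type} [Fintype ι] [DecidableEq ι] (M : ι → ι → ℝ) (μ : ι → ℝ) (v : ι → ι → ℝ) : Prop :=
  (∀ k, 0 ≤ μ k) ∧ (∀ k l, ∑ i, v k i * v l i = if k = l then 1 else 0) ∧
  (∀ i j, ∑ k, v k i * v k j = if i = j then 1 else 0) ∧ ∀ i j, M i j = ∑ k, μ k * v k i * v k j

/-- sum of the eigenvalues which are at least `η` -/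
noncomputable def F {ι : Type} [Fintype ι] (μ : ι → ℝ) (η : ℝ) : ℝ := ∑ k, if η ≤ μ k then μ k else 0

/-- number of eigenvalues which are at least `η` -/
noncomputable def cnt {ι : Type} [Fintype ι] (μ : ι → ℝ) (η : ℝ) : ℝ := ∑ k, if η ≤ μ k then (1 : ℝ) else 0

/-! ### ordered graphs on `Fin n` : arcs go from smaller to larger -/

/-- outdegree minus indegree -/
noncomputable def bal {n : ℕ} (A : Fin n → Fin n → ℝ) (v : Fin n) : ℝ :=
  ∑ u, (if v < u then A v u else 0) - ∑ u, (if u < v then A v u else 0)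

/-- every directed cut has size at most `m/4 + H/4` (form for all vectors in the cube) -/
def FI {n : ℕ} (A : Fin n → Fin n → ℝ) (H : ℝ) : Prop :=
  ∀ x : Fin n → ℝ, (∀ i, |x i| ≤ 1) → ∑ v, bal A v * x v - quad A x / 2 ≤ H

/-- number of arcs -/
noncomputable def arcs {n : ℕ} (A : Fin n → Fin n → ℝ) : ℝ := (∑ i, ∑ j, A i j) / 2

/-- total degree of `v` -/
noncomputable def dg {n : ℕ} (A : Fin n → Fin n → ℝ) (v : Fin n) : ℝ := ∑ u, A v u

/-- number of arcs at `v` of length greater than `L` -/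
noncomputable def long {n : ℕ} (A : Fin n → Fin n → ℝ) (L : ℕ) (v : Fin n) : ℝ :=
  ∑ u, if v.val + L < u.val ∨ u.val + L < v.val then A v u else 0

/-- the window `[(k-a)ℓ, (k+2+a)ℓ)` -/
def win (n ℓ k a : ℕ) : Finset (Fin n) :=
  Finset.univ.filter (fun i => k * ℓ ≤ i.val + a * ℓ ∧ i.val < (k + 2 + a) * ℓ)

end Pool.Agent.H427R2.SD
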