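import Pool.Agent.H427R2.SD.St

set_option autoImplicit false

namespace Pool.Agent.H427R2.SD

open Finset

theorem ASM_mul {L : ℝ} (hL : 10 ^ 6 ≤ L) {c : ℝ} (hc : c ≤ 10 ^ 6) (k m : ℕ) (hkm : k + 1 ≤ m) :
    c * L ^ k ≤ L ^ m := by
  have hL1 : 1 ≤ L := le_trans (by norm_num) hL
  have hL0 : 0 < L := lt_of_lt_of_le (by norm_num) hL
  calc c * L ^ k ≤ L * L ^ k := by gcongr; exact hc.trans hL
    _ = L ^ (k + 1) := (pow_succ' L k).symm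
    _ ≤ L ^ m := pow_le_pow_right₀ hL1 hkm

theorem ASM_B {L B : ℝ} (hL : 10 ^ 6 ≤ L) (hB : 1 ≤ B) (h : L ^ 62100000 ≤ B ^ 2) (k : ℕ)
    (hk : k ≤ 31050000) : L ^ k ≤ B := by
  have hL1 : 1 ≤ L := le_trans (by norm_num) hL
  have h1 : L ^ 31050000 ≤ B := by
    have h2 : (L ^ 31050000) ^ 2 ≤ B ^ 2 := by rw [← pow_mul]; exact h
    exact (pow_le_pow_iff_left₀ (by positivity) (by positivity) (by norm_num)).mp h2
  exact (pow_le_pow_right₀ hL1 hk).trans h1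

theorem ASM_N1 {L B H : ℝ} (hL : 10 ^ 6 ≤ L) (hB : 1 ≤ B) (h : L ^ 62100000 ≤ B ^ 2)
    (hH : H ≤ B ^ 3 * L ^ 2) :
    2 * 10 ^ 4 * H * (B ^ 2 * L ^ 2035) / (B ^ 2 / L ^ 1000) ^ 2 ≤ (B ^ 2 / L ^ 1000) / 200 := by
  have hL0 : 0 < L := lt_of_lt_of_le (by norm_num) hL
  have hB0 : 0 < B := lt_of_lt_of_le one_pos hB
  have h2 : 4 * 10 ^ 6 * L ^ 5037 ≤ B := by
    have h3 := ASM_B hL hB h 5039 (by norm_num)
    have h4 := ASM_mul hL (c := 4) (by norm_num) 5038 5039 (by norm_num)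
    have h5 := ASM_mul hL (c := 10 ^ 6) (by norm_num) 5037 5038 (by norm_num)
    linarith
  have hq : 0 < B ^ 2 / L ^ 1000 := by positivity
  rw [div_le_iff₀ (by positivity)]
  calc 2 * 10 ^ 4 * H * (B ^ 2 * L ^ 2035)
      ≤ 2 * 10 ^ 4 * (B ^ 3 * L ^ 2) * (B ^ 2 * L ^ 2035) := by gcongr
    _ = (4 * 10 ^ 6 * L ^ 5037) * B ^ 5 / L ^ 3000 / 200 := by field_simp; norm_num
    _ ≤ B * B ^ 5 / L ^ 3000 / 200 := by gcongr
    _ = (B ^ 2 / L ^ 1000) / 200 * (B ^ 2 / L ^ 1000) ^ 2 := by field_simp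

theorem ASM_N2 {L B H ℓ a c : ℝ} (hL : 10 ^ 6 ≤ L) (hB : 1 ≤ B)
    (hH0 : 0 < H) (hH : H ≤ B ^ 3 * L ^ 2) (hℓ0 : 0 ≤ ℓ) (hℓ : ℓ ≤ 3 * B ^ 2 * L ^ 4)
    (ha : L ^ 1019 ≤ a) (ha' : a ≤ 2 * L ^ 1019) (hc : L ^ 3035 ≤ c) (hc' : c ≤ 2 * L ^ 3035) :
    4 * ℓ ^ 2 * (200 * B ^ 5 / (a * (B ^ 2 / L ^ 1000) * (B ^ 2 / L ^ 6)) +
      10 ^ 4 * (2 * a + 3) * B ^ 5 / (c * (B ^ 2 / L ^ 1000) ^ 2) +
      400 * (2 * a + 3) * B ^ 5 / ((B ^ 2 * L ^ 2035) * (B ^ 2 / L ^ 1000)) +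
      2 * H * (2 * a + 2 * c + 4) / (B ^ 2 * L ^ 3050)) ≤ B ^ 5 / 2 := by
  have hL0 : 0 < L := lt_of_lt_of_le (by norm_num) hL
  have hL1 : 1 ≤ L := le_trans (by norm_num) hL
  have hB0 : 0 < B := lt_of_lt_of_le one_pos hB
  have ha0 : 0 < a := lt_of_lt_of_le (by positivity) ha
  have hc0 : 0 < c := lt_of_lt_of_le (by positivity) hc
  have h3 : 2 * a + 3 ≤ 5 * L ^ 1019 := by
    have := ASM_mul hL (c := 3) (by norm_num) 0 1019 (by norm_num)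
    rw [pow_zero, mul_one] at this
    linarith
  have h4 : 2 * a + 2 * c + 4 ≤ 5 * L ^ 3035 := by
    have e1 := ASM_mul hL (c := 8) (by norm_num) 1019 3035 (by norm_num)
    have e2 := ASM_mul hL (c := 8) (by norm_num) 0 3035 (by norm_num)
    rw [pow_zero, mul_one] at e2
    linarith
  have t1 : 200 * B ^ 5 / (a * (B ^ 2 / L ^ 1000) * (B ^ 2 / L ^ 6)) ≤ 200 * B / L ^ 13 := by
    calc 200 * B ^ 5 / (a * (B ^ 2 / L ^ 1000) * (B ^ 2 / L ^ 6))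
        ≤ 200 * B ^ 5 / (L ^ 1019 * (B ^ 2 / L ^ 1000) * (B ^ 2 / L ^ 6)) := by gcongr
      _ = 200 * B / L ^ 13 := by field_simp
  have t2 : 10 ^ 4 * (2 * a + 3) * B ^ 5 / (c * (B ^ 2 / L ^ 1000) ^ 2) ≤
      5 * 10 ^ 4 * B / L ^ 16 := by
    calc 10 ^ 4 * (2 * a + 3) * B ^ 5 / (c * (B ^ 2 / L ^ 1000) ^ 2)
        ≤ 10 ^ 4 * (5 * L ^ 1019) * B ^ 5 / (L ^ 3035 * (B ^ 2 / L ^ 1000) ^ 2) := by gcongr
      _ = 5 * 10 ^ 4 * B / L ^ 16 := by field_simp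
  have t3 : 400 * (2 * a + 3) * B ^ 5 / ((B ^ 2 * L ^ 2035) * (B ^ 2 / L ^ 1000)) ≤
      2000 * B / L ^ 16 := by
    calc 400 * (2 * a + 3) * B ^ 5 / ((B ^ 2 * L ^ 2035) * (B ^ 2 / L ^ 1000))
        ≤ 400 * (5 * L ^ 1019) * B ^ 5 / ((B ^ 2 * L ^ 2035) * (B ^ 2 / L ^ 1000)) := by gcongr
      _ = 2000 * B / L ^ 16 := by field_simp; norm_num
  have t4 : 2 * H * (2 * a + 2 * c + 4) / (B ^ 2 * L ^ 3050) ≤ 10 * B / L ^ 13 := by
    calc 2 * H * (2 * a + 2 * c + 4) / (B ^ 2 * L ^ 3050)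
        ≤ 2 * (B ^ 3 * L ^ 2) * (5 * L ^ 3035) / (B ^ 2 * L ^ 3050) := by gcongr
      _ = 10 * B / L ^ 13 := by field_simp; norm_num
  have t5 : 5 * 10 ^ 4 * B / L ^ 16 ≤ 10 * B / L ^ 13 := by
    rw [div_le_div_iff₀ (by positivity) (by positivity)]
    have := ASM_mul hL (c := 5000) (by norm_num) 13 16 (by norm_num)
    nlinarith
  have t6 : 2000 * B / L ^ 16 ≤ 10 * B / L ^ 13 := by
    refine le_trans ?_ t5
    gcongr
    norm_num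
  have hs : 200 * B ^ 5 / (a * (B ^ 2 / L ^ 1000) * (B ^ 2 / L ^ 6)) +
      10 ^ 4 * (2 * a + 3) * B ^ 5 / (c * (B ^ 2 / L ^ 1000) ^ 2) +
      400 * (2 * a + 3) * B ^ 5 / ((B ^ 2 * L ^ 2035) * (B ^ 2 / L ^ 1000)) +
      2 * H * (2 * a + 2 * c + 4) / (B ^ 2 * L ^ 3050) ≤ 230 * B / L ^ 13 := by
    have : 230 * B / L ^ 13 = 200 * B / L ^ 13 + 10 * B / L ^ 13 + 10 * B / L ^ 13 +
      10 * B / L ^ 13 := by ring
    rw [this]
    linarith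
  have hs0 : 0 ≤ 230 * B / L ^ 13 := by positivity
  calc _ ≤ 4 * (3 * B ^ 2 * L ^ 4) ^ 2 * (230 * B / L ^ 13) := by gcongr
    _ = 8280 * B ^ 5 / L ^ 5 := by field_simp; norm_num
    _ ≤ 8280 * B ^ 5 / 16560 := by
        gcongr
        have := ASM_mul hL (c := 16560) (by norm_num) 0 5 (by norm_num)
        rwa [pow_zero, mul_one] at this
    _ = B ^ 5 / 2 := by ring

/-- the least eigenvalue -/
theorem ASM_N3 {L B C0 ln : ℝ} (hL : 10 ^ 6 ≤ L) (hB : 1 ≤ B) (hC : C0 ≤ L)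
    (hln0 : 0 < ln) (hln : ln ≤ L) :
    (C0 * (B ^ 2 * L ^ 3050 + 1) * ln) / ((B ^ 2 / L ^ 1000) / 100) ≤ L ^ 4053 := by
  have hL0 : 0 < L := lt_of_lt_of_le (by norm_num) hL
  have hL1 : 1 ≤ L := le_trans (by norm_num) hL
  have hB0 : 0 < B := lt_of_lt_of_le one_pos hB
  have h1 : (1:ℝ) ≤ B ^ 2 * L ^ 3050 :=
    one_le_mul_of_one_le_of_one_le (one_le_pow₀ hB) (one_le_pow₀ hL1)
  calc (C0 * (B ^ 2 * L ^ 3050 + 1) * ln) / ((B ^ 2 / L ^ 1000) / 100)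
      ≤ (L * (B ^ 2 * L ^ 3050 + B ^ 2 * L ^ 3050) * L) / ((B ^ 2 / L ^ 1000) / 100) := by
        gcongr
    _ = 200 * L ^ 4052 := by field_simp; norm_num
    _ ≤ L ^ 4053 := ASM_mul hL (by norm_num) _ _ (by norm_num)

theorem ASM_N4 {L B : ℝ} (hL : 10 ^ 6 ≤ L) (hB : 1 ≤ B) (h : L ^ 62100000 ≤ B ^ 2) {X : ℝ}
    (hX : B ^ 2 ≤ X) : 2000 * (L ^ 4053) ^ 15302 ≤ (1 / L ^ 10) ^ 102 * X := by
  have hL0 : 0 < L := lt_of_lt_of_le (by norm_num) hL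
  have hL1 : 1 ≤ L := le_trans (by norm_num) hL
  have hB0 : 0 < B := lt_of_lt_of_le one_pos hB
  have h1 : 2000 * L ^ (4053 * 15302 + 1020) ≤ B ^ 2 :=
    (ASM_mul hL (by norm_num) _ _ (by norm_num)).trans h
  calc 2000 * (L ^ 4053) ^ 15302 = 2000 * L ^ (4053 * 15302) := by rw [← pow_mul]
    _ = (1 / L ^ 10) ^ 102 * (2000 * L ^ (4053 * 15302 + 1020)) := by
        rw [pow_add]
        have : (1 / L ^ 10) ^ 102 * L ^ 1020 = 1 := by field_simp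
        linear_combination (-2000 * L ^ (4053 * 15302)) * this
    _ ≤ (1 / L ^ 10) ^ 102 * X := by
        gcongr
        exact h1.trans hX

theorem ASM_N5 {L B : ℝ} (hL : 10 ^ 6 ≤ L) {X Y : ℝ}
    (hX : B ^ 2 ≤ X) (hY : (1 / L ^ 10) ^ 100 * X ≤ Y) : B ^ 2 / L ^ 1000 ≤ Y := by
  have hL0 : 0 < L := lt_of_lt_of_le (by norm_num) hL
  refine le_trans ?_ hY
  have : B ^ 2 / L ^ 1000 = (1 / L ^ 10) ^ 100 * B ^ 2 := by field_simp
  rw [this]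
  gcongr

theorem ASM_N6 {L B : ℝ} (hL : 10 ^ 6 ≤ L) (h : L ^ 62100000 ≤ B ^ 2) :
    6000 * (L ^ 4053) ^ 4 ≤ B ^ 2 / L ^ 1000 := by
  have hL0 : 0 < L := lt_of_lt_of_le (by norm_num) hL
  rw [le_div_iff₀ (by positivity)]
  calc 6000 * (L ^ 4053) ^ 4 * L ^ 1000 = 6000 * L ^ 17212 := by ring
    _ ≤ L ^ 62100000 := ASM_mul hL (by norm_num) _ _ (by norm_num)
    _ ≤ B ^ 2 := h

theorem ASM_N7 {L B ℓ a c J : ℝ} (hL : 10 ^ 6 ≤ L) (hB : 1 ≤ B) (h : L ^ 62100000 ≤ B ^ 2)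
    (hℓ0 : 0 ≤ ℓ) (hℓ : ℓ ≤ 3 * B ^ 2 * L ^ 4)
    (ha' : a ≤ 2 * L ^ 1019) (hc' : c ≤ 2 * L ^ 3035)
    (hJ : J ≤ (2 + 2 * (a + c)) * ℓ) :
    ¬ ((B ^ 2 / L ^ 1000) ^ 2 ≤ 100 * (L ^ 4053) ^ 2 * J) := by
  have hL0 : 0 < L := lt_of_lt_of_le (by norm_num) hL
  have hL1 : 1 ≤ L := le_trans (by norm_num) hL
  have hB0 : 0 < B := lt_of_lt_of_le one_pos hB
  have h4 : 2 + 2 * (a + c) ≤ 5 * L ^ 3035 := by
    have e1 := ASM_mul hL (c := 8) (by norm_num) 1019 3035 (by norm_num)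
    have e2 := ASM_mul hL (c := 4) (by norm_num) 0 3035 (by norm_num)
    rw [pow_zero, mul_one] at e2
    linarith
  have h5 : J ≤ 5 * L ^ 3035 * (3 * B ^ 2 * L ^ 4) := by
    refine hJ.trans ?_
    calc (2 + 2 * (a + c)) * ℓ ≤ 5 * L ^ 3035 * ℓ := by gcongr
      _ ≤ 5 * L ^ 3035 * (3 * B ^ 2 * L ^ 4) := by gcongr
  intro hc
  have h6 : (B ^ 2 / L ^ 1000) ^ 2 ≤ 1500 * B ^ 2 * L ^ 11145 := by
    calc (B ^ 2 / L ^ 1000) ^ 2 ≤ 100 * (L ^ 4053) ^ 2 * (5 * L ^ 3035 * (3 * B ^ 2 * L ^ 4)) :=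
          hc.trans (by gcongr)
      _ = 1500 * B ^ 2 * L ^ 11145 := by ring
  have h7 : (B ^ 2) * B ^ 2 ≤ (1500 * L ^ 13145) * B ^ 2 := by
    have : (B ^ 2 / L ^ 1000) ^ 2 * L ^ 2000 ≤ 1500 * B ^ 2 * L ^ 11145 * L ^ 2000 := by gcongr
    have e1 : (B ^ 2 / L ^ 1000) ^ 2 * L ^ 2000 = (B ^ 2) * B ^ 2 := by field_simp
    have e2 : 1500 * B ^ 2 * L ^ 11145 * L ^ 2000 = (1500 * L ^ 13145) * B ^ 2 := by ring
    linarith
  have h8 : B ^ 2 ≤ 1500 * L ^ 13145 := le_of_mul_le_mul_right h7 (by positivity)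
  have h9 : 1500 * L ^ 13145 ≤ L ^ 13146 := ASM_mul hL (by norm_num) _ _ (by norm_num)
  have h10 : L ^ 13146 < L ^ 62100000 := pow_lt_pow_right₀ (by linarith) (by norm_num)
  linarith

/-- number of arcs inside the window -/
theorem ASM_N8 {L B n ℓ : ℝ} (hL : 10 ^ 6 ≤ L) (hB : 1 ≤ B) (h : L ^ 62100000 ≤ B ^ 2)
    (hn0 : 0 ≤ n) (hn : n ≤ B ^ 3 * L ^ 3) (hℓ : 2 * B ^ 2 * L ^ 4 ≤ ℓ) :
    B ^ 4 * L / 2 ≤ B ^ 5 / (2 * (n / ℓ + 1)) := by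
  have hL0 : 0 < L := lt_of_lt_of_le (by norm_num) hL
  have hB0 : 0 < B := lt_of_lt_of_le one_pos hB
  have hℓ0 : 0 < ℓ := lt_of_lt_of_le (by positivity) hℓ
  have h1 : n / ℓ ≤ B / (2 * L) := by
    calc n / ℓ ≤ (B ^ 3 * L ^ 3) / (2 * B ^ 2 * L ^ 4) := by gcongr
      _ = B / (2 * L) := by field_simp
  have h2 : 1 ≤ B / (2 * L) := by
    rw [le_div_iff₀ (by positivity), one_mul]
    have e1 := ASM_B hL hB h 2 (by norm_num)
    have e2 := ASM_mul hL (c := 2) (by norm_num) 1 2 (by norm_num)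
    rw [pow_one] at e2
    linarith
  have h3 : n / ℓ + 1 ≤ B / L := by
    have : B / L = B / (2 * L) + B / (2 * L) := by field_simp; norm_num
    linarith
  have h4 : 0 < n / ℓ + 1 := by positivity
  calc B ^ 4 * L / 2 = B ^ 5 / (2 * (B / L)) := by field_simp
    _ ≤ B ^ 5 / (2 * (n / ℓ + 1)) := by gcongr

/-- the density of the cleaned window -/
theorem ASM_N9 {L B e e' I R X : ℝ} (hL : 10 ^ 6 ≤ L) (hB : 1 ≤ B)
    (he : B ^ 4 * L / 2 ≤ e) (hI0 : 0 ≤ I) (hI : I ≤ 6 * B ^ 2 * L ^ 4)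
    (hR : R ≤ (B ^ 2 / L ^ 1000) / 100 + B ^ 2 / L ^ 6) (he' : e ≤ e' + 2 * I * R)
    (hX0 : 0 ≤ X) (hX : e' ≤ X ^ 2) (hXI : X ≤ I) :
    B ^ 2 ≤ X ∧ 1 / L ^ 10 * X ^ 2 ≤ e' := by
  have hL0 : 0 < L := lt_of_lt_of_le (by norm_num) hL
  have hL1 : 1 ≤ L := le_trans (by norm_num) hL
  have hB0 : 0 < B := lt_of_lt_of_le one_pos hB
  have h1 : (B ^ 2 / L ^ 1000) / 100 ≤ B ^ 2 / L ^ 6 := by
    calc (B ^ 2 / L ^ 1000) / 100 ≤ (B ^ 2 / L ^ 1000) / 1 := by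
          gcongr
          norm_num
      _ = B ^ 2 / L ^ 1000 := by ring
      _ ≤ B ^ 2 / L ^ 6 := by
          gcongr
          norm_num
  have h2 : 2 * I * R ≤ 24 * B ^ 4 / L ^ 2 := by
    have h3 : R ≤ 2 * (B ^ 2 / L ^ 6) := by linarith
    calc 2 * I * R ≤ 2 * I * (2 * (B ^ 2 / L ^ 6)) := by gcongr
      _ ≤ 2 * (6 * B ^ 2 * L ^ 4) * (2 * (B ^ 2 / L ^ 6)) := by gcongr
      _ = 24 * B ^ 4 / L ^ 2 := by field_simp; norm_num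
  have h3 : 24 * B ^ 4 / L ^ 2 ≤ B ^ 4 * L / 4 := by
    rw [div_le_iff₀ (by positivity)]
    have := ASM_mul hL (c := 96) (by norm_num) 0 3 (by norm_num)
    rw [pow_zero, mul_one] at this
    have hB4 : 0 < B ^ 4 := by positivity
    nlinarith
  have h4 : B ^ 4 * L / 4 ≤ e' := by linarith
  have h5 : B ^ 4 ≤ B ^ 4 * L / 4 := by
    have hB4 : 0 < B ^ 4 := by positivity
    nlinarith
  constructor
  · have h6 : (B ^ 2) ^ 2 ≤ X ^ 2 := by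
      calc (B ^ 2) ^ 2 = B ^ 4 := by ring
        _ ≤ X ^ 2 := by linarith
    exact (pow_le_pow_iff_left₀ (by positivity) hX0 (by norm_num)).mp h6
  · calc 1 / L ^ 10 * X ^ 2 ≤ 1 / L ^ 10 * (6 * B ^ 2 * L ^ 4) ^ 2 := by
          gcongr
          exact hXI.trans hI
      _ = 36 * B ^ 4 / L ^ 2 := by field_simp; norm_num
      _ ≤ B ^ 4 * L / 4 := by
          rw [div_le_iff₀ (by positivity)]
          have := ASM_mul hL (c := 144) (by norm_num) 0 3 (by norm_num)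
          rw [pow_zero, mul_one] at this
          have hB4 : 0 < B ^ 4 := by positivity
          nlinarith
      _ ≤ e' := h4

theorem ASM_ceil {x : ℝ} (hx : 1 ≤ x) : ∃ k : ℕ, 1 ≤ k ∧ x ≤ (k : ℝ) ∧ (k : ℝ) ≤ x + 1 := by
  refine ⟨⌈x⌉₊, ?_, Nat.le_ceil x, (Nat.ceil_lt_add_one (by linarith)).le⟩
  exact Nat.one_le_ceil_iff.mpr (by linarith)

theorem ASM_card (n ℓ k a : ℕ) : (win n ℓ k a).card ≤ (2 + 2 * a) * ℓ := by
  have h1 : ((win n ℓ k a).map Fin.valEmbedding) ⊆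
      Finset.Ico (k * ℓ - a * ℓ) ((k + 2 + a) * ℓ) := by
    intro x hx
    rw [Finset.mem_map] at hx
    obtain ⟨i, hi, rfl⟩ := hx
    simp only [win, Finset.mem_filter, Finset.mem_univ, true_and] at hi
    rw [Finset.mem_Ico]
    simp only [Fin.valEmbedding_apply]
    constructor
    · omega
    · exact hi.2
  have h2 := Finset.card_le_card h1
  rw [Finset.card_map, Nat.card_Ico] at h2
  have e1 : (k + 2 + a) * ℓ = k * ℓ + 2 * ℓ + a * ℓ := by ring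
  have e2 : (2 + 2 * a) * ℓ = 2 * ℓ + 2 * (a * ℓ) := by ring
  omega

theorem ASM_win_mono {n ℓ k a b : ℕ} (h : a ≤ b) : win n ℓ k a ⊆ win n ℓ k b := by
  intro i hi
  simp only [win, Finset.mem_filter, Finset.mem_univ, true_and] at hi ⊢
  have e1 : a * ℓ ≤ b * ℓ := Nat.mul_le_mul_right _ h
  have e2 : (k + 2 + a) * ℓ ≤ (k + 2 + b) * ℓ := Nat.mul_le_mul_right _ (by omega)
  omega

theorem ASM_nonneg {ι : Type} {A : ι → ι → ℝ} (hA : IsAdj A) (i j : ι) : 0 ≤ A i j := by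
  rcases hA.2.2 i j with h | h <;> rw [h]
  norm_num

theorem ASM_le_one {ι : Type} {A : ι → ι → ℝ} (hA : IsAdj A) (i j : ι) : A i j ≤ 1 := by
  rcases hA.2.2 i j with h | h <;> rw [h]
  norm_num

theorem ASM_long {n : ℕ} {A : Fin n → Fin n → ℝ} (hA : IsAdj A) (ℓ k a c : ℕ) (v : Fin n)
    (hv : v ∈ win n ℓ k a) : deg A (win n ℓ k (a + c))ᶜ v ≤ long A (c * ℓ) v := by
  unfold deg long
  have h1 : ∀ j ∈ (win n ℓ k (a + c))ᶜ, A v j =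
      if v.val + c * ℓ < j.val ∨ j.val + c * ℓ < v.val then A v j else 0 := by
    intro j hj
    rw [if_pos]
    simp only [win, Finset.mem_compl, Finset.mem_filter, Finset.mem_univ, true_and, not_and_or,
      not_le, not_lt] at hj hv
    have e1 : (a + c) * ℓ = a * ℓ + c * ℓ := by ring
    have e2 : (k + 2 + (a + c)) * ℓ = (k + 2 + a) * ℓ + c * ℓ := by ring
    rw [e1, e2] at hj
    omega
  rw [Finset.sum_congr rfl h1]
  apply Finset.sum_le_univ_sum_of_nonneg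
  intro j
  split_ifs
  · exact ASM_nonneg hA _ _
  · exact le_rfl

theorem ASM_mineig {ι : Type} [Fintype ι] {A : ι → ι → ℝ} {S T : Finset ι} {lam lam' : ℝ}
    (h : MinEig A S lam) (hT : T ⊆ S) (hl : lam ≤ lam') : MinEig A T lam' := by
  intro x hx
  have h1 := h x (fun i hi => hx i (fun hi' => hi (hT hi')))
  have h2 : 0 ≤ ∑ i, x i ^ 2 := Finset.sum_nonneg (fun i _ => sq_nonneg _)
  nlinarith

theorem ASM_e2 {ι : Type} [DecidableEq ι] {A : ι → ι → ℝ} (hA : IsAdj A) {X I : Finset ι}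
    (h : X ⊆ I) : e2 A I ≤ e2 A X + 2 * (I.card : ℝ) * ((I \ X).card : ℝ) := by
  unfold e2
  have hs : ∀ S T : Finset ι, ∑ i ∈ S, ∑ j ∈ T, A i j ≤ (S.card : ℝ) * T.card := by
    intro S T
    calc ∑ i ∈ S, ∑ j ∈ T, A i j ≤ ∑ _i ∈ S, ∑ _j ∈ T, (1 : ℝ) :=
          Finset.sum_le_sum (fun i _ => Finset.sum_le_sum (fun j _ => ASM_le_one hA i j))
      _ = (S.card : ℝ) * T.card := by simp
  have h1 : ∑ i ∈ I, ∑ j ∈ I, A i j =
      ∑ i ∈ I \ X, ∑ j ∈ I, A i j + ∑ i ∈ X, ∑ j ∈ I, A i j :=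
    (Finset.sum_sdiff h).symm
  have h2 : ∑ i ∈ X, ∑ j ∈ I, A i j =
      ∑ i ∈ X, ∑ j ∈ I \ X, A i j + ∑ i ∈ X, ∑ j ∈ X, A i j := by
    rw [← Finset.sum_add_distrib]
    apply Finset.sum_congr rfl
    intro i _
    exact (Finset.sum_sdiff h).symm
  have h3 := hs (I \ X) I
  have h4 := hs X (I \ X)
  have h5 : (X.card : ℝ) ≤ I.card := by exact_mod_cast Finset.card_le_card h
  have h6 : (0:ℝ) ≤ ((I \ X).card : ℝ) := by positivity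
  nlinarith

theorem ASM_e2_le {ι : Type} {A : ι → ι → ℝ} (hA : IsAdj A) (X : Finset ι) :
    e2 A X ≤ (X.card : ℝ) ^ 2 := by
  unfold e2
  calc ∑ i ∈ X, ∑ j ∈ X, A i j ≤ ∑ _i ∈ X, ∑ _j ∈ X, (1 : ℝ) :=
        Finset.sum_le_sum (fun i _ => Finset.sum_le_sum (fun j _ => ASM_le_one hA i j))
    _ = (X.card : ℝ) ^ 2 := by rw [pow_two]; simp

theorem t_ASM (h1 : S_ST) (h2 : S_ROUND) (h3 : S_CLEAN) (h4 : S_F1) (h5 : S_F2) (h6 : S_WIN)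
    (h7 : S_LOC) : S_ASM := by
  obtain ⟨C0, hC0, hR⟩ := h2
  refine ⟨C0, hC0, ?_⟩
  intro n A H B L hA hdeg hFI hH0 hB harcs hH hL hC hln hbig
  have hL0 : 0 < L := lt_of_lt_of_le (by norm_num) hL
  have hL1 : 1 ≤ L := le_trans (by norm_num) hL
  have hB0 : 0 < B := lt_of_lt_of_le one_pos hB
  -- number of vertices
  have hn : (n:ℝ) ≤ B ^ 3 * L ^ 3 := by
    have := h4 n A H hA hdeg hFI
    have e1 := ASM_mul hL (c := 8) (by norm_num) 2 3 (by norm_num)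
    calc (n:ℝ) ≤ 8 * H := this
      _ ≤ 8 * (B ^ 3 * L ^ 2) := by gcongr
      _ = B ^ 3 * (8 * L ^ 2) := by ring
      _ ≤ B ^ 3 * L ^ 3 := by gcongr
  have hn0 : (0:ℝ) ≤ n := by positivity
  -- total length
  have hlen : ∑ i, ∑ j, A i j * |((i.val : ℝ) - (j.val : ℝ))| ≤ 2 * B ^ 2 * L ^ 4 * B ^ 5 := by
    have e0 := h5 n A H hA hFI hH0.le
    have e1 : Real.sqrt (H * arcs A) ≤ B ^ 4 * L := by
      rw [harcs]
      apply Real.sqrt_le_iff.mpr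
      refine ⟨by positivity, ?_⟩
      calc H * B ^ 5 ≤ B ^ 3 * L ^ 2 * B ^ 5 := by gcongr
        _ = (B ^ 4 * L) ^ 2 := by ring
    calc _ ≤ 2 * n * Real.sqrt (H * arcs A) := e0
      _ ≤ 2 * (B ^ 3 * L ^ 3) * (B ^ 4 * L) := by gcongr
      _ = 2 * B ^ 2 * L ^ 4 * B ^ 5 := by ring
  -- parameters
  have hBL : 1 ≤ B ^ 2 * L ^ 4 :=
    one_le_mul_of_one_le_of_one_le (one_le_pow₀ hB) (one_le_pow₀ hL1)
  obtain ⟨ℓ, hℓ1, hℓ, hℓ'⟩ := ASM_ceil (x := 2 * B ^ 2 * L ^ 4) (by nlinarith)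
  obtain ⟨a, ha1, ha, ha'⟩ := ASM_ceil (x := L ^ 1019) (one_le_pow₀ hL1)
  obtain ⟨c, hc1, hc, hc'⟩ := ASM_ceil (x := L ^ 3035) (one_le_pow₀ hL1)
  have hℓ3 : (ℓ:ℝ) ≤ 3 * B ^ 2 * L ^ 4 := by nlinarith
  have ha3 : (a:ℝ) ≤ 2 * L ^ 1019 := by
    have : (1:ℝ) ≤ L ^ 1019 := one_le_pow₀ hL1
    linarith
  have hc3 : (c:ℝ) ≤ 2 * L ^ 3035 := by
    have : (1:ℝ) ≤ L ^ 3035 := one_le_pow₀ hL1
    linarith
  have hℓ0 : (0:ℝ) ≤ ℓ := by positivity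
  -- the window
  obtain ⟨k, w1, w2, w3, w4, w5⟩ := h6 n A H hA hdeg hFI hH0 ℓ a c (B ^ 2 / L ^ 1000)
    (B ^ 2 / L ^ 6) (B ^ 2 * L ^ 2035) (B ^ 2 * L ^ 3050) hℓ1 ha1 hc1 (by positivity)
    (by positivity) (by positivity) (by positivity) (by rw [harcs]; positivity)
    (by
      rw [harcs]
      refine hlen.trans ?_
      gcongr)
    (ASM_N1 hL hB hbig hH)
    (by
      rw [harcs]
      exact ASM_N2 hL hB hH0 hH hℓ0 hℓ3 ha ha3 hc hc3)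
  rw [harcs] at w1
  set I := win n ℓ k 0 with hIdef
  set J1 := win n ℓ k a with hJ1def
  set J2 := win n ℓ k (a + c) with hJ2def
  have hIJ1 : I ⊆ J1 := ASM_win_mono (Nat.zero_le _)
  have hJ12 : J1 ⊆ J2 := ASM_win_mono (Nat.le_add_right _ _)
  have hIcard : (I.card : ℝ) ≤ 6 * B ^ 2 * L ^ 4 := by
    have := ASM_card n ℓ k 0
    have h' : (I.card : ℝ) ≤ (2 + 2 * 0) * ℓ := by exact_mod_cast this
    linarith
  have hJ2card : (J2.card : ℝ) ≤ (2 + 2 * ((a:ℝ) + c)) * ℓ := by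
    have := ASM_card n ℓ k (a + c)
    exact_mod_cast this
  have heI : B ^ 4 * L / 2 ≤ e2 A I := (ASM_N8 hL hB hbig hn0 hn hℓ).trans w1
  -- rounding and cleaning
  have hln0 : 0 < 1 + Real.log ((n:ℝ) + 1) := by
    have := Real.log_nonneg (x := (n:ℝ) + 1) (by linarith)
    linarith
  have hs0 : 0 ≤ B ^ 2 * L ^ 3050 := by positivity
  have hround := hR (Fin n) A hA J2 (B ^ 2 * L ^ 3050) hs0 w5
  rw [Fintype.card_fin] at hround
  obtain ⟨U, hU, hUcard, hMin⟩ := h3 (Fin n) A hA J2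
    (C0 * (B ^ 2 * L ^ 3050 + 1) * (1 + Real.log ((n:ℝ) + 1))) ((B ^ 2 / L ^ 1000) / 100)
    (by positivity) (by positivity) hround
  have hMin' : MinEig A (J2 \ U) (L ^ 4053) :=
    ASM_mineig hMin (Finset.Subset.refl _) (ASM_N3 hL hB hC hln0 hln)
  -- the cleaned window
  set Lg := I.filter (fun v => (B ^ 2 / L ^ 1000) / 100 < long A (a * ℓ) v) with hLg
  set I' := (I \ U) \ Lg with hI'
  have hI'I : I' ⊆ I := Finset.sdiff_subset.trans Finset.sdiff_subset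
  have hrem : ((I \ I').card : ℝ) ≤ (B ^ 2 / L ^ 1000) / 100 + B ^ 2 / L ^ 6 := by
    have e1 : I \ I' ⊆ U ∪ Lg := by
      intro v hv
      simp only [hI', Finset.mem_sdiff, Finset.mem_union, not_and_or, not_not] at hv ⊢
      tauto
    have e2 : (I \ I').card ≤ U.card + Lg.card :=
      (Finset.card_le_card e1).trans (Finset.card_union_le _ _)
    have e3 : ((I \ I').card : ℝ) ≤ (U.card : ℝ) + Lg.card := by exact_mod_cast e2
    linarith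
  have hX := ASM_N9 (e' := e2 A I') (X := (I'.card : ℝ)) hL hB heI (by positivity) hIcard hrem
    (ASM_e2 hA hI'I) (by positivity) (ASM_e2_le hA I')
    (by exact_mod_cast Finset.card_le_card hI'I)
  have hlam2 : (2:ℝ) ≤ L ^ 4053 := by
    have := ASM_mul hL (c := 2) (by norm_num) 0 4053 (by norm_num)
    rwa [pow_zero, mul_one] at this
  have hI'J : I' ⊆ J2 \ U := by
    intro v hv
    simp only [hI', Finset.mem_sdiff] at hv ⊢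
    exact ⟨hJ12 (hIJ1 hv.1.1), hv.1.2⟩
  obtain ⟨Q, hQI, hQc, hQd⟩ := h1 (Fin n) A (L ^ 4053) hA hlam2 I'
    (ASM_mineig hMin' hI'J le_rfl) (1 / L ^ 10) (by positivity)
    (by
      rw [div_le_one (by positivity)]
      exact one_le_pow₀ hL1)
    hX.2 (ASM_N4 hL hB hbig hX.1)
  -- the local contradiction
  have hloc := h7 n A (L ^ 4053) (B ^ 2 / L ^ 1000) hA hlam2 (ASM_N6 hL hbig) J1 J2 U Q hJ12 hU
    (by
      intro v hv
      have := hQI hv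
      simp only [hI', Finset.mem_sdiff] at this ⊢
      exact ⟨hIJ1 this.1.1, this.1.2⟩)
    hMin' (ASM_N5 hL hX.1 hQc) hQd hUcard
    (by
      intro v hv
      have h' := hQI hv
      simp only [hI', hLg, Finset.mem_sdiff, Finset.mem_filter, not_and, not_lt] at h'
      have e1 := ASM_long hA ℓ k 0 a v h'.1.1
      rw [Nat.zero_add] at e1
      exact e1.trans (h'.2 h'.1.1))
    (by
      refine le_trans ?_ w3
      have e1 : J1.filter (fun v => (B ^ 2 / L ^ 1000) / 100 < deg A J2ᶜ v) ⊆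
          J1.filter (fun v => (B ^ 2 / L ^ 1000) / 100 < long A (c * ℓ) v) := by
        intro v hv
        rw [Finset.mem_filter] at hv ⊢
        exact ⟨hv.1, lt_of_lt_of_le hv.2 (ASM_long hA ℓ k a c v hv.1)⟩
      exact_mod_cast Finset.card_le_card e1)
    w4
  exact ASM_N7 hL hB hbig hℓ0 hℓ3 ha3 hc3 hJ2card hloc

end Pool.Agent.H427R2.SD
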