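import Pool.Agent.H427R2.SD.St

set_option autoImplicit false

/-! LARGE (helper511) -/

namespace Pool.Agent.H427R2.SD

open Finset

/-- vectors indexed by a small finset can be indexed by `Fin K` -/
theorem LARGE_enum {ι : Type} [DecidableEq ι] (s : Finset ι) (g : ι → ι → ℝ) (K : ℕ)
    (hK : s.card ≤ K) : ∃ u : Fin K → ι → ℝ, ∀ i j, sq u i j = ∑ k ∈ s, g k i * g k j := by
  classical
  have h1 : Fintype.card s ≤ Fintype.card (Fin K) := by simpa using hK
  obtain ⟨φ⟩ := Function.Embedding.nonempty_of_card_le h1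
  refine ⟨fun a i => ∑ k : s, if φ k = a then g k i else 0, fun i j => ?_⟩
  unfold sq
  have h2 : ∀ a : Fin K, (∑ k : s, if φ k = a then g k i else 0) *
      (∑ k : s, if φ k = a then g k j else 0) = ∑ k : s, if φ k = a then g k i * g k j else 0 := by
    intro a
    by_cases ha : ∃ k, φ k = a
    · obtain ⟨k, rfl⟩ := ha
      simp [φ.injective.eq_iff]
    · have h3 : ∀ k, φ k ≠ a := fun k hk => ha ⟨k, hk⟩
      simp [h3]
  simp only [h2]
  rw [Finset.sum_comm]
  simp only [Finset.sum_ite_eq, Finset.mem_univ, if_true]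
  exact Finset.sum_coe_sort s (fun k => g k i * g k j)

theorem LARGE_psd {ι : Type} [Fintype ι] (c : ι → ℝ) (v : ι → ι → ℝ) (hc : ∀ k, 0 ≤ c k)
    (M : ι → ι → ℝ) (hM : ∀ i j, M i j = ∑ k, c k * v k i * v k j) : PSD M := by
  refine ⟨fun i j => ?_, fun x => ?_⟩
  · rw [hM, hM]
    exact Finset.sum_congr rfl fun k _ => by ring
  · have h : quad M x = ∑ k, c k * (∑ i, v k i * x i) ^ 2 := by
      unfold quad
      calc ∑ i, ∑ j, M i j * x i * x j
          = ∑ i, ∑ j, ∑ k, c k * ((v k i * x i) * (v k j * x j)) := by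
            refine Finset.sum_congr rfl fun i _ => Finset.sum_congr rfl fun j _ => ?_
            rw [hM, Finset.sum_mul, Finset.sum_mul]
            exact Finset.sum_congr rfl fun k _ => by ring
        _ = ∑ i, ∑ k, ∑ j, c k * ((v k i * x i) * (v k j * x j)) :=
            Finset.sum_congr rfl fun i _ => Finset.sum_comm
        _ = ∑ k, ∑ i, ∑ j, c k * ((v k i * x i) * (v k j * x j)) := Finset.sum_comm
        _ = ∑ k, c k * (∑ i, v k i * x i) ^ 2 := by
            refine Finset.sum_congr rfl fun k _ => ?_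
            rw [pow_two, Finset.sum_mul_sum, Finset.mul_sum]
            exact Finset.sum_congr rfl fun i _ => by rw [Finset.mul_sum]
    rw [h]
    exact Finset.sum_nonneg fun k _ => mul_nonneg (hc k) (sq_nonneg _)

theorem LARGE_restrict {ι : Type} [Fintype ι] [DecidableEq ι] (S : Finset ι) (M : ι → ι → ℝ)
    (hM : PSD M) : PSD (fun i j : S => M i j) := by
  refine ⟨fun i j => hM.1 i j, fun x => ?_⟩
  have h := hM.2 (fun i => if h : i ∈ S then x ⟨i, h⟩ else 0)
  have e : quad (fun i j : S => M i j) x = quad M (fun i => if h : i ∈ S then x ⟨i, h⟩ else 0) := by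
    unfold quad
    have h1 : ∀ g : ι → ℝ, (∀ i, i ∉ S → g i = 0) → ∑ i, g i = ∑ i : S, g i := by
      intro g hg
      rw [Finset.sum_coe_sort S g]
      exact (Finset.sum_subset (Finset.subset_univ S) fun i _ hi => hg i hi).symm
    rw [h1 _ (fun i hi => by simp [hi])]
    refine Finset.sum_congr rfl fun i _ => ?_
    rw [h1 _ (fun j hj => by simp [hj])]
    refine Finset.sum_congr rfl fun j _ => ?_
    simp
  rw [e]
  exact h

theorem t_LARGE (h1 : S_GL) : S_LARGE := by
  intro ι _ _ A lam hA hlam μ v hD η f hη hf hf32 hcnt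
  classical
  obtain ⟨hμ, hon, hon', hdec⟩ := hD
  rcases Nat.eq_zero_or_pos (Fintype.card ι) with hN0 | hNpos
  · rw [hN0]
    push_cast
    positivity
  have hN : (0 : ℝ) < (Fintype.card ι : ℝ) := by exact_mod_cast hNpos
  obtain ⟨s, hs⟩ : ∃ s : Finset ι, s = univ.filter (fun k => η ≤ μ k) := ⟨_, rfl⟩
  have hcs : (s.card : ℝ) ≤ f ^ 9 := by
    have : cnt μ η = (s.card : ℝ) := by
      unfold cnt
      rw [hs, Finset.sum_boole]
    rw [← this]
    exact hcnt
  obtain ⟨K, hK⟩ : ∃ K : ℕ, K = ⌈f ^ 9⌉₊ := ⟨_, rfl⟩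
  have hKle : f ^ 9 ≤ (K : ℝ) := by
    rw [hK]
    exact Nat.le_ceil _
  have hf0 : (0 : ℝ) ≤ f := by linarith
  have hKlt : (K : ℝ) < f ^ 9 + 1 := by
    rw [hK]
    exact Nat.ceil_lt_add_one (by positivity)
  have hsK : s.card ≤ K := by
    have : (s.card : ℝ) ≤ (K : ℝ) := hcs.trans hKle
    exact_mod_cast this
  obtain ⟨u, hu⟩ := LARGE_enum s (fun k i => Real.sqrt (μ k) * v k i) K hsK
  have hu' : ∀ i j, sq u i j = ∑ k ∈ s, μ k * v k i * v k j := by
    intro i j
    rw [hu]
    refine Finset.sum_congr rfl fun k _ => ?_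
    have := Real.mul_self_sqrt (hμ k)
    calc Real.sqrt (μ k) * v k i * (Real.sqrt (μ k) * v k j)
        = (Real.sqrt (μ k) * Real.sqrt (μ k)) * v k i * v k j := by ring
      _ = _ := by rw [this]
  have hM : PSD (shift A lam) := LARGE_psd μ v hμ _ hdec
  have hMu : PSD (fun i j => shift A lam i j - sq u i j) := by
    refine LARGE_psd (fun k => if k ∈ s then 0 else μ k) v (fun k => ?_) _ (fun i j => ?_)
    · split_ifs
      · exact le_rfl
      · exact hμ k
    · rw [hdec, hu']
      have e1 : ∑ k ∈ s, μ k * v k i * v k j = ∑ k, if k ∈ s then μ k * v k i * v k j else 0 := by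
        rw [Finset.sum_ite_mem, Finset.univ_inter]
      rw [e1, ← Finset.sum_sub_distrib]
      refine Finset.sum_congr rfl fun k _ => ?_
      split_ifs <;> ring
  have hdiag : ∀ i, sq u i i ≤ lam := by
    intro i
    have e1 : shift A lam i i = lam := by
      unfold shift
      rw [hA.1 i]
      simp
    rw [← e1, hdec, hu']
    refine Finset.sum_le_sum_of_subset_of_nonneg (Finset.subset_univ _) fun k _ _ => ?_
    have : μ k * v k i * v k i = μ k * (v k i) ^ 2 := by ring
    rw [this]
    exact mul_nonneg (hμ k) (sq_nonneg _)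
  have htr : ∑ i, sq u i i = f * (Fintype.card ι : ℝ) := by
    rw [hf]
    unfold F
    simp only [hu']
    rw [Finset.sum_comm, hs, Finset.sum_filter]
    refine Finset.sum_congr rfl fun k _ => ?_
    split_ifs with hk
    · have h3 := hon k k
      simp only [if_true] at h3
      calc ∑ i, μ k * v k i * v k i = μ k * ∑ i, v k i * v k i := by
            rw [Finset.mul_sum]
            exact Finset.sum_congr rfl fun i _ => by ring
        _ = μ k := by rw [h3, mul_one]
    · rfl
  have hflam : f ≤ lam := by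
    have h3 : f * (Fintype.card ι : ℝ) ≤ lam * (Fintype.card ι : ℝ) := by
      rw [← htr]
      calc ∑ i, sq u i i ≤ ∑ _i : ι, lam := Finset.sum_le_sum fun i _ => hdiag i
        _ = lam * (Fintype.card ι : ℝ) := by
          rw [Finset.sum_const, nsmul_eq_mul, mul_comm, Finset.card_univ]
    exact le_of_mul_le_mul_right h3 hN
  obtain ⟨S, hS⟩ : ∃ S : Finset ι, S = univ.filter (fun i => f / 2 ≤ sq u i i) := ⟨_, rfl⟩
  have hScard : f * (Fintype.card ι : ℝ) ≤ lam * (S.card : ℝ) + f / 2 * (Fintype.card ι : ℝ) := by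
    rw [← htr]
    have h3 : ∀ i, sq u i i ≤ (if i ∈ S then lam else 0) + f / 2 := by
      intro i
      by_cases hi : i ∈ S
      · rw [if_pos hi]
        have := hdiag i
        linarith
      · rw [if_neg hi]
        rw [hS, Finset.mem_filter, not_and, not_le] at hi
        have := hi (Finset.mem_univ i)
        linarith
    calc ∑ i, sq u i i ≤ ∑ i, ((if i ∈ S then lam else 0) + f / 2) :=
          Finset.sum_le_sum fun i _ => h3 i
      _ = lam * (S.card : ℝ) + f / 2 * (Fintype.card ι : ℝ) := by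
          rw [Finset.sum_add_distrib, Finset.sum_ite_mem, Finset.univ_inter, Finset.sum_const,
            Finset.sum_const, nsmul_eq_mul, nsmul_eq_mul, Finset.card_univ]
          ring
  have hS16 : 16 * (Fintype.card ι : ℝ) ≤ lam * (S.card : ℝ) := by nlinarith
  -- the parameters
  obtain ⟨σ, hσ⟩ : ∃ σ : ℝ, σ = (f / 2 + 1) / 2 := ⟨_, rfl⟩
  have hσ1 : 1 < σ := by
    rw [hσ]
    linarith
  have hσ2 : f ≤ σ ^ 2 := by
    rw [hσ]
    nlinarith
  have hσlam : σ ≤ lam := by
    rw [hσ]
    linarith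
  have hex : ∃ j : ℕ, lam < σ ^ j := pow_unbounded_of_one_lt lam hσ1
  obtain ⟨j, hj, hjmin⟩ : ∃ j : ℕ, lam < σ ^ j ∧ ∀ i < j, ¬ lam < σ ^ i :=
    ⟨Nat.find hex, Nat.find_spec hex, fun i hi => Nat.find_min hex hi⟩
  have hj1 : 1 ≤ j := by
    rcases Nat.eq_zero_or_pos j with h | h
    · rw [h, pow_zero] at hj
      linarith
    · exact h
  have hjpred : σ ^ (j - 1) ≤ lam := not_lt.1 (hjmin (j - 1) (by omega))
  obtain ⟨x, hx⟩ : ∃ x : ℝ, x = 4 * K / (f / 2 - 1) := ⟨_, rfl⟩
  have hden : 0 < f / 2 - 1 := by linarith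
  have hf9 : (32 : ℝ) ^ 9 ≤ f ^ 9 := pow_le_pow_left₀ (by norm_num) hf32 9
  have hf9' : f ≤ f ^ 9 := by
    have : (1 : ℝ) ≤ f ^ 8 := one_le_pow₀ (by linarith)
    calc f = f * 1 := (mul_one f).symm
      _ ≤ f * f ^ 8 := mul_le_mul_of_nonneg_left this hf0
      _ = f ^ 9 := by ring
  have hx1 : 1 ≤ x := by
    rw [hx, le_div_iff₀ hden]
    linarith
  have hxf : x ≤ f ^ 9 := by
    rw [hx, div_le_iff₀ hden]
    nlinarith
  have hsh : ∀ i j : S, shift (fun i j : S => A i j) lam i j = shift A lam i j := by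
    intro i j
    unfold shift
    by_cases h : i = j
    · rw [if_pos h, if_pos (congrArg Subtype.val h)]
    · rw [if_neg h, if_neg (fun hh => h (Subtype.ext hh))]
  have hsh' : shift (fun i j : S => A i j) lam = fun i j : S => shift A lam i j := by
    funext i j
    exact hsh i j
  have hmem : ∀ k, k ∈ S → f / 2 ≤ sq u k k := by
    intro k hk
    rw [hS, Finset.mem_filter] at hk
    exact hk.2
  have hp1 : PSD (shift (fun i j : S => A i j) lam) := by
    rw [hsh']
    exact LARGE_restrict S _ hM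
  have hp2 : PSD (fun i j : S => shift (fun i j : S => A i j) lam i j -
      sq (fun a (i : S) => u a i) i j) := by
    have h := LARGE_restrict S _ hMu
    have e : (fun i j : S => shift (fun i j : S => A i j) lam i j -
      sq (fun a (i : S) => u a i) i j) = fun i j : S => shift A lam i j - sq u i j := by
      funext i j
      rw [hsh]
      rfl
    rw [e]
    exact h
  have hgl := h1 S (fun i j => A i j) lam ⟨fun i => hA.1 i, fun i j => hA.2.1 i j,
    fun i j => hA.2.2 i j⟩ hlam hp1 K (fun a i => u a i) hp2 (f / 2) x j (by linarith)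
    (fun i => hmem i i.2) (by rw [hx, div_mul_cancel₀ _ hden.ne']) hx1
  have hlt : (S.card : ℝ) < lam ^ 2 * x ^ (j + 1) := by
    by_contra hcon
    rw [not_lt] at hcon
    have := hgl (by rw [Fintype.card_coe]; exact hcon)
    rw [← hσ] at this
    linarith
  have hσ0 : (0 : ℝ) < σ := by linarith
  have hx0 : (0 : ℝ) ≤ x := by linarith
  have hxpow : x ^ (j + 1) ≤ lam ^ 54 := by
    calc x ^ (j + 1) ≤ (σ ^ 18) ^ (j + 1) := by
          refine pow_le_pow_left₀ hx0 (hxf.trans ?_) _
          calc f ^ 9 ≤ (σ ^ 2) ^ 9 := pow_le_pow_left₀ hf0 hσ2 9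
            _ = σ ^ 18 := by ring
      _ = (σ ^ (j - 1) * σ ^ 2) ^ 18 := by
          rw [← pow_add, ← pow_mul, ← pow_mul]
          congr 1
          omega
      _ ≤ (lam * lam ^ 2) ^ 18 := by
          refine pow_le_pow_left₀ (by positivity) ?_ 18
          refine mul_le_mul hjpred (pow_le_pow_left₀ hσ0.le hσlam 2) (by positivity) (by linarith)
      _ = lam ^ 54 := by ring
  have hlam0 : (0 : ℝ) < lam := by linarith
  have hfin : lam * (S.card : ℝ) < lam ^ 57 := by
    calc lam * (S.card : ℝ) < lam * (lam ^ 2 * x ^ (j + 1)) := mul_lt_mul_of_pos_left hlt hlam0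
      _ ≤ lam * (lam ^ 2 * lam ^ 54) := by
          refine mul_le_mul_of_nonneg_left (mul_le_mul_of_nonneg_left hxpow (by positivity)) hlam0.le
      _ = lam ^ 57 := by ring
  linarith

end Pool.Agent.H427R2.SD
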