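import Pool.Agent.H427R2.SD.St

set_option autoImplicit false

namespace Pool.Agent.H427R2.SD

open Finset

lemma WIN_mem {n ℓ k a : ℕ} {v : Fin n} :
    v ∈ win n ℓ k a ↔ k * ℓ ≤ v.val + a * ℓ ∧ v.val < (k + 2 + a) * ℓ := by
  simp [win]

lemma WIN_count (n ℓ a N : ℕ) (hℓ : 1 ≤ ℓ) (v : Fin n) :
    ((range N).filter (fun k => v ∈ win n ℓ k a)).card ≤ 2 * a + 2 := by
  have h : (Finset.Icc (v.val / ℓ) (v.val / ℓ + 2 * a + 1)).card = 2 * a + 2 := by
    rw [Nat.card_Icc]; omega
  rw [← h]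
  refine Finset.card_le_card_of_injOn (fun k => k + a + 1) ?_ ?_
  · intro k hk
    have hk' := (Finset.mem_filter.1 hk).2
    rw [WIN_mem] at hk'
    simp only [Finset.coe_Icc, Set.mem_Icc]
    constructor
    · have : v.val / ℓ < k + 2 + a := (Nat.div_lt_iff_lt_mul (by omega)).2 hk'.2
      omega
    · have : k - a ≤ v.val / ℓ := by
        rw [Nat.le_div_iff_mul_le (by omega), Nat.sub_mul]
        omega
      omega
  · intro k _ k' _ h
    simp only at h
    omega

lemma WIN_markov (n ℓ a N : ℕ) (hℓ : 1 ≤ ℓ) (p : Fin n → Prop) [DecidablePred p] (t : ℝ) :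
    (((range N).filter (fun k => t < (((win n ℓ k a).filter p).card : ℝ))).card : ℝ) * t ≤
      (2 * a + 2) * ((univ.filter p).card : ℝ) := by
  have h1 : (((range N).filter (fun k => t < (((win n ℓ k a).filter p).card : ℝ))).card : ℝ) * t ≤
      ∑ k ∈ (range N).filter (fun k => t < (((win n ℓ k a).filter p).card : ℝ)),
        (((win n ℓ k a).filter p).card : ℝ) := by
    rw [← nsmul_eq_mul]
    exact Finset.card_nsmul_le_sum _ _ _ fun k hk => (Finset.mem_filter.1 hk).2.le
  have h2 : ∑ k ∈ (range N).filter (fun k => t < (((win n ℓ k a).filter p).card : ℝ)),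
        (((win n ℓ k a).filter p).card : ℝ) ≤
      ∑ k ∈ range N, (((win n ℓ k a).filter p).card : ℝ) :=
    Finset.sum_le_sum_of_subset_of_nonneg (Finset.filter_subset _ _)
      fun _ _ _ => Nat.cast_nonneg _
  have h3 : ∑ k ∈ range N, ((win n ℓ k a).filter p).card =
      ∑ v ∈ univ.filter p, ((range N).filter (fun k => v ∈ win n ℓ k a)).card := by
    simp only [Finset.card_filter]
    simp only [Finset.sum_filter]
    simp only [win, Finset.sum_filter]
    rw [Finset.sum_comm]
    refine Finset.sum_congr rfl fun v _ => ?_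
    by_cases hv : p v
    · simp only [hv, if_true]
      refine Finset.sum_congr rfl fun k _ => ?_
      simp
    · simp [hv]
  have h4 : ∑ v ∈ univ.filter p, ((range N).filter (fun k => v ∈ win n ℓ k a)).card ≤
      (univ.filter p).card * (2 * a + 2) := by
    rw [← smul_eq_mul]
    exact Finset.sum_le_card_nsmul _ _ _ fun v _ => WIN_count n ℓ a N hℓ v
  have h5 : ∑ k ∈ range N, (((win n ℓ k a).filter p).card : ℝ) ≤
      (2 * a + 2) * ((univ.filter p).card : ℝ) := by
    have : ∑ k ∈ range N, ((win n ℓ k a).filter p).card ≤ (univ.filter p).card * (2 * a + 2) :=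
      h3 ▸ h4
    have h6 : ((∑ k ∈ range N, ((win n ℓ k a).filter p).card : ℕ) : ℝ) ≤
        (((univ.filter p).card * (2 * a + 2) : ℕ) : ℝ) := by exact_mod_cast this
    push_cast at h6
    linarith
  linarith

lemma WIN_A01 {ι : Type} {A : ι → ι → ℝ} (hA : IsAdj A) (i j : ι) : 0 ≤ A i j ∧ A i j ≤ 1 := by
  rcases hA.2.2 i j with h | h <;> rw [h] <;> norm_num

lemma WIN_long_nonneg {n : ℕ} {A : Fin n → Fin n → ℝ} (hA : IsAdj A) (L : ℕ) (v : Fin n) :
    0 ≤ long A L v :=
  Finset.sum_nonneg fun u _ => by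
    split_ifs
    · exact (WIN_A01 hA _ _).1
    · exact le_rfl

lemma WIN_long_sum {n : ℕ} {A : Fin n → Fin n → ℝ} (hA : IsAdj A) (L : ℕ) :
    (L : ℝ) * ∑ v, long A L v ≤ ∑ i, ∑ j, A i j * |((i.val : ℝ) - (j.val : ℝ))| := by
  rw [Finset.mul_sum]
  refine Finset.sum_le_sum fun v _ => ?_
  unfold long
  rw [Finset.mul_sum]
  refine Finset.sum_le_sum fun u _ => ?_
  have h0 := (WIN_A01 hA v u).1
  split_ifs with h
  · rw [mul_comm]
    refine mul_le_mul_of_nonneg_left ?_ h0
    rcases h with h | h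
    · have h' : (v.val : ℝ) + L < u.val := by exact_mod_cast h
      rw [abs_sub_comm]
      exact le_trans (by linarith) (le_abs_self _)
    · have h' : (u.val : ℝ) + L < v.val := by exact_mod_cast h
      exact le_trans (by linarith) (le_abs_self _)
  · rw [mul_zero]
    exact mul_nonneg h0 (abs_nonneg _)

lemma WIN_card_long {n : ℕ} {A : Fin n → Fin n → ℝ} (hA : IsAdj A) (L : ℕ) (t : ℝ) :
    ((univ.filter (fun v => t < long A L v)).card : ℝ) * t ≤ ∑ v, long A L v := by
  rw [← nsmul_eq_mul]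
  refine (Finset.card_nsmul_le_sum _ _ _ fun k hk => (Finset.mem_filter.1 hk).2.le).trans ?_
  exact Finset.sum_le_sum_of_subset_of_nonneg (Finset.filter_subset _ _)
    fun v _ _ => WIN_long_nonneg hA L v

lemma WIN_card_win (n ℓ k : ℕ) : (win n ℓ k 0).card ≤ 2 * ℓ := by
  have h : (Finset.Ico (k * ℓ) ((k + 2) * ℓ)).card = 2 * ℓ := by
    rw [Nat.card_Ico, ← Nat.sub_mul]
    congr 1; omega
  rw [← h]
  refine Finset.card_le_card_of_injOn (fun v => v.val) ?_ ?_
  · intro v hv
    have hv' := WIN_mem.1 hv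
    simp only [zero_mul, add_zero] at hv'
    simp only [Finset.coe_Ico, Set.mem_Ico]
    exact hv'
  · intro v _ v' _ h
    exact Fin.ext h

lemma WIN_e2_le {n : ℕ} {A : Fin n → Fin n → ℝ} (hA : IsAdj A) (ℓ k : ℕ) :
    e2 A (win n ℓ k 0) ≤ 4 * (ℓ : ℝ) ^ 2 := by
  have h1 : e2 A (win n ℓ k 0) ≤ ((win n ℓ k 0).card : ℝ) * ((win n ℓ k 0).card : ℝ) := by
    unfold e2
    calc ∑ i ∈ win n ℓ k 0, ∑ j ∈ win n ℓ k 0, A i j
        ≤ ∑ i ∈ win n ℓ k 0, ∑ j ∈ win n ℓ k 0, (1 : ℝ) :=
          Finset.sum_le_sum fun i _ => Finset.sum_le_sum fun j _ => (WIN_A01 hA i j).2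
      _ = _ := by simp
  have h2 : ((win n ℓ k 0).card : ℝ) ≤ 2 * ℓ := by exact_mod_cast WIN_card_win n ℓ k
  have h3 : (0 : ℝ) ≤ (win n ℓ k 0).card := Nat.cast_nonneg _
  nlinarith

lemma WIN_e2_eq {n : ℕ} (A : Fin n → Fin n → ℝ) (W : Finset (Fin n)) :
    e2 A W = ∑ i, ∑ j, (if i ∈ W ∧ j ∈ W then A i j else 0) := by
  have h1 : ∀ i, ∑ j ∈ W, A i j = ∑ j, if j ∈ W then A i j else 0 := by
    intro i
    rw [Finset.sum_ite_mem, Finset.univ_inter]
  have h2 : e2 A W = ∑ i, if i ∈ W then (∑ j ∈ W, A i j) else 0 := by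
    rw [Finset.sum_ite_mem, Finset.univ_inter]
    rfl
  rw [h2]
  refine Finset.sum_congr rfl fun i _ => ?_
  by_cases hi : i ∈ W
  · simp only [hi, if_true, true_and]
    exact h1 i
  · simp [hi]

lemma WIN_cover {n : ℕ} {A : Fin n → Fin n → ℝ} (hA : IsAdj A) (ℓ : ℕ) (hℓ : 1 ≤ ℓ) :
    ∑ i, ∑ j, A i j - ∑ v, long A ℓ v ≤ ∑ k ∈ range (n / ℓ + 1), e2 A (win n ℓ k 0) := by
  have h1 : ∑ k ∈ range (n / ℓ + 1), e2 A (win n ℓ k 0) =
      ∑ i, ∑ j, ∑ k ∈ range (n / ℓ + 1),
        (if i ∈ win n ℓ k 0 ∧ j ∈ win n ℓ k 0 then A i j else 0) := by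
    simp only [WIN_e2_eq]
    rw [Finset.sum_comm]
    refine Finset.sum_congr rfl fun i _ => ?_
    rw [Finset.sum_comm]
  rw [h1, ← Finset.sum_sub_distrib]
  refine Finset.sum_le_sum fun i _ => ?_
  unfold long
  rw [← Finset.sum_sub_distrib]
  refine Finset.sum_le_sum fun j _ => ?_
  have h0 := (WIN_A01 hA i j).1
  split_ifs with h
  · rw [sub_self]
    exact Finset.sum_nonneg fun k _ => by split_ifs <;> simp [h0]
  · rw [sub_zero]
    push Not at h
    have hk : min i.val j.val / ℓ ∈ range (n / ℓ + 1) := by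
      rw [Finset.mem_range]
      have : min i.val j.val / ℓ ≤ n / ℓ := Nat.div_le_div_right (by have := i.2; omega)
      omega
    refine le_trans (le_of_eq ?_) (Finset.single_le_sum (f := fun k =>
      if i ∈ win n ℓ k 0 ∧ j ∈ win n ℓ k 0 then A i j else 0)
      (fun k _ => by split_ifs <;> simp [h0]) hk)
    have e1 : min i.val j.val / ℓ * ℓ ≤ min i.val j.val := Nat.div_mul_le_self _ _
    have e2 : min i.val j.val < min i.val j.val / ℓ * ℓ + ℓ := Nat.lt_div_mul_add (by omega)
    have e3 : (min i.val j.val / ℓ + 2) * ℓ = min i.val j.val / ℓ * ℓ + ℓ + ℓ := by ring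
    rw [if_pos]
    rw [WIN_mem, WIN_mem]
    simp only [zero_mul, add_zero]
    rw [e3]
    omega

lemma WIN_far {n ℓ b k k' : ℕ} (h : k' + (2 * b + 2) ≤ k) :
    Disjoint (win n ℓ k b) (win n ℓ k' b) := by
  rw [Finset.disjoint_left]
  intro v h1 h2
  rw [WIN_mem] at h1 h2
  have h3 : (k' + (2 * b + 2)) * ℓ ≤ k * ℓ := Nat.mul_le_mul_right _ h
  have h4 : (k' + (2 * b + 2)) * ℓ = (k' + 2 + b) * ℓ + b * ℓ := by ring
  omega

/-- the number of windows with a large surplus -/
lemma WIN_surplus (h4 : S_F4) {n : ℕ} {A : Fin n → Fin n → ℝ} {H : ℝ} (hA : IsAdj A)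
    (hF : FI A H) (ℓ b N : ℕ) (s : ℝ) (p : ℕ → Prop) [DecidablePred p]
    (hp : ∀ k, p k → ∃ x : Fin n → ℝ, (∀ i, |x i| ≤ 1) ∧ (∀ i, i ∉ win n ℓ k b → x i = 0) ∧
      s < -quad A x) :
    (((range N).filter p).card : ℝ) * s ≤ (2 * b + 2) * (2 * H) := by
  classical
  choose! x hx1 hx2 hx3 using hp
  let X : ℕ → Fin n → ℝ := fun k => if p k then x k else 0
  have hX1 : ∀ k i, |X k i| ≤ 1 := by
    intro k i
    by_cases hk : p k
    · simp only [X, hk, if_true]; exact hx1 k hk i
    · simp [X, hk]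
  have hX2 : ∀ k i, i ∉ win n ℓ k b → X k i = 0 := by
    intro k i hi
    by_cases hk : p k
    · simp only [X, hk, if_true]; exact hx2 k hk i hi
    · simp [X, hk]
  have hcls : ∀ ρ : ℕ, ((((range N).filter p).filter (fun k => k % (2 * b + 2) = ρ)).card : ℝ) * s
      ≤ 2 * H := by
    intro ρ
    have := h4 n A H hA hF (((range N).filter p).filter (fun k => k % (2 * b + 2) = ρ))
      (fun k => win n ℓ k b) X ?_ hX1 hX2
    · refine le_trans ?_ this
      rw [← nsmul_eq_mul]
      refine Finset.card_nsmul_le_sum _ _ _ fun k hk => ?_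
      have hk' : p k := (Finset.mem_filter.1 (Finset.mem_filter.1 hk).1).2
      simp only [X, hk', if_true]
      exact (hx3 k hk').le
    · intro k hk k' hk' hne
      have e1 := (Finset.mem_filter.1 hk).2
      have e2 := (Finset.mem_filter.1 hk').2
      have e3 := Nat.div_add_mod k (2 * b + 2)
      have e4 := Nat.div_add_mod k' (2 * b + 2)
      rcases Nat.lt_or_gt_of_ne hne with h | h
      · refine (WIN_far (n := n) (ℓ := ℓ) (b := b) (k := k') (k' := k) ?_).symm
        have : k / (2 * b + 2) < k' / (2 * b + 2) := by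
          by_contra hcon
          push Not at hcon
          have := Nat.mul_le_mul_left (2 * b + 2) hcon
          omega
        have := Nat.mul_le_mul_left (2 * b + 2) this
        rw [Nat.mul_succ] at this
        omega
      · refine WIN_far (n := n) (ℓ := ℓ) (b := b) (k := k) (k' := k') ?_
        have : k' / (2 * b + 2) < k / (2 * b + 2) := by
          by_contra hcon
          push Not at hcon
          have := Nat.mul_le_mul_left (2 * b + 2) hcon
          omega
        have := Nat.mul_le_mul_left (2 * b + 2) this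
        rw [Nat.mul_succ] at this
        omega
  have hsum : ((range N).filter p).card =
      ∑ ρ ∈ range (2 * b + 2), (((range N).filter p).filter (fun k => k % (2 * b + 2) = ρ)).card := by
    refine Finset.card_eq_sum_card_fiberwise fun k _ => ?_
    simp only [Finset.coe_range, Set.mem_Iio]
    exact Nat.mod_lt _ (by omega)
  rw [hsum]
  push_cast
  rw [Finset.sum_mul]
  refine (Finset.sum_le_card_nsmul _ _ _ fun ρ _ => hcls ρ).trans ?_
  rw [Finset.card_range, nsmul_eq_mul]
  push_cast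
  exact le_rfl

lemma WIN_dg_pos {n : ℕ} {A : Fin n → Fin n → ℝ} (hA : IsAdj A) (v : Fin n)
    (h : ∃ u, A v u = 1) : 0 < dg A v := by
  obtain ⟨u, hu⟩ := h
  have : A v u ≤ dg A v :=
    Finset.single_le_sum (f := fun u => A v u) (fun j _ => (WIN_A01 hA v j).1) (Finset.mem_univ u)
  rw [hu] at this
  linarith

lemma WIN_card_dg {n : ℕ} {A : Fin n → Fin n → ℝ} (hA : IsAdj A) (D : ℝ) :
    ((univ.filter (fun v => D < dg A v)).card : ℝ) * D ≤ 2 * arcs A := by
  rw [← nsmul_eq_mul]
  refine (Finset.card_nsmul_le_sum _ _ _ fun k hk => (Finset.mem_filter.1 hk).2.le).trans ?_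
  refine (Finset.sum_le_sum_of_subset_of_nonneg (Finset.filter_subset _ _)
    fun v _ _ => Finset.sum_nonneg fun u _ => (WIN_A01 hA v u).1).trans ?_
  unfold arcs
  linarith

lemma WIN_card_bal (h3 : S_F3) {n : ℕ} {A : Fin n → Fin n → ℝ} {H : ℝ} (hA : IsAdj A)
    (hN : ∀ v, ∃ u, A v u = 1) (hF : FI A H) (D q : ℝ) (hq : 0 < q) (hD : 0 < D) :
    ((univ.filter (fun v => dg A v ≤ D ∧ q / 100 < |bal A v|)).card : ℝ) ≤
      2 * 10 ^ 4 * H * D / q ^ 2 := by
  have h := h3 n A H hA hN hF
  have h1 : ((univ.filter (fun v => dg A v ≤ D ∧ q / 100 < |bal A v|)).card : ℝ) *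
      ((q / 100) ^ 2 / D) ≤ 2 * H := by
    refine le_trans ?_ h
    rw [← nsmul_eq_mul]
    refine (Finset.card_nsmul_le_sum _ (fun v => bal A v ^ 2 / dg A v) _ fun v hv => ?_).trans
      (Finset.sum_le_sum_of_subset_of_nonneg (Finset.filter_subset _ _) fun v _ _ => ?_)
    · obtain ⟨_, hd, hb⟩ := Finset.mem_filter.1 hv
      have hpos := WIN_dg_pos hA v (hN v)
      have hb2 : (q / 100) ^ 2 ≤ bal A v ^ 2 := by
        rw [← sq_abs (bal A v)]
        exact pow_le_pow_left₀ (by positivity) hb.le 2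
      calc (q / 100) ^ 2 / D ≤ (q / 100) ^ 2 / dg A v :=
            div_le_div_of_nonneg_left (by positivity) hpos hd
        _ ≤ bal A v ^ 2 / dg A v := div_le_div_of_nonneg_right hb2 hpos.le
    · exact div_nonneg (sq_nonneg _) (WIN_dg_pos hA v (hN v)).le
  have h2 : (0:ℝ) < (q / 100) ^ 2 / D := by positivity
  rw [← le_div_iff₀ h2] at h1
  refine h1.trans (le_of_eq ?_)
  field_simp
  ring

theorem t_WIN (h3 : S_F3) (h4 : S_F4) : S_WIN := by
  classical
  intro n A H hA hN hF hH ℓ a c q r D s hℓ ha hc hq hr hD hs hm hlen hbal hbad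
  set m := arcs A with hmdef
  have hℓ0 : (0:ℝ) < ℓ := by exact_mod_cast hℓ
  have ha0 : (0:ℝ) < a := by exact_mod_cast ha
  have hc0 : (0:ℝ) < c := by exact_mod_cast hc
  -- sums of long arcs
  have hlong : ∀ L : ℕ, 1 ≤ L → ∑ v, long A (L * ℓ) v ≤ m / L := by
    intro L hL
    have hL0 : (0:ℝ) < L := by exact_mod_cast hL
    have h1 := (WIN_long_sum hA (L * ℓ)).trans hlen
    push_cast at h1
    rw [le_div_iff₀ hL0]
    have : (ℓ : ℝ) * ((∑ v, long A (L * ℓ) v) * L) ≤ ℓ * m := by linarith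
    exact le_of_mul_le_mul_left this hℓ0
  have hcl : ∀ L : ℕ, 1 ≤ L →
      ((univ.filter (fun v => q / 100 < long A (L * ℓ) v)).card : ℝ) ≤ 100 * m / (L * q) := by
    intro L hL
    have hL0 : (0:ℝ) < L := by exact_mod_cast hL
    have h1 := (WIN_card_long hA (L * ℓ) (q / 100)).trans (hlong L hL)
    rw [← le_div_iff₀ (by positivity)] at h1
    refine h1.trans (le_of_eq ?_)
    field_simp
  -- the four bad events
  set N := n / ℓ + 1 with hNdef
  let p1 : ℕ → Prop := fun k => r < (((win n ℓ k 0).filter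
    (fun v => q / 100 < long A (a * ℓ) v)).card : ℝ)
  let p2 : ℕ → Prop := fun k => q / 100 < (((win n ℓ k a).filter
    (fun v => q / 100 < long A (c * ℓ) v)).card : ℝ)
  let p3 : ℕ → Prop := fun k => q / 200 < (((win n ℓ k a).filter
    (fun v => D < dg A v)).card : ℝ)
  let p4 : ℕ → Prop := fun k => ∃ x : Fin n → ℝ, (∀ i, |x i| ≤ 1) ∧
    (∀ i, i ∉ win n ℓ k (a + c) → x i = 0) ∧ s < -quad A x
  have b1 : (((range N).filter p1).card : ℝ) ≤ 200 * m / (a * q * r) := by
    have h := WIN_markov n ℓ 0 N hℓ (fun v => q / 100 < long A (a * ℓ) v) r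
    have h' := hcl a ha
    rw [← le_div_iff₀ hr] at h
    refine h.trans ?_
    rw [div_le_iff₀ hr]
    calc (2 * ((0:ℕ):ℝ) + 2) * ((univ.filter (fun v => q / 100 < long A (a * ℓ) v)).card : ℝ)
        = 2 * ((univ.filter (fun v => q / 100 < long A (a * ℓ) v)).card : ℝ) := by
          push_cast; ring
      _ ≤ 2 * (100 * m / (a * q)) := by linarith
      _ = 200 * m / (a * q * r) * r := by field_simp; ring
  have b2 : (((range N).filter p2).card : ℝ) ≤ 10 ^ 4 * (2 * a + 3) * m / (c * q ^ 2) := by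
    have h := WIN_markov n ℓ a N hℓ (fun v => q / 100 < long A (c * ℓ) v) (q / 100)
    have h' := hcl c hc
    rw [← le_div_iff₀ (by positivity)] at h
    refine h.trans ?_
    rw [div_le_iff₀ (by positivity)]
    have h0 : (0:ℝ) ≤ 100 * m / (c * q) := by positivity
    calc (2 * (a:ℝ) + 2) * ((univ.filter (fun v => q / 100 < long A (c * ℓ) v)).card : ℝ)
        ≤ (2 * a + 2) * (100 * m / (c * q)) := mul_le_mul_of_nonneg_left h' (by positivity)
      _ ≤ (2 * a + 3) * (100 * m / (c * q)) := mul_le_mul_of_nonneg_right (by linarith) h0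
      _ = 10 ^ 4 * (2 * a + 3) * m / (c * q ^ 2) * (q / 100) := by field_simp; ring
  have b3 : (((range N).filter p3).card : ℝ) ≤ 400 * (2 * a + 3) * m / (D * q) := by
    have h := WIN_markov n ℓ a N hℓ (fun v => D < dg A v) (q / 200)
    have h' := WIN_card_dg hA D
    rw [← hmdef, ← le_div_iff₀ hD] at h'
    rw [← le_div_iff₀ (by positivity)] at h
    refine h.trans ?_
    rw [div_le_iff₀ (by positivity)]
    have h0 : (0:ℝ) ≤ 2 * m / D := by positivity
    calc (2 * (a:ℝ) + 2) * ((univ.filter (fun v => D < dg A v)).card : ℝ)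
        ≤ (2 * a + 2) * (2 * m / D) := mul_le_mul_of_nonneg_left h' (by positivity)
      _ ≤ (2 * a + 3) * (2 * m / D) := mul_le_mul_of_nonneg_right (by linarith) h0
      _ = 400 * (2 * a + 3) * m / (D * q) * (q / 200) := by field_simp; ring
  have b4 : (((range N).filter p4).card : ℝ) ≤ 2 * H * (2 * a + 2 * c + 4) / s := by
    have h := WIN_surplus h4 hA hF ℓ (a + c) N s p4 (fun k hk => hk)
    rw [← le_div_iff₀ hs] at h
    refine h.trans (div_le_div_of_nonneg_right ?_ hs.le)
    push_cast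
    nlinarith
  -- the bad set
  let pb : ℕ → Prop := fun k => p1 k ∨ p2 k ∨ p3 k ∨ p4 k
  have hB : (((range N).filter pb).card : ℝ) ≤ 200 * m / (a * q * r) +
      10 ^ 4 * (2 * a + 3) * m / (c * q ^ 2) + 400 * (2 * a + 3) * m / (D * q) +
      2 * H * (2 * a + 2 * c + 4) / s := by
    have : ((range N).filter pb).card ≤ ((range N).filter p1).card + (((range N).filter p2).card +
        (((range N).filter p3).card + ((range N).filter p4).card)) := by
      have hsub : (range N).filter pb ⊆ (range N).filter p1 ∪ ((range N).filter p2 ∪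
          ((range N).filter p3 ∪ (range N).filter p4)) := by
        intro k hk
        simp only [Finset.mem_filter, Finset.mem_union] at hk ⊢
        obtain ⟨h0, h | h | h | h⟩ := hk
        · exact Or.inl ⟨h0, h⟩
        · exact Or.inr (Or.inl ⟨h0, h⟩)
        · exact Or.inr (Or.inr (Or.inl ⟨h0, h⟩))
        · exact Or.inr (Or.inr (Or.inr ⟨h0, h⟩))
      refine (Finset.card_le_card hsub).trans ((Finset.card_union_le _ _).trans ?_)
      refine Nat.add_le_add_left ((Finset.card_union_le _ _).trans ?_) _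
      exact Nat.add_le_add_left (Finset.card_union_le _ _) _
    have h' : (((range N).filter pb).card : ℝ) ≤ (((range N).filter p1).card : ℝ) +
        ((((range N).filter p2).card : ℝ) + ((((range N).filter p3).card : ℝ) +
          (((range N).filter p4).card : ℝ))) := by exact_mod_cast this
    linarith
  -- the total
  have hcov : m ≤ ∑ k ∈ range N, e2 A (win n ℓ k 0) := by
    have h := WIN_cover hA ℓ hℓ
    have h' := hlong 1 le_rfl
    simp only [one_mul, Nat.cast_one, div_one] at h'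
    have e : ∑ i, ∑ j, A i j = 2 * m := by rw [hmdef]; unfold arcs; ring
    rw [e] at h
    linarith
  -- suppose no good window
  by_contra hcon
  push Not at hcon
  have hNr : (N : ℝ) ≤ (n : ℝ) / ℓ + 1 := by
    rw [hNdef]
    push_cast
    have : ((n / ℓ : ℕ) : ℝ) ≤ (n : ℝ) / ℓ := Nat.cast_div_le
    linarith
  have hN0 : (0:ℝ) < (n : ℝ) / ℓ + 1 := by positivity
  set θ := m / (2 * ((n : ℝ) / ℓ + 1)) with hθ
  have hθ0 : 0 < θ := by positivity
  have hgood : ∀ k, ¬ pb k → e2 A (win n ℓ k 0) < θ := by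
    intro k hk
    by_contra hlt
    push Not at hlt
    simp only [pb, not_or] at hk
    obtain ⟨k1, k2, k3, k4⟩ := hk
    have k1' : (((win n ℓ k 0).filter (fun v => q / 100 < long A (a * ℓ) v)).card : ℝ) ≤ r :=
      not_lt.1 k1
    have k2' : (((win n ℓ k a).filter (fun v => q / 100 < long A (c * ℓ) v)).card : ℝ) ≤ q / 100 :=
      not_lt.1 k2
    have k3' : (((win n ℓ k a).filter (fun v => D < dg A v)).card : ℝ) ≤ q / 200 := not_lt.1 k3
    have k5 : (((win n ℓ k a).filter (fun v => q / 100 < |bal A v|)).card : ℝ) ≤ q / 100 := by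
      have hsub : (win n ℓ k a).filter (fun v => q / 100 < |bal A v|) ⊆
          (win n ℓ k a).filter (fun v => D < dg A v) ∪
            univ.filter (fun v => dg A v ≤ D ∧ q / 100 < |bal A v|) := by
        intro v hv
        simp only [Finset.mem_filter, Finset.mem_union, Finset.mem_univ, true_and] at hv ⊢
        rcases lt_or_ge D (dg A v) with h | h
        · exact Or.inl ⟨hv.1, h⟩
        · exact Or.inr ⟨h, hv.2⟩
      have h1 : (((win n ℓ k a).filter (fun v => q / 100 < |bal A v|)).card : ℝ) ≤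
          (((win n ℓ k a).filter (fun v => D < dg A v)).card : ℝ) +
            ((univ.filter (fun v => dg A v ≤ D ∧ q / 100 < |bal A v|)).card : ℝ) := by
        exact_mod_cast (Finset.card_le_card hsub).trans (Finset.card_union_le _ _)
      have h2 := (WIN_card_bal h3 hA hN hF D q hq hD).trans hbal
      linarith
    obtain ⟨x, hx1, hx2, hx3⟩ := hcon k hlt k1' k2' k5
    exact k4 ⟨x, hx1, hx2, hx3⟩
  have hsplit : ∑ k ∈ range N, e2 A (win n ℓ k 0) =
      ∑ k ∈ (range N).filter pb, e2 A (win n ℓ k 0) +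
        ∑ k ∈ (range N).filter (fun k => ¬ pb k), e2 A (win n ℓ k 0) :=
    (Finset.sum_filter_add_sum_filter_not _ _ _).symm
  have hs1 : ∑ k ∈ (range N).filter pb, e2 A (win n ℓ k 0) ≤ m / 2 := by
    refine (Finset.sum_le_card_nsmul _ _ _ fun k _ => WIN_e2_le hA ℓ k).trans ?_
    rw [nsmul_eq_mul]
    refine le_trans ?_ hbad
    rw [mul_comm]
    exact mul_le_mul_of_nonneg_left hB (by positivity)
  have hs2 : ∑ k ∈ (range N).filter (fun k => ¬ pb k), e2 A (win n ℓ k 0) < m / 2 := by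
    rcases ((range N).filter (fun k => ¬ pb k)).eq_empty_or_nonempty with h | h
    · rw [h, Finset.sum_empty]; linarith
    · have h1 : ∑ k ∈ (range N).filter (fun k => ¬ pb k), e2 A (win n ℓ k 0) <
          ∑ k ∈ (range N).filter (fun k => ¬ pb k), θ :=
        Finset.sum_lt_sum_of_nonempty h fun k hk => hgood k (Finset.mem_filter.1 hk).2
      refine h1.trans_le ?_
      rw [Finset.sum_const, nsmul_eq_mul]
      have h2 : (((range N).filter (fun k => ¬ pb k)).card : ℝ) ≤ (n : ℝ) / ℓ + 1 := by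
        refine le_trans ?_ hNr
        exact_mod_cast (Finset.card_filter_le _ _).trans (by rw [Finset.card_range])
      calc (((range N).filter (fun k => ¬ pb k)).card : ℝ) * θ ≤ ((n : ℝ) / ℓ + 1) * θ :=
            mul_le_mul_of_nonneg_right h2 hθ0.le
        _ = m / 2 := by rw [hθ]; field_simp
  linarith

end Pool.Agent.H427R2.SD
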